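import Pool.Agent.Lib.MP_706ff3_lc.B.Stmt

/-!
The data of the step theorem.
-/

set_option autoImplicit false
set_option linter.unusedSectionVars false

namespace Pool.Agent.Lib.MP_706ff3_lc.B

open Classical

variable {M : Type} [PA M] [IM M]

/-- A colouring `f` with `K` colours, the admissible pairs of colours, and the blocks; the
underlying finite set of the block `B` has code `p1 B`. -/
structure Data (S : Set (M → Prop)) (K : ℕ) (f : M × M → M) (Side Blk : M → M → Prop) : Prop where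
  rf : Rec S f
  rS : Rec S (fun p : M × M => Side p.1 p.2)
  rB : Rec S (fun p : M × M => Blk p.1 p.2)
  fK : ∀ x y, x < y → f (x, y) < (K : M)
  mono : ∀ n n' B, n' ≤ n → Blk n B → Blk n' B
  ge : ∀ n B x, Blk n B → mem x (p1 B) → n ≤ x
  ne : ∀ n B, Blk n B → ∃ x, mem x (p1 B)
  side : ∀ n B d, Blk n B → d < (K : M) → ∃ c < (K : M), Side c d ∧
    ∀ x y, mem x (p1 B) → mem y (p1 B) → x < y → f (x, y) = c ∨ f (x, y) = d
  big : ∀ W : Set (M → Prop), Star W → S ⊆ W → ∀ lab : M → M, Rec W lab → ∀ p, (∀ y, lab y < p) →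
    ∀ n, ∃ B, Blk n B ∧ ∃ j, ∀ y, mem y (p1 B) → lab y = j

/-- The conclusion of the step theorem. -/
def Goal (S : Set (M → Prop)) (f : M × M → M) (Side Blk : M → M → Prop) : Prop :=
  ∃ T, Nice T ∧ S ⊆ T ∧ ∃ G ∈ T, (∀ n, ∃ B, Blk n B ∧ ∀ x, mem x (p1 B) → G x) ∧
    ∃ c d, Side c d ∧ ∀ x y, G x → G y → x < y → f (x, y) = c ∨ f (x, y) = d

/-- The packed Ramsey theorem for pairs and `k` colours holds in `S`. -/
def PRTc (k : ℕ) (S : Set (M → Prop)) : Prop :=
  ∀ Φ ∈ S, ∀ F ∈ S, IsFun Φ → (∀ w m, Φ (pr w m) → Arrow w m ((k : M) + 1)) → IsCol (k : M) F →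
    ∃ H ∈ S, Packed H Φ ∧ SemiHom H F

end Pool.Agent.Lib.MP_706ff3_lc.B
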