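import Pool.Agent.Lib.MP_706ff3_lc.B.Part
import Pool.Agent.Lib.MP_706ff3_lc.B.Data

/-!
Conditions and the blocking lemma.
-/

set_option autoImplicit false
set_option linter.unusedSectionVars false

namespace Pool.Agent.Lib.MP_706ff3_lc.B

open Classical

variable {M : Type} [PA M] [IM M]

noncomputable def mm (y : M) : M := p1 (p2 y)
noncomputable def uu (y : M) : M := p1 (p2 (p2 y))
noncomputable def sd (y : M) : M := p2 (p2 (p2 y))
/-- The stem of the condition `y` on side `i`. -/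
def St (y i x : M) : Prop := mem (pr i x) (p1 y)
def col (x : M) : M := pr 0 (pr 0 x)

def Fc (U : M × M × M → Prop) (y i n : M) : Prop := ∃ z ≤ mm y, U (n, z, res (St y i) z)
def Ext0 (y t i : M) : Prop := mm y ≤ mm t ∧ ∀ x < mm y, (St t i x ↔ St y i x)
def New (R : M → Prop) (y t i : M) : Prop := ∀ x < t, St t i x → mm y ≤ x → R x
def Hom (f : M × M → M) (t i : M) : Prop :=
  ∀ x < t, St t i x → x < mm t ∧ ∀ x' < x, St t i x' → f (x', x) = p1 i ∨ f (x', x) = p2 i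
def HasB (Blk : M → M → Prop) (y t i : M) : Prop :=
  ∃ B ≤ t, (fun p : M × M => Blk p.1 p.2) (y, B) ∧ ∀ x, mem x (p1 B) → St t i x
def Mx (U : M × M × M → Prop) (y D t i : M) : Prop :=
  ∀ A < bnd y, mem (pr i A) D → (∀ n < y, Fc U t i n → mem n A) → ∀ n < y, mem n A → Fc U t i n

def WitF (K : M) (f : M × M → M) (Side Blk : M → M → Prop) (U : M × M × M → Prop)
    (p : M × M × M) : Prop :=
  (p1 p.1 = 0 → p2 p.1 < p.2.2 ∧ f (p2 p.1, p.2.2) ≠ p.2.1) ∧
  (p1 p.1 ≠ 0 → p1 p.2.2 < K ∧ (fun p : M × M => Side p.1 p.2) (p1 p.2.2, p.2.1) ∧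
    Ext0 (p1 (p2 p.1)) (p2 p.2.2) (pr (p1 p.2.2) p.2.1) ∧
    Hom f (p2 p.2.2) (pr (p1 p.2.2) p.2.1) ∧
    HasB Blk (p1 (p2 p.1)) (p2 p.2.2) (pr (p1 p.2.2) p.2.1) ∧
    Mx U (p1 (p2 p.1)) (p2 (p2 p.1)) (p2 p.2.2) (pr (p1 p.2.2) p.2.1))

def ElF (p : M × M × M × M) : Prop :=
  (p1 p.1 = 0 → p.2.2.2 = p.2.2.1) ∧
  (p1 p.1 ≠ 0 → St (p2 p.2.2.1) (pr (p1 p.2.2.1) p.2.1) p.2.2.2 ∧ mm (p1 (p2 p.1)) ≤ p.2.2.2)

theorem St.lt {y i x : M} (h : St y i x) : x < y :=
  (le_pr_right _ _).trans_lt ((mem_lt h).trans_le (p1_le _))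

theorem mm_le (y : M) : mm y ≤ y := (p1_le _).trans (p2_le _)
theorem uu_le (y : M) : uu y ≤ y := (p1_le _).trans ((p2_le _).trans (p2_le _))

theorem reg_St (y i : M) : Reg (St y i) := by
  obtain ⟨S, hS⟩ := IM.ex (M := M)
  exact Rec.reg (S := S) (by unfold St; fun_prop)

theorem Ext0.refl (y i : M) : Ext0 y y i := ⟨le_rfl, fun _ _ => Iff.rfl⟩

theorem Ext0.trans {y t t' i : M} (h : Ext0 y t i) (h' : Ext0 t t' i) : Ext0 y t' i :=
  ⟨h.1.trans h'.1, fun x hx => (h'.2 x (hx.trans_le h.1)).trans (h.2 x hx)⟩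

theorem New.trans {R R' : M → Prop} {y t t' i : M} (h : New R y t i) (e : Ext0 t t' i)
    (h' : New R' t t' i) (hR : ∀ x, R' x → R x) : New R y t' i := fun x hx h1 h2 => by
  by_cases h3 : x < mm t
  · have h4 := (e.2 x h3).1 h1
    exact h x h4.lt h4 h2
  · exact hR x (h' x hx h1 (not_lt.1 h3))

theorem Fc.ext {U : M × M × M → Prop} {y t i n : M} (h : Fc U y i n) (e : Ext0 y t i) :
    Fc U t i n := by
  obtain ⟨z, hz, h1⟩ := h
  exact ⟨z, hz.trans e.1, by rwa [res_congr fun x hx => e.2 x (hx.trans_le hz)]⟩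

theorem exists_cond {S : Set (M → Prop)} [Star S] {X : M → Prop} (hX : Rec S X) {N : M}
    (hN : ∀ v, X v → v < N) (m u i : M) :
    ∃ t, (∀ j x, St t j x ↔ X (pr j x)) ∧ mm t = m ∧ uu t = u ∧ sd t = i := by
  obtain ⟨σ, hσ⟩ := hX.coded_of_bdd hN
  exact ⟨pr σ (pr m (pr u i)), fun j x => by simp [St, hσ], by simp [mm], by simp [uu],
    by simp [sd]⟩

theorem exists_max (D i y : M) (h : ∃ A < bnd y, mem (pr i A) D) :
    ∃ A < bnd y, mem (pr i A) D ∧ ∀ A' < bnd y, mem (pr i A') D → (∀ n < y, mem n A → mem n A') →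
      ∀ n < y, mem n A' → mem n A := by
  obtain ⟨S, hS⟩ := IM.ex (M := M)
  refine Rec.ind (S := S) (P := fun k => ∃ A < bnd y, mem (pr i A) D ∧ ∀ A' < bnd y,
    mem (pr i A') D → (∀ n < k, mem n A → mem n A') → ∀ n < k, mem n A' → mem n A)
    (by fun_prop) ?_ ?_ y
  · obtain ⟨A, h1, h2⟩ := h
    exact ⟨A, h1, h2, fun _ _ _ _ n hn => absurd hn not_lt_zero⟩
  · rintro k ⟨A, h1, h2, h3⟩
    by_cases h4 : ∃ A1 < bnd y, mem (pr i A1) D ∧ (∀ n < k, mem n A → mem n A1) ∧ mem k A1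
    · obtain ⟨A1, h5, h6, h7, h8⟩ := h4
      refine ⟨A1, h5, h6, fun A' h9 h10 h11 n hn h12 => ?_⟩
      rcases lt_succ_iff_lt_or_eq.1 hn with h13 | rfl
      · exact h7 n h13 (h3 A' h9 h10
          (fun n hn h => h11 n (hn.trans (lt_succ_self' k)) (h7 n hn h)) n h13 h12)
      · exact h8
    · refine ⟨A, h1, h2, fun A' h9 h10 h11 n hn h12 => ?_⟩
      have h14 : ∀ n < k, mem n A → mem n A' := fun n hn => h11 n (hn.trans (lt_succ_self' k))
      rcases lt_succ_iff_lt_or_eq.1 hn with h13 | rfl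
      · exact h3 A' h9 h10 h14 n h13 h12
      · exact absurd ⟨A', h9, h10, h14, h12⟩ h4

/-- The objects produced by the first two steps. -/
structure Env (S S1 W : Set (M → Prop)) (K : ℕ) (f : M × M → M) (Side Blk : M → M → Prop)
    (U : M × M × M → Prop) (C P : M → Prop) : Prop where
  dat : Data S K f Side Blk
  pos : (0 : M) < K
  rU : Rec S U
  sub : S ⊆ S1
  rC : Rec S1 C
  bel : Below S1 W
  rP : Rec W P
  pick : ∀ a, ∃ s < (K : M), P (pr a s)
  blk : ∀ z, ∃ B, Blk z B ∧ ∀ y, mem y (p1 B) → RR C (res P z) y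
  good : ∀ a (δ : M → M → Prop), Reg (fun v => δ (p1 v) (p2 v)) → (∀ y, ∃ s < (K : M), δ s y) →
    (∀ l, GoodUp (K : M) (WitF (K : M) f Side Blk U) ElF (RR C (p1 a)) δ (p2 a) l) →
    ∀ l, GoodUp (K : M) (WitF (K : M) f Side Blk U) ElF (RR C (p1 a)) (fun s y => C (pr (pr a s) y)) (p2 a) l

def Inv (K : M) (f : M × M → M) (P : M → Prop) (y : M) : Prop :=
  ∀ i < pr K K, Hom f y i ∧ ∀ x < y, St y i x → pr (col x) (p2 i) < uu y ∧ P (pr (col x) (p2 i))

def Ext (K : M) (C P : M → Prop) (y t : M) : Prop :=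
  uu y ≤ uu t ∧ ∀ i < pr K K, Ext0 y t i ∧ New (RR C (res P (uu y))) y t i

def Dec (f : M × M → M) (U : M × M × M → Prop) (C : M → Prop) (ρ y y' : M) : Prop :=
  ∀ t, y' ≤ t → Ext0 y' t (sd y') → New (RR C ρ) y' t (sd y') → Hom f t (sd y') →
    ∀ n < y, Fc U t (sd y') n → Fc U y' (sd y') n

def Step (K : M) (f : M × M → M) (Side Blk : M → M → Prop) (U : M × M × M → Prop)
    (C P : M → Prop) (y y' : M) : Prop :=
  y < y' ∧ Inv K f P y' ∧ Ext K C P y y' ∧ sd y' < pr K K ∧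
    (fun p : M × M => Side p.1 p.2) (p1 (sd y'), p2 (sd y')) ∧
    HasB Blk y y' (sd y') ∧ Dec f U C (res P (uu y')) y y'

def Dset (f : M × M → M) (Blk : M → M → Prop) (U : M × M × M → Prop) (C : M → Prop)
    (y ρ e : M) : Prop :=
  ∃ t, Ext0 y t (p1 e) ∧ New (RR C ρ) y t (p1 e) ∧ Hom f t (p1 e) ∧ HasB Blk y t (p1 e) ∧
    ∀ n < y, (mem n (p2 e) ↔ Fc U t (p1 e) n)

namespace Env

variable {S S1 W : Set (M → Prop)} {K : ℕ} {f : M × M → M} {Side Blk : M → M → Prop}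
  {U : M × M × M → Prop} {C P : M → Prop} [G1 S] [Star S1] [Star W]
  (h : Env S S1 W K f Side Blk U C P)
include h

theorem subW : S ⊆ W := h.sub.trans h.bel.subset

theorem RR_mono {v v' x : M} (hv : v ≤ v') (h1 : RR C (res P v') x) : RR C (res P v) x :=
  fun w hw => h1 w (h.rP.reg.mem_res.2
    ⟨(h.rP.reg.mem_res.1 hw).1.trans_le hv, (h.rP.reg.mem_res.1 hw).2⟩)

theorem colour {x d v y : M} (hd : P (pr (col x) d)) (hK : d < (K : M)) (hv : pr (col x) d < v)
    (hy : RR C (res P v) y) (hxy : x < y) : f (x, y) = d := by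
  have hf := h.dat.rf
  by_contra hn
  refine h.good (col x) (fun s y => y ≤ x ∨ f (x, y) = s) (Rec.reg (S := S) (by fun_prop))
    (fun y => ?_) (fun l s _ t _ h1 h2 => ?_) (y + 1) d hK y (lt_succ_self' y)
    ⟨fun _ => by simpa [col] using ⟨hxy, hn⟩, fun h1 => absurd (by simp [col]) h1⟩
    fun y' _ h1 => ?_
  · by_cases h1 : y ≤ x
    · exact ⟨0, h.pos, Or.inl h1⟩
    · exact ⟨_, h.dat.fK x y (not_le.1 h1), Or.inr rfl⟩
  · have h3 := h1.1 (by simp [col])
    have h4 := (h2 t le_rfl ⟨fun _ => rfl, fun h1 => absurd (by simp [col]) h1⟩).2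
    simp only [col, p2_pr] at h3
    rcases h4 with h4 | h4
    · exact absurd h3.1 (not_lt.2 h4)
    · exact h3.2 h4
  · have h2 : y' = y := h1.1 (by simp [col])
    subst h2
    exact ⟨fun w hw => absurd (mem_lt hw) (by simp [col]),
      hy _ (h.rP.reg.mem_res.2 ⟨hv, hd⟩)⟩

theorem rec_Dset (y : M) : Rec W (fun p : M × M => Dset f Blk U C y p.1 p.2) := by
  have hf := h.dat.rf.mono h.sub
  have hB := h.dat.rB.mono h.sub
  have hU := h.rU.mono h.sub
  have hC := h.rC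
  exact h.bel.sig1 (Sig1.exists (Rec.sig1 (by
    unfold Ext0 New Hom HasB Fc RR St mm; fun_prop)))

theorem stable (y : M) : ∃ v v' D, uu y ≤ v ∧ pr (pr (res P v) (pr 1 (pr y D))) K ≤ v' ∧ v ≤ v' ∧
    (∀ e, mem e D ↔ e < pr (pr (K : M) K) (bnd y) ∧ Dset f Blk U C y (res P v) e) ∧
    (∀ e, mem e D ↔ e < pr (pr (K : M) K) (bnd y) ∧ Dset f Blk U C y (res P v') e) := by
  have hD := h.rec_Dset y
  have hP := h.rP
  have hr : ∀ ρ, Reg (Dset f Blk U C y ρ) := fun ρ =>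
    Rec.reg (S := W) (hD.comp (g := fun e : M => (ρ, e)) (by fun_prop))
  set N0 : M := pr (pr (K : M) K) (bnd y)
  obtain ⟨it, h1, h2, h3⟩ := Rec.iter (S := S)
    (h := fun v => pr (pr (bnd v) (pr 1 (pr y (bnd N0)))) K + v) (by fun_prop) (uu y)
  have h4 : ∀ j k, it j ≤ it (j + k) := fun j =>
    Rec.ind (S := S) (P := fun k => it j ≤ it (j + k)) (by fun_prop) (by simp)
      fun k hk => by rw [← add_assoc, h3]; exact hk.trans le_add_self
  have h5 : ∀ j k, j ≤ k → it j ≤ it k := fun j k hjk => by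
    obtain ⟨c, rfl⟩ := exists_add_of_le hjk
    exact h4 j c
  have h1' := h1.mono h.subW
  obtain ⟨j, k, hjk, h6⟩ : ∃ j k, j < k ∧ res (Dset f Blk U C y (res P (it j))) N0 =
      res (Dset f Blk U C y (res P (it k))) N0 := by
    by_contra hn
    refine absurd (Rec.php (S := W) (q := bnd N0 + 1) (r := bnd N0) (R := fun j r =>
      res (fun e => (fun p : M × M => Dset f Blk U C y p.1 p.2) (res P (it j), e)) N0 = r)
      (by fun_prop) (fun j _ => ⟨_, (hr _).res_lt_bnd N0, rfl⟩) ?_) (not_le.2 (lt_succ_self' _))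
    intro j _ k _ r _ h6 h7
    rcases lt_trichotomy j k with h8 | h8 | h8
    · exact absurd ⟨j, k, h8, h6.trans h7.symm⟩ hn
    · exact h8
    · exact absurd ⟨k, j, h8, h7.trans h6.symm⟩ hn
  refine ⟨it j, it k, _, h2 ▸ h5 0 j zero_le, ?_, h5 j k hjk.le, fun e => (hr _).mem_res,
    fun e => h6 ▸ (hr _).mem_res⟩
  refine le_trans ?_ (h5 _ _ (succ_le_iff'.2 hjk))
  rw [h3]
  exact (pr_le_pr (pr_le_pr (hP.reg.res_lt_bnd _).le (pr_le_pr le_rfl (pr_le_pr le_rfl
    ((hr _).res_lt_bnd _).le))) le_rfl).trans le_self_add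

theorem witness {y : M} (hy : Inv (K : M) f P y) : ∃ v D c d t, uu y ≤ v ∧
    (∀ e, mem e D ↔ e < pr (pr (K : M) K) (bnd y) ∧ Dset f Blk U C y (res P v) e) ∧
    c < (K : M) ∧ d < (K : M) ∧ Side c d ∧ Ext0 y t (pr c d) ∧ Hom f t (pr c d) ∧
    HasB Blk y t (pr c d) ∧ Mx U y D t (pr c d) ∧
    New (fun x => RR C (res P v) x ∧ P (pr (col x) d)) y t (pr c d) := by
  obtain ⟨v, v', D, h1, h2, h3, h4, h5⟩ := h.stable y
  have hP := h.rP
  have hU := h.rU
  by_contra hn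
  set a : M := pr (res P v) (pr 1 (pr y D)) with ha
  have hg := h.good a (fun s x => P (pr (col x) s)) (Rec.reg (S := W) (by unfold col; fun_prop))
    (fun x => h.pick _) (by
      intro l s hs t _ h6 h7
      have h8 := h6.2 (by simp [ha])
      simp only [ha, p1_pr, p2_pr] at h8 h7
      refine hn ⟨v, D, p1 t, s, p2 t, h1, h4, h8.1, hs, h8.2.1, h8.2.2.1, h8.2.2.2.1, h8.2.2.2.2.1,
        h8.2.2.2.2.2, fun x hx h9 h10 => h7 x (hx.le.trans (p2_le _)) ⟨fun h => ?_, fun _ => ?_⟩⟩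
      · simp at h
      · simpa using ⟨h9, h10⟩)
  obtain ⟨d, hd, h6⟩ := h.pick a
  have h7 : pr a d < v' := (pr_lt_pr' le_rfl hd).trans_le h2
  have hyv : y ≤ v' := (le_pr_left _ _).trans ((le_pr_right _ _).trans ((le_pr_right _ _).trans
    ((le_pr_left _ _).trans h2)))
  obtain ⟨B, h8, h9⟩ := h.blk v'
  obtain ⟨c, hc, h10, h11⟩ := h.dat.side _ _ d h8 hd
  have hi : pr c d < pr (K : M) K := pr_lt_pr hc hd.le
  obtain ⟨h12, h13⟩ := hy _ hi
  have hge : ∀ x, mem x (p1 B) → mm y ≤ x := fun x hx =>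
    (mm_le y).trans (hyv.trans (h.dat.ge _ _ _ h8 hx))
  obtain ⟨t1, h14, h15, -, -⟩ := exists_cond (S := S)
    (X := fun v => v < pr (pr c d + 1) (y + B) ∧ (St y (pr c d) (p2 v) ∨ mem (p2 v) (p1 B)))
    (by unfold St; fun_prop) (fun _ h => h.1) (mm y + B) 0 0
  have h16 : ∀ x, St t1 (pr c d) x ↔ St y (pr c d) x ∨ mem x (p1 B) := fun x => by
    rw [h14, p2_pr]
    refine ⟨fun h => h.2, fun h => ⟨pr_lt_pr (lt_succ_self' _) ?_, h⟩⟩
    rcases h with h | h
    · exact h.lt.le.trans le_self_add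
    · exact (mem_lt h).le.trans ((p1_le _).trans le_add_self)
  have hr : ∀ t i, Reg (Fc U t i) := fun t i =>
    Rec.reg (S := S) (by unfold Fc St mm; fun_prop)
  obtain ⟨A, h17, h18, h19⟩ := exists_max D (pr c d) y ⟨_, (hr t1 (pr c d)).res_lt_bnd y,
    (h5 _).2 ⟨pr_lt_pr hi ((hr _ _).res_lt_bnd y).le, t1, by
      simp only [p1_pr, p2_pr]
      refine ⟨⟨h15 ▸ le_self_add, fun x hx => ?_⟩, fun x _ h17 h18 => ?_, fun x _ h17 => ?_,
        ⟨B, le_add_self.trans (h15 ▸ mm_le t1), h.dat.mono _ _ _ hyv h8,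
          fun x hx => (h16 x).2 (Or.inr hx)⟩, fun n hn => by rw [(hr _ _).mem_res]; simp [hn]⟩
      · rw [h16]
        exact ⟨fun h => h.resolve_right fun h => absurd hx (not_lt.2 (hge x h)), Or.inl⟩
      · rcases (h16 x).1 h17 with h19 | h19
        · exact absurd (h12 x h19.lt h19).1 (not_lt.2 h18)
        · exact h9 x h19
      · rw [h15]
        rcases (h16 x).1 h17 with h19 | h19
        · refine ⟨(h12 x h19.lt h19).1.trans_le le_self_add, fun x' hx' h20 => ?_⟩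
          rcases (h16 x').1 h20 with h21 | h21
          · exact (h12 x h19.lt h19).2 x' hx' h21
          · exact absurd (hx'.trans (h12 x h19.lt h19).1) (not_lt.2 (hge x' h21))
        · refine ⟨(mem_lt h19).trans_le ((p1_le _).trans le_add_self), fun x' hx' h20 => ?_⟩
          simp only [p1_pr, p2_pr]
          rcases (h16 x').1 h20 with h21 | h21
          · have h22 := h13 x' h21.lt h21
            rw [p2_pr] at h22
            exact Or.inr (h.colour h22.2 hd (h22.1.trans_le (h1.trans h3)) (h9 x h19) hx')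
          · exact h11 x' x h21 h19 hx'⟩⟩
  obtain ⟨-, t, h20, h21, h22, h23, h24⟩ := (h5 _).1 h18
  simp only [p1_pr, p2_pr] at h20 h21 h22 h23 h24
  refine hg (pr c t + 1) d hd (pr c t) (lt_succ_self' _) ⟨fun h => ?_, fun _ => ?_⟩
    fun x _ h25 => ?_
  · simp [ha] at h
  · simp only [ha, p1_pr, p2_pr]
    exact ⟨hc, h10, h20, h22, h23, fun A' h25 h26 h27 n hn h28 => (h24 n hn).1
      (h19 A' h25 h26 (fun n hn h => h27 n hn ((h24 n hn).1 h)) n hn h28)⟩
  · have h26 := h25.2 (by simp [ha])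
    simp only [ha, p1_pr, p2_pr] at h26
    have h27 := h21 x h26.1.lt h26.1 h26.2
    exact ⟨by simpa [ha] using h.RR_mono h3 h27, h27 _ (hP.reg.mem_res.2 ⟨h7, h6⟩)⟩

theorem blocking {y : M} (hy : Inv (K : M) f P y) : ∃ y', Step (K : M) f Side Blk U C P y y' := by
  obtain ⟨v, D, c, d, t, h1, h2, hc, hd, h3, h4, h5, ⟨B, h6, h7, h8⟩, h9, h10⟩ := h.witness hy
  have hU := h.rU
  have hi : pr c d < pr (K : M) K := pr_lt_pr hc hd.le
  obtain ⟨y', h11, h12, h13, h14⟩ := exists_cond (S := S)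
    (X := fun v => (p1 v = pr c d ∧ mem v (p1 t)) ∨ (p1 v ≠ pr c d ∧ mem v (p1 y)))
    (by fun_prop) (N := p1 t + p1 y) (fun v hv => by
      rcases hv with hv | hv
      · exact (mem_lt hv.2).trans_le le_self_add
      · exact (mem_lt hv.2).trans_le le_add_self)
    (mm t) (v + pr (col t) K + (t + y + 1)) (pr c d)
  have e1 : St y' (pr c d) = St t (pr c d) := funext fun x => propext (by
    rw [h11]; simp [St])
  have e2 : ∀ i, i ≠ pr c d → St y' i = St y i := fun i hi => funext fun x => propext (by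
    rw [h11]; simp [St, hi])
  have l1 : v ≤ uu y' := h13 ▸ le_self_add.trans le_self_add
  have l2 : pr (col t) K ≤ uu y' := h13 ▸ le_add_self.trans le_self_add
  have l3 : t + y + 1 ≤ y' := (h13 ▸ le_add_self : t + y + 1 ≤ uu y').trans (uu_le y')
  have l4 : t ≤ y' := le_self_add.trans (le_self_add.trans l3)
  have e3 : Ext0 t y' (pr c d) := ⟨h12.ge, fun x _ => by rw [e1]⟩
  have hr : ∀ t i, Reg (Fc U t i) := fun t i =>
    Rec.reg (S := S) (by unfold Fc St mm; fun_prop)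
  refine ⟨y', (lt_succ_iff'.2 le_add_self).trans_le l3, fun i hi' => ?_,
    ⟨h1.trans l1, fun i hi' => ?_⟩, h14 ▸ hi, by simpa [h14] using h3,
    ⟨B, h6.trans l4, h7, by rw [h14, e1]; exact h8⟩, fun t' h15 => ?_⟩
  · by_cases e : i = pr c d
    · subst e
      unfold Hom
      rw [e1, h12, p2_pr]
      refine ⟨fun x _ hx => by simpa using h5 x hx.lt hx, fun x _ hx => ?_⟩
      by_cases h15 : x < mm y
      · have h16 := (h4.2 x h15).1 hx
        have h17 := (hy _ hi).2 x h16.lt h16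
        rw [p2_pr] at h17
        exact ⟨h17.1.trans_le (h1.trans l1), h17.2⟩
      · exact ⟨(pr_lt_pr (pr_lt_pr' le_rfl (pr_lt_pr' le_rfl hx.lt)) hd.le).trans_le l2,
          (h10 x hx.lt hx (not_lt.1 h15)).2⟩
    · unfold Hom
      rw [e2 i e, h12]
      exact ⟨fun x _ hx => ⟨((hy i hi').1 x hx.lt hx).1.trans_le h4.1, ((hy i hi').1 x hx.lt hx).2⟩,
        fun x _ hx => ⟨((hy i hi').2 x hx.lt hx).1.trans_le (h1.trans l1),
          ((hy i hi').2 x hx.lt hx).2⟩⟩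
  · by_cases e : i = pr c d
    · subst e
      refine ⟨h4.trans e3, fun x _ hx h15 => ?_⟩
      rw [e1] at hx
      exact h.RR_mono h1 (h10 x hx.lt hx h15).1
    · refine ⟨⟨h12 ▸ h4.1, fun x _ => by rw [e2 i e]⟩, fun x _ hx h15 => ?_⟩
      rw [e2 i e] at hx
      exact absurd ((hy i hi').1 x hx.lt hx).1 (not_lt.2 h15)
  · rw [h14]
    intro h16 h17 h18 n hn h19
    have e4 := e3.trans h16
    refine Fc.ext (h9 _ ((hr t' (pr c d)).res_lt_bnd y) ((h2 _).2
      ⟨pr_lt_pr hi ((hr _ _).res_lt_bnd y).le, t', ?_⟩)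
      (fun n hn h => (hr _ _).mem_res.2 ⟨hn, h.ext e4⟩) n hn ((hr _ _).mem_res.2 ⟨hn, h19⟩)) e3
    simp only [p1_pr, p2_pr]
    refine ⟨h4.trans e4, New.trans (t := y') (fun x _ hx h20 => ?_) h16 h17
      fun x => h.RR_mono l1, h18, ⟨B, h6.trans (l4.trans h15), h7, fun x hx => ?_⟩,
      fun n hn => by rw [(hr _ _).mem_res]; simp [hn]⟩
    · rw [e1] at hx
      exact (h10 x hx.lt hx h20).1
    · exact (e4.2 x (h5 x (h8 x hx).lt (h8 x hx)).1).2 (h8 x hx)

theorem rec_step : Rec W (fun p : M × M => Inv (K : M) f P p.1 → Step (K : M) f Side Blk U C P p.1 p.2) := by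
  have h1 : Rec W (fun p : M × M × M => Dec f U C p.1 p.2.1 p.2.2) := by
    have hf := h.dat.rf.mono h.sub
    have hU := h.rU.mono h.sub
    have hC := h.rC
    exact h.bel.pi1 (Pi1.forall (Rec.pi1 (by
      unfold Ext0 New Hom Fc RR St mm sd; fun_prop)))
  have hf := h.dat.rf.mono h.subW
  have hB := h.dat.rB.mono h.subW
  have hS := h.dat.rS.mono h.subW
  have hC := h.rC.mono h.bel.subset
  have hP := h.rP
  have h2 : Rec W (fun p : M × M => Dec f U C (res P (uu p.2)) p.1 p.2) :=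
    h1.comp (g := fun p : M × M => (res P (uu p.2), p.1, p.2)) (by unfold uu; fun_prop)
  refine Rec.imp (by unfold Inv Hom St col mm uu; fun_prop) (Rec.and (by fun_prop) (Rec.and
    (by unfold Inv Hom St col mm uu; fun_prop) (Rec.and
      (by unfold Ext Ext0 New RR St mm uu; fun_prop) (Rec.and (by unfold sd; fun_prop)
        (Rec.and (by unfold sd; fun_prop) (Rec.and (by unfold HasB St sd; fun_prop) h2))))))

end Env

end Pool.Agent.Lib.MP_706ff3_lc.B
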