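import Pool.Agent.Lib.MP_706ff3_lc.B.Block

/-!
The step theorem.
-/

set_option autoImplicit false
set_option linter.unusedSectionVars false

namespace Pool.Agent.Lib.MP_706ff3_lc.B

open Classical

variable {M : Type} [PA M] [IM M]

namespace Env

variable {S S1 W : Set (M → Prop)} {K : ℕ} {f : M × M → M} {Side Blk : M → M → Prop}
  {U : M × M × M → Prop} {C P : M → Prop} [G1 S] [Star S1] [Star W]
  (h : Env S S1 W K f Side Blk U C P)
include h

theorem ext_trans {y t t' : M} (h1 : Ext (K : M) C P y t) (h2 : Ext (K : M) C P t t') :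
    Ext (K : M) C P y t' :=
  ⟨h1.1.trans h2.1, fun i hi => ⟨(h1.2 i hi).1.trans (h2.2 i hi).1,
    (h1.2 i hi).2.trans (h2.2 i hi).1 (h2.2 i hi).2 fun _ => h.RR_mono h1.1⟩⟩

theorem orbit : ∃ (O : M → Prop) (nx : M → M), Rec W O ∧ Rec W nx ∧
    (∀ y, O y → Inv (K : M) f P y ∧ Step (K : M) f Side Blk U C P y (nx y) ∧ O (nx y)) ∧
    (∀ n, ∃ y, n ≤ y ∧ O y) ∧ ∀ x y, O x → O y → x ≤ y → Ext (K : M) C P x y := by
  obtain ⟨nx, h1, h2⟩ := Rec.skolem (S := W)
    (P := fun y y' : M => Inv (K : M) f P y → Step (K : M) f Side Blk U C P y y') h.rec_step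
    fun y => by
      by_cases hy : Inv (K : M) f P y
      · exact (h.blocking hy).imp fun _ h _ => h
      · exact ⟨0, fun h => absurd h hy⟩
  obtain ⟨O, h3, h4⟩ := exists_cv (W := W) (Ψ := fun x c => x = 0 ∨ ∃ y < x, mem y c ∧ nx y = x)
    (by fun_prop)
  have h5 : ∀ x, O x ↔ x = 0 ∨ ∃ y < x, O y ∧ nx y = x := fun x => by
    rw [h4]
    refine or_congr_right (exists_congr fun y => and_congr_right fun hy => ?_)
    rw [h3.reg.mem_res]; simp [hy]
  have hf := h.dat.rf.mono h.subW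
  have hC := h.rC.mono h.bel.subset
  have hP := h.rP
  have h6 : ∀ x, O x → Inv (K : M) f P x :=
    Rec.strong_ind (S := W) (by unfold Inv Hom St col mm uu; fun_prop) fun x ih hx => by
      rcases (h5 x).1 hx with rfl | ⟨y, h6, h7, rfl⟩
      · exact fun i _ => ⟨fun x hx => absurd hx not_lt_zero, fun x hx => absurd hx not_lt_zero⟩
      · exact (h2 y (ih y h6 h7)).2.1
  have h7 : ∀ x, O x → O (nx x) := fun x hx => (h5 _).2 (Or.inr ⟨x, (h2 x (h6 x hx)).1, hx, rfl⟩)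
  have hrefl : ∀ x, O x → Ext (K : M) C P x x := fun x hx => ⟨le_rfl, fun i hi =>
    ⟨Ext0.refl _ _, fun z hz h8 h9 => absurd ((h6 x hx i hi).1 z hz h8).1 (not_lt.2 h9)⟩⟩
  have h8 : ∀ x, O x → ∀ y < x, O y → nx y ≤ x ∧ Ext (K : M) C P y x :=
    Rec.strong_ind (S := W) (by unfold Ext Ext0 New RR St mm uu; fun_prop) fun x ih hx y hy hO => by
      rcases (h5 x).1 hx with rfl | ⟨y1, h8, h9, rfl⟩
      · exact absurd hy not_lt_zero
      · have h10 := (h2 y1 (h6 y1 h9)).2.2.1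
        rcases lt_trichotomy y y1 with h11 | rfl | h11
        · exact ⟨(ih y1 h8 h9 y h11 hO).1.trans h8.le, h.ext_trans (ih y1 h8 h9 y h11 hO).2 h10⟩
        · exact ⟨le_rfl, h10⟩
        · exact absurd (ih y hy hO y1 h11 h9).1 (not_le.2 hy)
  refine ⟨O, nx, h3, h1, fun y hy => ⟨h6 y hy, h2 y (h6 y hy), h7 y hy⟩, fun n => ?_,
    fun x y hx hy hxy => ?_⟩
  · by_contra hn
    obtain ⟨y, h9, h10⟩ := h3.greatest (x := 0) (b := n) ((h5 0).2 (Or.inl rfl))
      fun y hy => (not_le.1 fun h => hn ⟨y, h, hy⟩).le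
    exact absurd (h10 _ (h7 y h9)) (not_le.2 (h2 y (h6 y h9)).1)
  · rcases hxy.lt_or_eq with h9 | rfl
    · exact (h8 y hy x h9 hx).2
    · exact hrefl x hx

theorem goal (hU : Univ S U) (hS : Nice S) : Goal S f Side Blk := by
  obtain ⟨O, nx, h1, h2, h3, h4, h5⟩ := h.orbit
  obtain ⟨i, hi, h6⟩ : ∃ i < pr (K : M) K, ∀ n, ∃ y, n ≤ y ∧ O y ∧ sd (nx y) = i := by
    by_contra hn
    have e : pr (K : M) K = (((K + K) * (K + K) + K : ℕ) : M) := by simp [pr]
    obtain ⟨t, ht⟩ := exists_common_bound (M := M) (k := (K + K) * (K + K) + K)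
      (P := fun i t => ∀ y, t ≤ y → O y → sd (nx y) ≠ (i : M))
      (fun i t t' h6 h7 y hy => h7 y (h6.trans hy)) fun i hi => by
        by_contra h6
        refine hn ⟨i, ?_, fun n => ?_⟩
        · rw [e]; exact_mod_cast hi
        · by_contra h7
          exact h6 ⟨n, fun y h8 h9 h10 => h7 ⟨y, h8, h9, h10⟩⟩
    obtain ⟨y, h6, h7⟩ := h4 t
    have h8 := (h3 y h7).2.1.2.2.2.1
    rw [e] at h8
    obtain ⟨j, -, h9⟩ := le_natCast h8.le
    exact ht j (by rw [h9] at h8; exact_mod_cast h8) y h6 h7 h9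
  set G : M → Prop := fun x => ∃ y, O y ∧ St y i x with hG
  have h7 : ∀ y x, O y → x < mm y → (G x ↔ St y i x) := fun y x hy hx =>
    ⟨fun ⟨y', h7, h8⟩ => by
      rcases le_total y y' with h9 | h9
      · exact (((h5 y y' hy h7 h9).2 i hi).1.2 x hx).1 h8
      · exact (((h5 y' y h7 hy h9).2 i hi).1.2 x (((h3 y' h7).1 i hi).1 x h8.lt h8).1).2 h8,
    fun h => ⟨y, hy, h⟩⟩
  have h8 : ∀ n, ∃ y, O y ∧ n ≤ y ∧ n < mm y := fun n => by
    obtain ⟨y, h8, h9, h10⟩ := h6 n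
    obtain ⟨h11, h12, -, -, -, ⟨B, -, h13, h14⟩, -⟩ := (h3 y h9).2.1
    obtain ⟨x, hx⟩ := h.dat.ne _ _ h13
    have h15 := h14 x hx
    rw [h10] at h15
    exact ⟨nx y, (h3 y h9).2.2, h8.trans h11.le,
      (h8.trans (h.dat.ge _ _ _ h13 hx)).trans_lt ((h12 i hi).1 x h15.lt h15).1⟩
  have hGW : Rec W G := Rec.delta (Sig1.exists (Rec.sig1 (by unfold St; fun_prop)))
    ((Pi1.forall (Q := fun x y => O y → x < mm y → St y i x)
      (Rec.pi1 (by unfold St mm; fun_prop))).of_iff fun x =>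
      ⟨fun h9 => by
        obtain ⟨y, h10, -, h11⟩ := h8 x
        exact ⟨y, h10, h9 y h10 h11⟩, fun h9 y h10 h11 => (h7 y x h10 h11).1 h9⟩)
  have h9 : ∀ y z, O y → z ≤ mm y → res G z = res (St y i) z := fun y z hy hz =>
    res_congr fun x hx => h7 y x hy (hx.trans_le hz)
  have h10 : ∀ y n, O y → Fc U y i n → ∃ z, U (n, z, res G z) := fun y n hy ⟨z, hz, h10⟩ =>
    ⟨z, by rwa [h9 y z hy hz]⟩
  have hU' := h.rU.mono h.subW
  have hJ : Rec W (fun n => ∃ z, U (n, z, res G z)) :=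
    Rec.delta (Sig1.exists (Rec.sig1 (by fun_prop)))
    ((Pi1.forall (Q := fun n y => O y → n < y → sd (nx y) = i → Fc U (nx y) i n)
      (Rec.pi1 (by unfold Fc St mm sd; fun_prop))).of_iff fun n =>
      ⟨fun h11 => by
        obtain ⟨y, h12, h13, h14⟩ := h6 (n + 1)
        exact h10 _ n (h3 y h13).2.2 (h11 y h13 (succ_le_iff'.1 h12) h14), by
        rintro ⟨z, hz⟩ y h11 h12 h13
        obtain ⟨t, h14, h15, h16⟩ := h8 (max z (nx y))
        have h17 := (le_max_right _ _).trans h15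
        have h18 := (h5 _ t (h3 y h11).2.2 h14 h17).2 i hi
        have h19 := (h3 y h11).2.1.2.2.2.2.2.2 t h17
        rw [h13] at h19
        have h20 := (le_max_left _ _).trans h16.le
        exact h19 h18.1 h18.2 ((h3 t h14).1 i hi).1 n h12 ⟨z, h20, by rwa [← h9 t z h14 h20]⟩⟩)
  have hE : StarExt S G := starExt_of_mem h.subW hGW
  have := hE.star
  refine ⟨ext S G, ⟨(hU.below h.subW hGW hJ).g2, hS.2.1.ext hE, countable_ext hS.2.2⟩, subset_ext,
    G, self_mem_ext hE.reg, fun n => ?_, p1 i, p2 i, ?_, fun x x' hx hx' hxx => ?_⟩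
  · obtain ⟨y, h11, h12, h13⟩ := h6 n
    obtain ⟨-, -, -, -, -, ⟨B, -, h14, h15⟩, -⟩ := (h3 y h12).2.1
    exact ⟨B, h.dat.mono _ _ _ h11 h14, fun x hx => ⟨nx y, (h3 y h12).2.2, h13 ▸ h15 x hx⟩⟩
  · obtain ⟨y, -, h12, h13⟩ := h6 0
    have h14 := (h3 y h12).2.1.2.2.2.2.1
    rwa [h13] at h14
  · obtain ⟨y, h11, -, h12⟩ := h8 x'
    have h13 := (h7 y x' h11 h12).1 hx'
    exact (((h3 y h11).1 i hi).1 x' h13.lt h13).2 x hxx ((h7 y x h11 (hxx.trans h12)).1 hx)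

end Env

theorem core [Countable M] {S : Set (M → Prop)} (hS : Nice S) {K : ℕ} {f : M × M → M}
    {Side Blk : M → M → Prop} (h : Data S K f Side Blk) : Goal S f Side Blk := by
  have := hS.1
  obtain ⟨U, hU⟩ := hS.2.1.univ
  have hK : (0 : M) < K := zero_le.trans_lt (h.fK 0 (0 + 1) (lt_succ_self' 0))
  have hf := h.rf
  have hB := h.rB
  have hSd := h.rS
  have hU' := hU.1
  obtain ⟨C, W1, h1, h2, h3, h4, h5, h6⟩ := exists_part hS hK
    (Wit := WitF (K : M) f Side Blk U) (El := ElF)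
    (by unfold WitF Ext0 Hom HasB Mx Fc St mm; fun_prop) (by unfold ElF St mm; fun_prop)
  have := h1.star
  obtain ⟨P, h7, h8, h9⟩ := exists_ultra h3 h4 h1.rec_self h5 (hB.mono subset_ext) h.mono h.ne
    (h.big W1 h2 (subset_ext.trans h4.subset))
  have := h7.star
  exact Env.goal (S1 := ext S C) (W := ext W1 P)
    ⟨h, hK, hU', subset_ext, h1.rec_self, h4.mono subset_ext, h7.rec_self, h8, h9, h6⟩ hU hS

end Pool.Agent.Lib.MP_706ff3_lc.B
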