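import Pool.Agent.Lib.MP_706ff3_lc.Defs

/-!
The sentence `RT22`.
-/

set_option autoImplicit false

namespace Pool.Agent.Lib.MP_706ff3_lc

/-- Ramsey's theorem for pairs and two colours. -/
def RT22 : Fm :=
  (AllS fun F =>
    Imp (All fun x => All fun y => Imp (Less x y) <| Col (fun u => Elt u F) (Numeral 2) x y) <|
    ExS fun H =>
      Conj (All fun u => Ex fun x => Conj (Leq u x) (Elt x H)) <|
      Ex fun c => All fun x => All fun y => Imp (Elt x H) <| Imp (Elt y H) <|
        Imp (Less x y) (Elt (Pair (Pair x y) c) F)) 0 0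

end Pool.Agent.Lib.MP_706ff3_lc
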