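import Pool.Agent.Lib.MP_706ff3_lc.B.Coding

/-!
Extensions `S[G]`, universal predicates, the family of sets that are recursive in the jump,
unions of chains, generic sequences and closure under a problem.
-/

set_option autoImplicit false
set_option linter.unusedSectionVars false

namespace Pool.Agent.Lib.MP_706ff3_lc.B

open Classical

variable {M : Type} [PA M] [IM M]

/-- Normal form of predicates that are existential over `S` and `G`. -/
def NF1 (S : Set (M → Prop)) (G : M → Prop) {α : Type} [Cd M α] (P : α → Prop) : Prop :=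
  ∃ Q : α × M × M → Prop, Rec S Q ∧ ∀ a, P a ↔ ∃ z, Q (a, z, res G z)

/-- `G` can be adjoined to `S` preserving the least number principle and collection. -/
structure StarExt (S : Set (M → Prop)) (G : M → Prop) : Prop where
  reg : Reg G
  coll : ∀ Q : M × M × M → Prop, Rec S Q → ∀ a, (∀ x < a, ∃ z, Q (x, z, res G z)) →
    ∃ b, ∀ x < a, ∃ z < b, Q (x, z, res G z)

/-- The sets recursive in `S` and `G`. -/
def ext (S : Set (M → Prop)) (G : M → Prop) : Set (M → Prop) :=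
  {Y | NF1 S G Y ∧ NF1 S G (fun x => ¬ Y x)}

variable {S W : Set (M → Prop)} {G : M → Prop} {α β : Type} [Cd M α] [Cd M β] [Star S]

theorem NF1.of_iff {P Q : α → Prop} (h : NF1 S G P) (e : ∀ a, P a ↔ Q a) : NF1 S G Q := by
  have : P = Q := funext fun a => propext (e a)
  exact this ▸ h

theorem Rec.nf1 {P : α → Prop} (h : Rec S P) : NF1 S G P :=
  ⟨fun p => P p.1, by fun_prop, by simp⟩

theorem NF1.comp {P : β → Prop} {g : α → β} (h : NF1 S G P) (hg : Rec S g) :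
    NF1 S G (fun a => P (g a)) := by
  obtain ⟨Q, hQ, e⟩ := h
  exact ⟨fun p => Q (g p.1, p.2), by fun_prop, fun a => e _⟩

theorem NF1.mono_form (hG : Reg G) {P : α → Prop} (h : NF1 S G P) :
    ∃ Q : α × M × M → Prop, Rec S Q ∧
      (∀ a z z', z ≤ z' → Q (a, z, res G z) → Q (a, z', res G z')) ∧
      ∀ a, P a ↔ ∃ z, Q (a, z, res G z) := by
  obtain ⟨Q, hQ, e⟩ := h
  have key : ∀ a z, (∃ z' ≤ z, Q (a, z', res (fun x => mem x (res G z)) z')) ↔
      ∃ z' ≤ z, Q (a, z', res G z') := by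
    intro a z
    refine exists_congr fun z' => and_congr_right fun hz => ?_
    rw [hG.res_res hz]
  refine ⟨fun p => ∃ z' ≤ p.2.1, Q (p.1, z', res (fun x => mem x p.2.2) z'), by fun_prop, ?_, ?_⟩
  · intro a z z' hz
    simp only [key]
    rintro ⟨w, hw, h⟩
    exact ⟨w, hw.trans hz, h⟩
  · intro a
    simp only [key, e]
    exact ⟨fun ⟨z, hz⟩ => ⟨z, z, le_rfl, hz⟩, fun ⟨_, z, _, hz⟩ => ⟨z, hz⟩⟩

theorem NF1.or {P Q : α → Prop} (h : NF1 S G P) (h' : NF1 S G Q) :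
    NF1 S G (fun a => P a ∨ Q a) := by
  obtain ⟨R, hR, e⟩ := h
  obtain ⟨R', hR', e'⟩ := h'
  exact ⟨fun p => R p ∨ R' p, by fun_prop, by simp [e, e', exists_or]⟩

theorem NF1.and (hG : Reg G) {P Q : α → Prop} (h : NF1 S G P) (h' : NF1 S G Q) :
    NF1 S G (fun a => P a ∧ Q a) := by
  obtain ⟨R, hR, m, e⟩ := h.mono_form hG
  obtain ⟨R', hR', m', e'⟩ := h'.mono_form hG
  refine ⟨fun p => R p ∧ R' p, by fun_prop, fun a => ?_⟩
  dsimp only
  rw [e, e']
  constructor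
  · rintro ⟨⟨z, hz⟩, ⟨z', hz'⟩⟩
    exact ⟨max z z', m _ _ _ (le_max_left _ _) hz, m' _ _ _ (le_max_right _ _) hz'⟩
  · rintro ⟨z, h1, h2⟩; exact ⟨⟨z, h1⟩, ⟨z, h2⟩⟩

theorem NF1.exists (hG : Reg G) {Q : α → M → Prop}
    (h : NF1 S G (fun p : α × M => Q p.1 p.2)) : NF1 S G (fun a => ∃ x, Q a x) := by
  obtain ⟨R, hR, m, e⟩ := h.mono_form hG
  refine ⟨fun p => ∃ x ≤ p.2.1, R ((p.1, x), p.2), by fun_prop, fun a => ?_⟩
  constructor
  · rintro ⟨x, hx⟩
    obtain ⟨z, hz⟩ := (e (a, x)).1 hx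
    exact ⟨max x z, x, le_max_left _ _, m _ _ _ (le_max_right _ _) hz⟩
  · rintro ⟨z, x, -, h⟩
    exact ⟨x, (e (a, x)).2 ⟨z, h⟩⟩

theorem NF1.ball (hG : StarExt S G) {t : α → M} {Q : α → M → Prop} (ht : Rec S t)
    (h : NF1 S G (fun p : α × M => Q p.1 p.2)) : NF1 S G (fun a => ∀ x < t a, Q a x) := by
  obtain ⟨R, hR, m, e⟩ := h.mono_form hG.reg
  refine ⟨fun p => ∀ x < t p.1, R ((p.1, x), p.2), by fun_prop, fun a => ?_⟩
  constructor
  · intro h
    obtain ⟨b, hb⟩ := hG.coll (fun p => R ((a, p.1), p.2)) (by fun_prop) (t a)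
      fun x hx => (e (a, x)).1 (h x hx)
    refine ⟨b, fun x hx => ?_⟩
    obtain ⟨z, hz, h1⟩ := hb x hx
    exact m _ _ _ hz.le h1
  · rintro ⟨z, h⟩ x hx
    exact (e (a, x)).2 ⟨z, h x hx⟩

theorem subset_ext : S ⊆ ext S G := fun _ h =>
  ⟨(rec_iff_mem.2 h).nf1, (rec_iff_mem.2 h).not.nf1⟩

theorem self_mem_ext (hG : Reg G) : G ∈ ext S G := by
  refine ⟨⟨fun p => p.1 < p.2.1 ∧ mem p.1 p.2.2, by fun_prop, fun x => ?_⟩,
    ⟨fun p => p.1 < p.2.1 ∧ ¬ mem p.1 p.2.2, by fun_prop, fun x => ?_⟩⟩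
  · simp only [hG.mem_res]
    exact ⟨fun h => ⟨x + 1, lt_succ_self' x, lt_succ_self' x, h⟩, fun ⟨_, h⟩ => h.2.2⟩
  · simp only [hG.mem_res]
    exact ⟨fun h => ⟨x + 1, lt_succ_self' x, fun h' => h h'.2⟩, fun ⟨_, h⟩ h' => h.2 ⟨h.1, h'⟩⟩

theorem StarExt.star (hG : StarExt S G) : Star (ext S G) where
  basic := fun hf _ hQ => ⟨hQ.1.comp (rec_basic hf), hQ.2.comp (rec_basic hf)⟩
  lt := subset_ext Pre.lt
  nand := fun hP hQ => ⟨(hP.2.or hQ.2).of_iff (by intro a; tauto),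
    (hP.1.and hG.reg hQ.1).of_iff (by intro a; tauto)⟩
  ball := by
    intro Q hQ
    refine ⟨NF1.ball hG (by fun_prop) (hQ.1.comp (by fun_prop)), ?_⟩
    have : NF1 S G (fun u : M => ∃ x, x < p2 u ∧ ¬ Q (pr (p1 u) x)) :=
      NF1.exists hG.reg (NF1.and hG.reg (Rec.nf1 (by fun_prop))
        (hQ.2.comp (g := fun p : M × M => pr (p1 p.1) p.2) (by fun_prop)))
    exact this.of_iff (by simp)
  delta := by
    intro P Q hP hQ h
    refine ⟨NF1.exists hG.reg (hP.1.comp (by fun_prop)), ?_⟩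
    have : NF1 S G (fun x : M => ∃ y, ¬ Q (pr x y)) :=
      NF1.exists hG.reg (hQ.2.comp (g := fun p : M × M => pr p.1 p.2) (by fun_prop))
    exact this.of_iff (by intro x; dsimp only; rw [h]; simp)
  least := by
    intro Q hQ x hx
    obtain ⟨R, hR, m, e⟩ := hQ.1.mono_form hG.reg
    obtain ⟨R', hR', e'⟩ := hQ.2
    obtain ⟨b, hb⟩ := hG.coll (fun p => R p ∨ R' p) (by fun_prop) (x + 1) (by
      intro y _
      by_cases hy : Q y
      · exact ((e y).1 hy).imp fun _ => Or.inl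
      · exact ((e' y).1 hy).imp fun _ => Or.inr)
    have key : ∀ y ≤ x, (Q y ↔ R (y, b, res G b)) := by
      intro y hy
      refine ⟨fun h => ?_, fun h => (e y).2 ⟨b, h⟩⟩
      obtain ⟨z, hz, h1 | h1⟩ := hb y (lt_succ_iff'.2 hy)
      · exact m _ _ _ hz.le h1
      · exact absurd h ((e' y).2 ⟨z, h1⟩)
    obtain ⟨x0, h1, h2⟩ := Rec.least (S := S) (P := fun y => y ≤ x ∧ R (y, b, res G b))
      (by fun_prop) ⟨le_rfl, (key x le_rfl).1 hx⟩
    exact ⟨x0, (key x0 h1.1).2 h1.2, fun y hy h3 =>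
      h2 y hy ⟨hy.le.trans h1.1, (key y (hy.le.trans h1.1)).1 h3⟩⟩
  coll := by
    intro Q hQ a tot
    obtain ⟨R, hR, m, e⟩ := hQ.1.mono_form hG.reg
    obtain ⟨b, hb⟩ := hG.coll (fun p => ∃ y ≤ p.2.1, R (pr p.1 y, p.2)) (by fun_prop) a (by
      intro x hx
      obtain ⟨y, hy⟩ := tot x hx
      obtain ⟨z, hz⟩ := (e _).1 hy
      exact ⟨max y z, y, le_max_left _ _, m _ _ _ (le_max_right _ _) hz⟩)
    refine ⟨b, fun x hx => ?_⟩
    obtain ⟨z, hz, y, hy, h1⟩ := hb x hx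
    exact ⟨y, hy.trans_lt hz, (e _).2 ⟨z, h1⟩⟩

theorem starExt_of_mem [Star W] (hS : S ⊆ W) (hG : Rec W G) : StarExt S G where
  reg := hG.reg
  coll := fun Q hQ a tot => by
    have hQ' := hQ.mono hS
    exact Rec.coll (S := W) (R := fun x z => Q (x, z, res G z)) (by fun_prop) tot

theorem NF1.sig1 [Star W] (hS : S ⊆ W) (hG : Rec W G) {P : α → Prop} (h : NF1 S G P) :
    Sig1 W P := by
  obtain ⟨Q, hQ, e⟩ := h
  have hQ' := hQ.mono hS
  exact ⟨fun p => Q (p.1, p.2, res G p.2), by fun_prop, e⟩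

theorem ext_subset [Star W] (hS : S ⊆ W) (hG : Rec W G) : ext S G ⊆ W := fun _ h =>
  rec_iff_mem.1 (Rec.delta (h.1.sig1 hS hG) ((Pi1.not (h.2.sig1 hS hG)).of_iff (by simp)))

theorem StarExt.rec_self (hG : StarExt S G) : Rec (ext S G) G :=
  haveI := hG.star
  rec_iff_mem.2 (self_mem_ext hG.reg)

theorem Sig1.nf1 (hG : StarExt S G) {P : α → Prop} (h : Sig1 (ext S G) P) : NF1 S G P := by
  have := hG.star
  obtain ⟨Q, hQ, e⟩ := h
  have h1 := (rec_iff.1 hQ).1.comp (g := fun p : α × M => (Cd.enc p : M)) rec_enc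
  exact (NF1.exists hG.reg (Q := fun a y => Q (a, y)) (h1.of_iff (by simp))).of_iff
    fun a => (e a).symm

/-- The family has a universal existential predicate. -/
def Top (S : Set (M → Prop)) : Prop :=
  ∃ V : M × M × M → Prop, Rec S V ∧
    ∀ P : M → Prop, Sig1 S P → ∃ e, ∀ x, P x ↔ ∃ s, V (e, x, s)

/-- `U` is universal for predicates that are existential over `S` and an oracle. -/
def Univ (S : Set (M → Prop)) (U : M × M × M → Prop) : Prop :=
  Rec S U ∧ ∀ Q : M × M × M → Prop, Rec S Q → ∃ e, ∀ G, Reg G → ∀ a,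
    (∃ z, Q (a, z, res G z)) ↔ ∃ z, U (pr e a, z, res G z)

theorem Top.univ (h : Top S) : ∃ U, Univ S U := by
  obtain ⟨V, hV, h⟩ := h
  refine ⟨fun p => ∃ z ≤ p.2.1, ∃ s ≤ p.2.1,
    V (p1 p.1, pr (p2 p.1) (pr z (res (fun x => mem x p.2.2) z)), s), by fun_prop, fun Q hQ => ?_⟩
  obtain ⟨e, he⟩ := h (fun u => Q (p1 u, p1 (p2 u), p2 (p2 u))) (Rec.sig1 (by fun_prop))
  refine ⟨e, fun G hG a => ⟨?_, ?_⟩⟩
  · rintro ⟨z, hz⟩
    obtain ⟨s, hs⟩ := (he (pr a (pr z (res G z)))).1 (by simpa using hz)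
    refine ⟨max z s, z, le_max_left _ _, s, le_max_right _ _, ?_⟩
    simp only [p1_pr, p2_pr]
    rwa [hG.res_res (le_max_left _ _)]
  · rintro ⟨z, z', hz, s, -, h1⟩
    simp only [p1_pr, p2_pr] at h1 hz
    rw [hG.res_res hz] at h1
    exact ⟨z', by simpa using (he _).2 ⟨s, h1⟩⟩

theorem Univ.nf1 {U : M × M × M → Prop} (hU : Univ S U) (hG : Reg G) {P : M → Prop}
    (h : NF1 S G P) : ∃ e, ∀ a, P a ↔ ∃ z, U (pr e a, z, res G z) := by
  obtain ⟨Q, hQ, e⟩ := h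
  obtain ⟨n, hn⟩ := hU.2 Q hQ
  exact ⟨n, fun a => (e a).trans (hn G hG a)⟩

theorem Top.ext (h : Top S) (hG : StarExt S G) : Top (ext S G) := by
  obtain ⟨U, hU⟩ := h.univ
  have := hG.star
  have h1 := hU.1.mono (subset_ext (G := G))
  have h2 := hG.rec_self
  exact ⟨fun p => U (pr p.1 p.2.1, p.2.2, res G p.2.2), by fun_prop,
    fun P hP => hU.nf1 hG.reg (hP.nf1 hG)⟩

/-- The existential predicates over `S` are recursive in `W`. -/
def Below (S W : Set (M → Prop)) : Prop := ∀ P : M → Prop, Sig1 S P → Rec W P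

theorem Below.sig1 [Star W] (h : Below S W) {P : α → Prop} (hP : Sig1 S P) : Rec W P :=
  ((h _ (hP.comp (g := fun u : M => (Cd.dec u : α)) rec_dec)).comp
    (g := fun a : α => (Cd.enc a : M)) rec_enc).of_iff (by simp)

theorem Below.pi1 [Star W] (h : Below S W) {P : α → Prop} (hP : Pi1 S P) : Rec W P :=
  (h.sig1 (Sig1.not hP)).not.of_iff (by simp)

theorem Below.subset [Star W] (h : Below S W) : S ⊆ W := fun _ hX =>
  rec_iff_mem.1 (h _ (rec_iff_mem.2 hX).sig1)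

theorem Below.mono {W' : Set (M → Prop)} (h : Below S W) (hW : W ⊆ W') : Below S W' :=
  fun P hP => (h P hP).mono hW

theorem Below.g2 [Star W] (h : Below S W) : G2 S where
  ind := fun {Q} hQ => by
    have hQ' := rec_iff_mem.2 hQ
    exact Rec.ind (S := W) (P := fun x => ∃ y, Q (pr x y))
      (h _ (Sig1.exists (Rec.sig1 (by fun_prop))))
  coll2 := fun {Q} hQ a => by
    have hQ' := rec_iff_mem.2 hQ
    exact Rec.coll (S := W) (R := fun x y => ∀ z, Q (pr x (pr y z)))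
      (h.pi1 (Pi1.forall (Rec.pi1 (by fun_prop))))

theorem Univ.below [Star W] {U : M × M × M → Prop} (hU : Univ S U) (hS : S ⊆ W) (hG : Rec W G)
    (hJ : Rec W (fun n => ∃ z, U (n, z, res G z))) : Below (ext S G) W := by
  intro P hP
  obtain ⟨e, he⟩ := hU.nf1 hG.reg (hP.nf1 (starExt_of_mem hS hG))
  exact (hJ.comp (g := fun a => pr e a) (by fun_prop)).of_iff fun a => (he a).symm

theorem countable_ext (hS : S.Countable) : (ext S G).Countable := by
  refine (hS.image (fun Q0 : M → Prop =>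
    fun x : M => ∃ z, Q0 (Cd.enc (x, z, res G z)))).mono ?_
  rintro Y ⟨⟨Q, hQ, e⟩, -⟩
  exact ⟨_, rec_iff.1 hQ, funext fun x => propext (by simp [e])⟩

theorem countable_rec (hS : S.Countable) : {Q : α → Prop | Rec S Q}.Countable := by
  refine (hS.image (fun Q0 : M → Prop => fun a : α => Q0 (Cd.enc a))).mono ?_
  intro Q hQ
  exact ⟨_, rec_iff.1 hQ, funext fun x => propext (by simp)⟩

/-- The sets that are recursive in the jump. -/
def dl2 (S : Set (M → Prop)) : Set (M → Prop) := {P | Sig2 S P ∧ Sig2 S (fun x => ¬ P x)}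

theorem star_dl2 (T : Set (M → Prop)) [G2 T] : Star (dl2 T) where
  basic := fun hf _ hQ => ⟨hQ.1.comp (rec_basic hf), hQ.2.comp (rec_basic hf)⟩
  lt := ⟨Rec.sig2 (by fun_prop), Rec.sig2 (by fun_prop)⟩
  nand := fun hP hQ => ⟨(hP.2.or hQ.2).of_iff (by intro a; tauto),
    (hP.1.and hQ.1).of_iff (by intro a; tauto)⟩
  ball := by
    intro Q hQ
    refine ⟨Sig2.ball (by fun_prop) (hQ.1.comp (by fun_prop)), ?_⟩
    have : Sig2 T (fun u : M => ∃ x, x < p2 u ∧ ¬ Q (pr (p1 u) x)) :=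
      Sig2.exists (Sig2.and (Rec.sig2 (by fun_prop))
        (hQ.2.comp (g := fun p : M × M => pr (p1 p.1) p.2) (by fun_prop)))
    exact this.of_iff (by simp)
  delta := by
    intro P Q hP hQ h
    refine ⟨Sig2.exists (hP.1.comp (by fun_prop)), ?_⟩
    have : Sig2 T (fun x : M => ∃ y, ¬ Q (pr x y)) :=
      Sig2.exists (hQ.2.comp (g := fun p : M × M => pr p.1 p.2) (by fun_prop))
    exact this.of_iff (by intro x; dsimp only; rw [h]; simp)
  least := by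
    rintro Q ⟨⟨A, hA, e⟩, ⟨B, hB, e'⟩⟩ x hx
    obtain ⟨b, hb⟩ := Pi1.coll (S := T) (R := fun y z => A (y, z) ∨ B (y, z)) (a := x + 1)
      (hA.or hB) (by
        intro y _
        by_cases hy : Q y
        · exact ((e y).1 hy).imp fun _ => Or.inl
        · exact ((e' y).1 hy).imp fun _ => Or.inr)
    obtain ⟨c, hc⟩ := Pi1.reg (S := T) (P := fun y => ∃ z < b, A (y, z))
      (Pi1.bex (by fun_prop) hA) (x + 1)
    have key : ∀ y, mem y c ↔ y < x + 1 ∧ Q y := by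
      intro y
      rw [hc]
      refine and_congr_right fun hy => ⟨fun ⟨z, _, h⟩ => (e y).2 ⟨z, h⟩, fun h => ?_⟩
      obtain ⟨z, hz, h1 | h1⟩ := hb y hy
      · exact ⟨z, hz, h1⟩
      · exact absurd h ((e' y).2 ⟨z, h1⟩)
    obtain ⟨x0, h1, h2⟩ := Rec.least (S := T) (P := fun y => mem y c) (by fun_prop)
      ((key x).2 ⟨lt_succ_self' x, hx⟩)
    exact ⟨x0, ((key x0).1 h1).2, fun y hy h3 =>
      h2 y hy ((key y).2 ⟨hy.trans ((key x0).1 h1).1, h3⟩)⟩
  coll := fun {Q} hQ a => Sig2.coll (S := T) (R := fun x y => Q (pr x y))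
    (hQ.1.comp (by fun_prop))

theorem below_dl2 (T : Set (M → Prop)) [G2 T] : Below T (dl2 T) := fun _ hP =>
  haveI := star_dl2 T
  rec_iff_mem.2 ⟨hP.sig2, Sig2.not hP⟩

theorem countable_dl2 (hS : S.Countable) : (dl2 S).Countable := by
  refine (hS.image (fun Q0 : M → Prop =>
    fun x : M => ∃ y : M, ∀ z : M, Q0 (Cd.enc ((x, y), z)))).mono ?_
  rintro Y ⟨⟨A, ⟨Q, hQ, e'⟩, e⟩, -⟩
  exact ⟨_, rec_iff.1 hQ, funext fun x => propext (by simp [e, e'])⟩

omit [IM M] in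
theorem g2_of_subset {T T' : Set (M → Prop)} [Pre T] [h : G2 T'] (hT : T ⊆ T') : G2 T where
  ind := fun hQ => h.ind (hT hQ)
  coll2 := fun hQ => h.coll2 (hT hQ)

omit [IM M] in
theorem g2_iUnion (T : ℕ → Set (M → Prop)) (hT : Monotone T) (h : ∀ n, G2 (T n)) :
    G2 (⋃ n, T n) where
  basic := by
    intro f hf Q hQ
    obtain ⟨n, hn⟩ := Set.mem_iUnion.1 hQ
    exact Set.mem_iUnion.2 ⟨n, (h n).basic hf hn⟩
  lt := Set.mem_iUnion.2 ⟨0, (h 0).lt⟩
  nand := by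
    intro P Q hP hQ
    obtain ⟨n, hn⟩ := Set.mem_iUnion.1 hP
    obtain ⟨m, hm⟩ := Set.mem_iUnion.1 hQ
    exact Set.mem_iUnion.2 ⟨max n m, (h _).nand (hT (le_max_left _ _) hn) (hT (le_max_right _ _) hm)⟩
  ball := by
    intro Q hQ
    obtain ⟨n, hn⟩ := Set.mem_iUnion.1 hQ
    exact Set.mem_iUnion.2 ⟨n, (h n).ball hn⟩
  delta := by
    intro P Q hP hQ e
    obtain ⟨n, hn⟩ := Set.mem_iUnion.1 hP
    obtain ⟨m, hm⟩ := Set.mem_iUnion.1 hQ
    exact Set.mem_iUnion.2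
      ⟨max n m, (h _).delta (hT (le_max_left _ _) hn) (hT (le_max_right _ _) hm) e⟩
  ind := by
    intro Q hQ
    obtain ⟨n, hn⟩ := Set.mem_iUnion.1 hQ
    exact (h n).ind hn
  coll2 := by
    intro Q hQ
    obtain ⟨n, hn⟩ := Set.mem_iUnion.1 hQ
    exact (h n).coll2 hn

/-- Generic descending sequences meeting countably many dense sets. -/
theorem exists_generic {P ι : Type} [Countable ι] (le : P → P → Prop) (hr : ∀ p, le p p)
    (ht : ∀ p q r, le p q → le q r → le p r) (D : ι → P → Prop)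
    (hD : ∀ i p, ∃ q, le q p ∧ D i q) (p0 : P) :
    ∃ s : ℕ → P, s 0 = p0 ∧ (∀ n m, n ≤ m → le (s m) (s n)) ∧ ∀ i, ∃ n, D i (s n) := by
  rcases isEmpty_or_nonempty ι with hι | hι
  · exact ⟨fun _ => p0, rfl, fun _ _ _ => hr _, fun i => hι.elim i⟩
  obtain ⟨e, he⟩ := exists_surjective_nat ι
  choose f hf using hD
  let s : ℕ → P := fun n => Nat.rec p0 (fun n p => f (e n) p) n
  refine ⟨s, rfl, ?_, fun i => ?_⟩
  · intro n m h
    induction h with
    | refl => exact hr _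
    | step _ ih => exact ht _ _ _ (hf _ _).1 ih
  · obtain ⟨n, rfl⟩ := he i
    exact ⟨n + 1, (hf _ _).2⟩

/-- Countable models with a universal predicate. -/
def Nice (T : Set (M → Prop)) : Prop := G2 T ∧ Top T ∧ T.Countable

theorem exists_closed (Req : (M → Prop) → (M → Prop) → Set (M → Prop) → Prop)
    (hmono : ∀ X Y T T', T ⊆ T' → Req X Y T → Req X Y T')
    (step : ∀ T : Set (M → Prop), Nice T → ∀ X ∈ T, ∀ Y ∈ T, ∃ T', Nice T' ∧ T ⊆ T' ∧ Req X Y T')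
    (T : Set (M → Prop)) (hT : Nice T) :
    ∃ T', G2 T' ∧ T ⊆ T' ∧ ∀ X ∈ T', ∀ Y ∈ T', Req X Y T' := by
  have h1 : ∀ U : {T : Set (M → Prop) // Nice T}, ∃ en : ℕ → (M → Prop) × (M → Prop),
      ∀ X ∈ U.1, ∀ Y ∈ U.1, ∃ n, en n = (X, Y) := by
    intro U
    have := U.2.1
    obtain ⟨en, hen⟩ := (U.2.2.2.prod U.2.2.2).exists_eq_range ⟨(_, _), Pre.lt, Pre.lt⟩
    exact ⟨en, fun X hX Y hY => (hen ▸ (⟨hX, hY⟩ : (X, Y) ∈ U.1 ×ˢ U.1) : (X, Y) ∈ Set.range en)⟩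
  choose en hen using h1
  have h2 : ∀ (U : {T : Set (M → Prop) // Nice T}) (p : (M → Prop) × (M → Prop)),
      ∃ U' : {T : Set (M → Prop) // Nice T}, U.1 ⊆ U'.1 ∧
        (p.1 ∈ U.1 → p.2 ∈ U.1 → Req p.1 p.2 U'.1) := by
    intro U p
    by_cases h : p.1 ∈ U.1 ∧ p.2 ∈ U.1
    · obtain ⟨T', h3, h4, h5⟩ := step U.1 U.2 _ h.1 _ h.2
      exact ⟨⟨T', h3⟩, h4, fun _ _ => h5⟩
    · exact ⟨U, le_rfl, fun h3 h4 => absurd ⟨h3, h4⟩ h⟩
  choose nx hnx using h2
  let hist : ℕ → ℕ → {T : Set (M → Prop) // Nice T} := fun n => Nat.rec (fun _ => ⟨T, hT⟩)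
    (fun n h i => if i ≤ n then h i else nx (h n) (en (h n.unpair.1) n.unpair.2)) n
  let s : ℕ → {T : Set (M → Prop) // Nice T} := fun n => hist n n
  have h3 : ∀ n i, i ≤ n → hist n i = s i := by
    intro n
    induction n with
    | zero => intro i hi; rw [Nat.le_zero.1 hi]
    | succ n ih =>
      intro i hi
      rcases hi.lt_or_eq with h | rfl
      · have h' := Nat.lt_succ_iff.1 h
        exact (if_pos h').trans (ih i h')
      · rfl
  have hs : ∀ n, s (n + 1) = nx (s n) (en (s n.unpair.1) n.unpair.2) := by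
    intro n
    rw [← h3 n n.unpair.1 (Nat.unpair_left_le n)]
    exact if_neg (Nat.not_succ_le_self n)
  have hm : Monotone fun n => (s n).1 := monotone_nat_of_le_succ fun n => by
    rw [hs]; exact (hnx _ _).1
  refine ⟨⋃ n, (s n).1, g2_iUnion _ hm (fun n => (s n).2.1),
    Set.subset_iUnion (fun n => (s n).1) 0, ?_⟩
  intro X hX Y hY
  obtain ⟨n, hn⟩ := Set.mem_iUnion.1 hX
  obtain ⟨m, hm'⟩ := Set.mem_iUnion.1 hY
  have hX' := hm (le_max_left n m) hn
  have hY' := hm (le_max_right n m) hm'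
  obtain ⟨j, hj⟩ := hen (s (max n m)) X hX' Y hY'
  have h4 := (hnx (s (Nat.pair (max n m) j)) (X, Y)).2 (hm (Nat.left_le_pair _ _) hX')
    (hm (Nat.left_le_pair _ _) hY')
  refine hmono _ _ _ _ (Set.subset_iUnion (fun n => (s n).1) (Nat.pair (max n m) j + 1)) ?_
  rw [hs, Nat.unpair_pair, hj]
  exact h4

end Pool.Agent.Lib.MP_706ff3_lc.B
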