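import Pool.Agent.Lib.MP_706ff3_lc.B.Stmt

/-!
Ramsey's theorem for pairs implies collection for universal formulas.
-/

set_option autoImplicit false
set_option linter.unusedSectionVars false

namespace Pool.Agent.Lib.MP_706ff3_lc.B

open Classical

variable {M : Type} [PA M] [IM M]

/-- An unbounded member of the family is enumerated by a strictly increasing function. -/
theorem hirst_enum (S : Set (M → Prop)) [G1 S] {H : M → Prop} (hH : Rec S H)
    (hu : ∀ u, ∃ x, u ≤ x ∧ H x) :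
    ∃ it : M → M, Rec S it ∧ (∀ n, H (it n)) ∧ ∀ i j, i < j → it i < it j := by
  obtain ⟨nx, hnx, hn⟩ := Rec.skolem (S := S) (P := fun (u : M) (x : M) => u + 1 ≤ x ∧ H x)
    (by fun_prop) (fun u => hu (u + 1))
  obtain ⟨it, hit, h0, hs⟩ := Rec.iter (S := S) hnx (nx 0)
  refine ⟨it, hit, fun n => ?_, fun i => ?_⟩
  · rcases zero_or_succ n with rfl | ⟨k, rfl⟩
    · rw [h0]; exact (hn 0).2
    · rw [hs]; exact (hn _).2
  · have hstep : ∀ n, it n < it (n + 1) := fun n => by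
      rw [hs]; exact succ_le_iff'.1 (hn _).1
    refine Rec.ind (S := S) (P := fun j => i < j → it i < it j) (by fun_prop) ?_ ?_
    · intro h; exact absurd h (not_lt.2 zero_le)
    · intro j ih hj
      rcases lt_succ_iff_lt_or_eq.1 hj with h1 | rfl
      · exact (ih h1).trans (hstep j)
      · exact hstep _

/-- The infinite pigeonhole principle for boundedly many colours. -/
theorem hirst_pigeon (S : Set (M → Prop)) [G1 S] (h : RTc S) {c : M → M} (hc : Rec S c) {a : M}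
    (ha : ∀ s, c s < a) : ∃ x0, ∀ u, ∃ s, u ≤ s ∧ c s = x0 := by
  have h12 : (1 : M) < ((2 : ℕ) : M) := by
    have : ((2 : ℕ) : M) = 1 + 1 := by push_cast; ring
    rw [this]; exact lt_succ_self' 1
  have hF : Rec S (fun u : M => (c (p1 (p1 u)) = c (p2 (p1 u)) ∧ p2 u = 1) ∨
      (c (p1 (p1 u)) ≠ c (p2 (p1 u)) ∧ p2 u = ((2 : ℕ) : M))) := by fun_prop
  obtain ⟨H, hH, hu, k, hk⟩ := h _ (rec_iff_mem.1 hF) (by
    intro x y _
    simp only [p1_pr, p2_pr]
    by_cases e : c x = c y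
    · refine ⟨1, le_rfl, h12.le, Or.inl ⟨e, rfl⟩, ?_⟩
      rintro j' (⟨-, h1⟩ | ⟨h1, -⟩)
      · exact h1
      · exact absurd e h1
    · refine ⟨((2 : ℕ) : M), h12.le, le_rfl, Or.inr ⟨e, rfl⟩, ?_⟩
      rintro j' (⟨h1, -⟩ | ⟨-, h1⟩)
      · exact absurd h1 e
      · exact h1)
  simp only [p1_pr, p2_pr] at hk
  have hH' : Rec S H := rec_iff_mem.2 hH
  by_cases hk1 : k = 1
  · obtain ⟨x, -, hx⟩ := hu 0
    refine ⟨c x, fun u => ?_⟩
    obtain ⟨s, hs, hs'⟩ := hu (max u (x + 1))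
    have hxs : x < s := succ_le_iff'.1 ((le_max_right _ _).trans hs)
    refine ⟨s, (le_max_left _ _).trans hs, ?_⟩
    rcases hk x s hx hs' hxs with ⟨h1, -⟩ | ⟨-, h1⟩
    · exact h1.symm
    · exact absurd (hk1.symm.trans h1) h12.ne
  · exfalso
    obtain ⟨it, hit, hin, hmono⟩ := hirst_enum S hH' hu
    have hne : ∀ i j, i < j → c (it i) ≠ c (it j) := fun i j hij => by
      rcases hk _ _ (hin i) (hin j) (hmono i j hij) with ⟨-, h1⟩ | ⟨h1, -⟩
      · exact absurd h1 hk1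
      · exact h1
    have := Rec.php (S := S) (R := fun i y => c (it i) = y) (by fun_prop) (q := a + 1) (r := a)
      (fun i _ => ⟨_, ha _, rfl⟩) (by
        intro i _ j _ y _ h1 h2
        rcases lt_trichotomy i j with h3 | h3 | h3
        · exact absurd (h1.trans h2.symm) (hne i j h3)
        · exact h3
        · exact absurd (h2.trans h1.symm) (hne j i h3))
    exact absurd this (not_le.2 (lt_succ_self' a))

/-- A function attains its maximum on a nonempty initial segment. -/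
theorem hirst_argmax (S : Set (M → Prop)) [G1 S] {f : M → M} (hf : Rec S f) {a x1 : M}
    (ha : x1 < a) : ∃ x, x < a ∧ ∀ x', x' < a → f x' ≤ f x := by
  obtain ⟨b, hb⟩ := Rec.bdd (S := S) hf a
  obtain ⟨v, ⟨x, hx, e⟩, hv⟩ := Rec.greatest (S := S) (P := fun v => ∃ x, x < a ∧ f x = v)
    (by fun_prop) (x := f x1) (b := b) ⟨x1, ha, rfl⟩ (by
      rintro y ⟨x, hx, rfl⟩; exact (hb x hx).le)
  exact ⟨x, hx, fun x' hx' => e ▸ hv _ ⟨x', hx', rfl⟩⟩

theorem hirst_coll (S : Set (M → Prop)) [G1 S] (h : RTc S) {Q : M → Prop} (hQ : Rec S Q) (a : M)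
    (tot : ∀ x < a, ∃ y, ∀ z, Q (pr x (pr y z))) :
    ∃ b, ∀ x < a, ∃ y < b, ∀ z, Q (pr x (pr y z)) := by
  rcases zero_or_succ a with rfl | ⟨a', rfl⟩
  · exact ⟨0, fun x hx => absurd hx (not_lt.2 zero_le)⟩
  set a := a' + 1 with ha
  have hP : Rec S (fun p : (M × M) × M =>
      p.1.2 < p.2 ∨ ∀ z, z < p.1.2 → Q (pr p.1.1 (pr p.2 z))) := by fun_prop
  have hex : ∀ p : M × M, ∃ y, p.2 < y ∨ ∀ z, z < p.2 → Q (pr p.1 (pr y z)) :=
    fun p => ⟨p.2 + 1, Or.inl (lt_succ_self' _)⟩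
  have hg := Rec.mu (S := S)
    (P := fun (p : M × M) (y : M) => p.2 < y ∨ ∀ z, z < p.2 → Q (pr p.1 (pr y z))) hP hex
  have hspec : ∀ p : M × M, _ := fun p => Rec.mu_spec (S := S)
    (P := fun y : M => p.2 < y ∨ ∀ z, z < p.2 → Q (pr p.1 (pr y z))) (by fun_prop) (hex p)
  obtain ⟨g, hg, hg1, hg2⟩ : ∃ g : M × M → M, Rec S g ∧
      (∀ x s, s < g (x, s) ∨ ∀ z, z < s → Q (pr x (pr (g (x, s)) z))) ∧
      ∀ x s y, (∀ z, z < s → Q (pr x (pr y z))) → g (x, s) ≤ y :=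
    ⟨_, hg, fun x s => (hspec (x, s)).1, fun x s y hy =>
      not_lt.1 fun h1 => (hspec (x, s)).2 y h1 (Or.inr hy)⟩
  obtain ⟨c, hc, hc'⟩ := Rec.skolem (S := S)
    (P := fun (s : M) (x : M) => x < a ∧ ∀ x', x' < a → g (x', s) ≤ g (x, s)) (by fun_prop)
    (fun s => hirst_argmax S (f := fun x => g (x, s)) (by fun_prop) (lt_succ_self' a'))
  obtain ⟨x0, hx0⟩ := hirst_pigeon S h hc (fun s => (hc' s).1)
  have hx0a : x0 < a := by
    obtain ⟨s, -, hs⟩ := hx0 0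
    exact hs ▸ (hc' s).1
  obtain ⟨y0, hy0⟩ := tot x0 hx0a
  refine ⟨y0 + 1, fun x hx => ?_⟩
  by_contra hcon
  have hfail : ∀ y < y0 + 1, ∃ z, ¬ Q (pr x (pr y z)) := fun y hy => by
    by_contra h1
    exact hcon ⟨y, hy, fun z => not_not.1 fun h2 => h1 ⟨z, h2⟩⟩
  obtain ⟨b, hb⟩ := Rec.coll (S := S) (R := fun y z => ¬ Q (pr x (pr y z))) (by fun_prop) hfail
  obtain ⟨s, hs, hcs⟩ := hx0 (max b y0)
  have h1 : g (x, s) ≤ y0 := by
    have h2 := (hc' s).2 x hx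
    rw [hcs] at h2
    exact h2.trans (hg2 x0 s y0 fun z _ => hy0 z)
  obtain ⟨z, hz, hz'⟩ := hb _ (lt_succ_iff'.2 h1)
  rcases hg1 x s with h3 | h3
  · exact absurd (h1.trans ((le_max_right _ _).trans hs)) (not_le.2 h3)
  · exact hz' (h3 z (hz.trans_le ((le_max_left _ _).trans hs)))

theorem g2_of_rt (S : Set (M → Prop)) [G1 S] (h : RTc S) : G2 S :=
  { ‹G1 S› with coll2 := fun hQ a tot => hirst_coll S h (rec_iff_mem.2 hQ) a tot }

end Pool.Agent.Lib.MP_706ff3_lc.B
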