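import Pool.Agent.Lib.MP_706ff3_lc.B.Core

/-!
The two instances of the step theorem and the closure.
-/

set_option autoImplicit false
set_option linter.unusedSectionVars false

namespace Pool.Agent.Lib.MP_706ff3_lc.B

open Classical

variable {M : Type} [PA M] [IM M]

/-- Homogeneous blocks above `n`. -/
def PBlk (φ : M → M) (f : M × M → M) (k n E s : M) : Prop :=
  n ≤ p1 s ∧ (∃ x, mem x E ∧ True) ∧ (∀ x, mem x E → n ≤ x ∧ 1 ≤ x ∧ x ≤ p1 s) ∧
    CardW E (φ (p1 s)) (p2 s) ∧ ∃ j ≤ k, ∀ x, mem x E → ∀ y, mem y E → x < y → f (x, y) = j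

theorem PBlk.mono {φ : M → M} {f : M × M → M} {k n n' E s : M} (h : PBlk φ f k n E s)
    (hn : n' ≤ n) : PBlk φ f k n' E s :=
  ⟨hn.trans h.1, h.2.1, fun x hx => ⟨hn.trans (h.2.2.1 x hx).1, (h.2.2.1 x hx).2⟩, h.2.2.2⟩

theorem CardEq.sub {X q m : M} (h : CardEq X q) (hm : m ≤ q) :
    ∃ E, (∀ x, mem x E → mem x X) ∧ CardEq E m := by
  obtain ⟨S, hS⟩ := IM.ex (M := M)
  obtain ⟨b, h1, -, h3⟩ := h
  obtain ⟨E, hE⟩ := Rec.coded_of_bdd (S := S) (Y := fun x => mem x X ∧ ∃ i < m, mem (pr i x) b)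
    (by fun_prop) (t := X) fun x hx => mem_lt hx.1
  refine ⟨E, fun x hx => ((hE x).1 hx).1, b, fun i hi => ?_, fun x hx => ((hE x).1 hx).2, h3⟩
  obtain ⟨x, h4, h5⟩ := h1 i (hi.trans_le hm)
  exact ⟨x, (hE x).2 ⟨h4, i, hi, h5⟩, h5⟩

theorem exists_singleton_code (n : M) : ∃ c, ∀ x, mem x c ↔ x = n := by
  obtain ⟨S, hS⟩ := IM.ex (M := M)
  exact Rec.coded_of_bdd (S := S) (Y := fun x => x = n) (by fun_prop) (t := n + 1)
    (by rintro x rfl; exact lt_succ_self' _)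

section Star

variable {S : Set (M → Prop)} [Star S]

@[fun_prop] theorem rec_cardW {α : Type} [Cd M α] {X w b : α → M} (hX : Rec S X) (hw : Rec S w)
    (hb : Rec S b) : Rec S (fun a => CardW (X a) (w a) (b a)) := by
  have : Rec S (fun a => (∀ i, i < w a → ∃ x, mem x (X a) ∧ mem (pr i x) (b a)) ∧
      (∀ x, mem x (X a) → ∃ i, i < w a ∧ mem (pr i x) (b a)) ∧
      ∀ i < b a, ∀ i' < b a, ∀ x < b a, ∀ x' < b a, mem (pr i x) (b a) → mem (pr i' x') (b a) →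
        (i = i' ↔ x = x')) := by fun_prop
  refine this.of_iff fun a => and_congr_right fun _ => and_congr_right fun _ => ⟨?_, ?_⟩
  · intro h i i' x x' h1 h2
    exact h i ((le_pr_left _ _).trans_lt (mem_lt h1)) i' ((le_pr_left _ _).trans_lt (mem_lt h2))
      x ((le_pr_right _ _).trans_lt (mem_lt h1)) x' ((le_pr_right _ _).trans_lt (mem_lt h2)) h1 h2
  · intro h i _ i' _ x _ x' _ h1 h2
    exact h i i' x x' h1 h2

theorem rec_pblk {φ : M → M} {f : M × M → M} (hφ : Rec S φ) (hf : Rec S f) (k : M) :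
    Rec S (fun p : M × M => PBlk φ f k p.1 (p1 p.2) (p2 p.2)) := by
  unfold PBlk; fun_prop

theorem Arrow.apply {w m k : M} (h : Arrow w m k) {g : M × M → M} (hg : Rec S g)
    (hg' : ∀ x y, x < y → 1 ≤ g (x, y) ∧ g (x, y) ≤ k) :
    ∃ H, (∀ x, mem x H → 1 ≤ x ∧ x ≤ w) ∧ CardEq H m ∧
      ∃ j, ∀ x y, mem x H → mem y H → x < y → g (x, y) = j := by
  obtain ⟨X, hX⟩ := reg_le (1 : M) (w + 1)
  obtain ⟨b, hb⟩ := Rec.coded (S := S) (Y := fun u => p2 u = p1 u + 1) (by fun_prop)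
    (pr w (w + 1))
  obtain ⟨c, hc⟩ := Rec.coded (S := S) (Y := fun u => p2 u = g (p1 (p1 u), p2 (p1 u)))
    (by fun_prop) (pr (pr (w + 1) (w + 1)) k)
  obtain ⟨H, h1, h2, j, h3⟩ := h X c ⟨b, fun i hi => ⟨i + 1, (hX _).2
    ⟨by gcongr, le_add_self⟩, (hb _).2 ⟨pr_lt_pr hi (by gcongr), by simp⟩⟩, fun x hx => by
      obtain ⟨h1, h2⟩ := (hX x).1 hx
      obtain ⟨i, rfl⟩ := exists_add_of_le h2
      have h3 : i < w := by
        rw [add_comm] at h1; exact lt_of_add_lt_add_right h1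
      exact ⟨i, h3, (hb _).2 ⟨pr_lt_pr h3 h1.le, by simp [add_comm]⟩⟩, fun i i' x x' h1 h2 => by
      have h3 := ((hb _).1 h1).2
      have h4 := ((hb _).1 h2).2
      simp only [p1_pr, p2_pr] at h3 h4
      rw [h3, h4]; simp⟩ (fun x y hx hy hxy => ⟨g (x, y), (hg' x y hxy).1, (hg' x y hxy).2,
      (hc _).2 ⟨pr_lt_pr (pr_lt_pr ((hX x).1 hx).1 ((hX y).1 hy).1.le) (hg' x y hxy).2, by simp⟩,
      fun j' hj' => by simpa using ((hc _).1 hj').2⟩)
  refine ⟨H, fun x hx => ?_, h2, j, fun x y hx hy hxy => ?_⟩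
  · have := (hX x).1 (h1 x hx)
    exact ⟨this.2, lt_succ_iff'.1 this.1⟩
  · have := ((hc _).1 (h3 x y hx hy hxy)).2
    simp only [p1_pr, p2_pr] at this
    exact this.symm

theorem pblk_big {φ : M → M} {f : M × M → M} (hf : Rec S f) {k : M}
    (hf' : ∀ x y, x < y → 1 ≤ f (x, y) ∧ f (x, y) ≤ k) (harr : ∀ w, Arrow w (φ w) (k + 1))
    (hunb : ∀ t, ∃ w, t < φ w) {lab : M → M} (hlab : Rec S lab) {p : M} (hp : ∀ y, lab y < p)
    (n : M) : ∃ B, PBlk φ f k n (p1 B) (p2 B) ∧ ∃ j, ∀ y, mem y (p1 B) → lab y = j := by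
  obtain ⟨w, hw⟩ := hunb (n + p)
  obtain ⟨H, h4, ⟨b, h5, h6, h7⟩, j, h8⟩ := (harr w).apply (S := S)
    (g := fun q => if n ≤ q.1 ∧ n ≤ q.2 ∧ lab q.1 = lab q.2 then f q else k + 1) (by fun_prop) (by
      intro x y hxy
      dsimp only
      split_ifs
      · exact ⟨(hf' x y hxy).1, (hf' x y hxy).2.trans le_self_add⟩
      · exact ⟨le_add_self, le_rfl⟩)
  obtain ⟨x, x', hx, hx', hxx, h9⟩ : ∃ x x', mem x H ∧ mem x' H ∧ x < x' ∧
      n ≤ x ∧ n ≤ x' ∧ lab x = lab x' := by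
    by_contra hn
    refine absurd (Rec.php (S := S) (q := φ w) (r := n + p) (R := fun i v => ∃ x, mem x H ∧
      mem (pr i x) b ∧ v = if x < n then x else n + lab x) (by fun_prop) ?_ ?_) (not_le.2 hw)
    · intro i hi
      obtain ⟨x, h9, h10⟩ := h5 i hi
      refine ⟨_, ?_, x, h9, h10, rfl⟩
      split_ifs with h11
      · exact h11.trans_le le_self_add
      · have := hp x
        gcongr
    · rintro i _ i' _ v _ ⟨x, h9, h10, h11⟩ ⟨x', h12, h13, h14⟩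
      rw [h7 i i' x x' h10 h13]
      rw [h11] at h14
      by_cases h15 : x < n <;> by_cases h16 : x' < n <;> simp only [h15, h16, if_true, if_false]
        at h14
      · exact h14
      · exact absurd h15 (not_lt.2 (h14 ▸ le_self_add))
      · exact absurd h16 (not_lt.2 (h14 ▸ le_self_add))
      · have h17 := add_left_cancel h14
        rcases lt_trichotomy x x' with h18 | h18 | h18
        · exact absurd ⟨x, x', h9, h12, h18, not_lt.1 h15, not_lt.1 h16, h17⟩ hn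
        · exact h18
        · exact absurd ⟨x', x, h12, h9, h18, not_lt.1 h16, not_lt.1 h15, h17.symm⟩ hn
  have hj : j ≤ k := by
    have := h8 x x' hx hx' hxx
    simp only [h9, and_self, if_true] at this
    exact this ▸ (hf' x x' hxx).2
  have h10 : ∀ y y', mem y H → mem y' H → y < y' →
      (n ≤ y ∧ n ≤ y' ∧ lab y = lab y') ∧ f (y, y') = j := by
    intro y y' hy hy' hyy
    have := h8 y y' hy hy' hyy
    dsimp only at this
    split_ifs at this with h10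
    · exact ⟨h10, this⟩
    · exact absurd (this ▸ hj) (not_le.2 (lt_succ_self' k))
  have h11 : ∀ z, mem z H → n ≤ z ∧ lab z = lab x := by
    intro z hz
    rcases lt_trichotomy z x with h | rfl | h
    · exact ⟨(h10 z x hz hx h).1.1, (h10 z x hz hx h).1.2.2⟩
    · exact ⟨h9.1, rfl⟩
    · exact ⟨(h10 x z hx hz h).1.2.1, (h10 x z hx hz h).1.2.2.symm⟩
  refine ⟨pr H (pr w b), ?_, lab x, fun y hy => (h11 y (by simpa using hy)).2⟩
  unfold PBlk
  simp only [p1_pr, p2_pr]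
  exact ⟨h9.1.trans (h4 x hx).2, ⟨x, hx, trivial⟩, fun z hz => ⟨(h11 z hz).1, h4 z hz⟩,
    ⟨h5, h6, h7⟩, j, hj, fun y hy y' hy' hyy => (h10 y y' hy hy' hyy).2⟩

theorem exists_colour_fun {F : M → Prop} (hF : F ∈ S) {k : M} (h3 : IsCol k F) :
    ∃ f : M × M → M, Rec S f ∧ ∀ p : M × M, p.1 < p.2 →
      1 ≤ f p ∧ f p ≤ k ∧ F (pr (pr p.1 p.2) (f p)) := by
  have hF' : Rec S F := rec_iff_mem.2 hF
  exact Rec.skolem (S := S) (P := fun (p : M × M) (j : M) => p.1 < p.2 →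
    1 ≤ j ∧ j ≤ k ∧ F (pr (pr p.1 p.2) j)) (by fun_prop) (by
      rintro ⟨x, y⟩
      by_cases hxy : x < y
      · obtain ⟨j, h5, h6, h7, -⟩ := h3 x y hxy
        exact ⟨j, fun _ => ⟨h5, h6, h7⟩⟩
      · exact ⟨0, fun h => absurd h hxy⟩)

end Star

theorem rt_step [Countable M] (T : Set (M → Prop)) (hT : Nice T) (F : M → Prop) (hF : F ∈ T)
    (h3 : IsCol ((2 : ℕ) : M) F) :
    ∃ T', Nice T' ∧ T ⊆ T' ∧ ∃ H ∈ T', (∀ u, ∃ x, u ≤ x ∧ H x) ∧
      ∃ c, ∀ x y, H x → H y → x < y → F (pr (pr x y) c) := by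
  have := hT.1
  obtain ⟨f, hf, h5⟩ := exists_colour_fun (S := T) hF h3
  have hD : Data T 3 f (fun c d => c = d)
      (fun n B => ∃ x, mem x (p1 B) ∧ n ≤ x ∧ ∀ y, mem y (p1 B) → y = x) :=
    { rf := hf
      rS := by fun_prop
      rB := by fun_prop
      fK := fun x y hxy => by
        rw [show ((3 : ℕ) : M) = ((2 : ℕ) : M) + 1 from Nat.cast_succ 2, lt_succ_iff']
        exact (h5 (x, y) hxy).2.1
      mono := fun n n' B hn ⟨x, h1, h2, h4⟩ => ⟨x, h1, hn.trans h2, h4⟩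
      ge := fun n B y ⟨x, _, h2, h4⟩ hy => (h4 y hy).symm ▸ h2
      ne := fun n B ⟨x, h1, _⟩ => ⟨x, h1⟩
      side := fun n B d ⟨x, _, _, h4⟩ hd => ⟨d, hd, rfl, fun y z hy hz hyz =>
        absurd ((h4 y hy).trans (h4 z hz).symm) hyz.ne⟩
      big := fun W _ _ lab _ p _ n => by
        obtain ⟨c, hc⟩ := exists_singleton_code n
        refine ⟨pr c 0, ?_, lab n, fun y hy => ?_⟩
        · rw [p1_pr]
          exact ⟨n, (hc n).2 rfl, le_rfl, fun y hy => (hc y).1 hy⟩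
        · rw [p1_pr] at hy
          rw [(hc y).1 hy] }
  obtain ⟨T', g1, s1, G, hG, h6, c, d, rfl, h7⟩ := core hT hD
  refine ⟨T', g1, s1, G, hG, fun u => ?_, c, fun x y hx hy hxy => ?_⟩
  · obtain ⟨B, ⟨x, h1, h2, -⟩, h8⟩ := h6 u
    exact ⟨x, h2, h8 x h1⟩
  · have h8 := (h5 (x, y) hxy).2.2
    have h9 : f (x, y) = c := (h7 x y hx hy hxy).elim id id
    exact h9 ▸ h8

theorem prt_step [Countable M] (k : ℕ) (T : Set (M → Prop)) (hT : Nice T)
    (Φ : M → Prop) (hΦ : Φ ∈ T) (F : M → Prop) (hF : F ∈ T) (h1 : IsFun Φ)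
    (h2 : ∀ w m, Φ (pr w m) → Arrow w m ((k : M) + 1)) (h3 : IsCol (k : M) F) :
    ∃ T', Nice T' ∧ T ⊆ T' ∧ ∃ H ∈ T', Packed H Φ ∧ SemiHom H F := by
  have := hT.1
  have hΦ' : Rec T Φ := rec_iff_mem.2 hΦ
  obtain ⟨φ, hφ, h4⟩ := Rec.skolem (S := T) (P := fun w m : M => Φ (pr w m)) (by fun_prop)
    fun w => (h1 w).imp fun _ h => h.1
  obtain ⟨f, hf, h5⟩ := exists_colour_fun (S := T) hF h3
  have hf' : ∀ x y, x < y → 1 ≤ f (x, y) ∧ f (x, y) ≤ k :=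
    fun x y h => ⟨(h5 (x, y) h).1, (h5 (x, y) h).2.1⟩
  have harr : ∀ w, Arrow w (φ w) ((k : M) + 1) := fun w => h2 w _ (h4 w)
  by_cases hmax : ∃ w0, ∀ w, φ w ≤ φ w0
  · obtain ⟨w0, hw0⟩ := hmax
    obtain ⟨H, h8, h9, j, h10⟩ := (harr w0).apply (S := T)
      (g := f) hf fun x y hxy => ⟨(hf' x y hxy).1, (hf' x y hxy).2.trans le_self_add⟩
    refine ⟨T, hT, le_rfl, fun x => mem x H, rec_iff_mem.1 (by fun_prop), fun u => ?_,
      j, j, fun x y hx hy hxy => Or.inl (h10 x y hx hy hxy ▸ (h5 (x, y) hxy).2.2)⟩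
    obtain ⟨E, h11, h12⟩ := h9.sub (hw0 (max u w0))
    exact ⟨max u w0, le_max_left _ _, _, h4 _, E, fun x hx => ⟨h11 x hx, (h8 x (h11 x hx)).1,
      (h8 x (h11 x hx)).2.trans (le_max_right _ _)⟩, h12⟩
  · push Not at hmax
    have hunb : ∀ t, ∃ w, t < φ w := by
      refine Sig1.ind (S := T) (Sig1.exists (Rec.sig1 (by fun_prop))) ?_ ?_
      · obtain ⟨w, hw⟩ := hmax 0
        exact ⟨w, lt_of_le_of_lt zero_le hw⟩
      · rintro t ⟨w, hw⟩
        obtain ⟨w', hw'⟩ := hmax w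
        exact ⟨w', (succ_le_iff'.2 hw).trans_lt hw'⟩
    have hK : ∀ j : M, j ≤ (k : M) → j < ((k + 1 : ℕ) : M) := fun j hj => by
      rw [Nat.cast_succ, lt_succ_iff']
      exact hj
    have hD : Data T (k + 1) f (fun _ _ => True) (fun n B => PBlk φ f k n (p1 B) (p2 B)) :=
      { rf := hf
        rS := by fun_prop
        rB := rec_pblk hφ hf k
        fK := fun x y hxy => hK _ (hf' x y hxy).2
        mono := fun n n' B hn h => h.mono hn
        ge := fun n B x h hx => (h.2.2.1 x hx).1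
        ne := fun n B h => h.2.1.imp fun _ h => h.1
        side := fun n B d h _ => by
          obtain ⟨j, hj, h6⟩ := h.2.2.2.2
          exact ⟨j, hK j hj, trivial, fun x y hx hy hxy => Or.inl (h6 x hx y hy hxy)⟩
        big := fun W _ hW lab hlab p hp n =>
          pblk_big (S := W) (hf.mono hW) hf' harr hunb hlab hp n }
    obtain ⟨T', g1, s1, G, hG, h6, c, d, -, h7⟩ := core hT hD
    refine ⟨T', g1, s1, G, hG, fun u => ?_, c, d, fun x y hx hy hxy => ?_⟩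
    · obtain ⟨B, h9, h8⟩ := h6 u
      exact ⟨p1 (p2 B), h9.1, _, h4 _, p1 B, fun x hx => ⟨h8 x hx, (h9.2.2.1 x hx).2⟩, _,
        h9.2.2.2.1⟩
    · have := (h5 (x, y) hxy).2.2
      rcases h7 x y hx hy hxy with h8 | h8
      · exact Or.inl (h8 ▸ this)
      · exact Or.inr (h8 ▸ this)

theorem exists_rt_prt_ext [Countable M] (k : ℕ) (T : Set (M → Prop)) (hT : Nice T) :
    ∃ T', G2 T' ∧ T ⊆ T' ∧ RTc T' ∧ PRTc k T' := by
  obtain ⟨T', h1, h2, h3⟩ := exists_closed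
    (fun X Y U => (IsCol ((2 : ℕ) : M) X → ∃ H ∈ U, (∀ u, ∃ x, u ≤ x ∧ H x) ∧
        ∃ c, ∀ x y, H x → H y → x < y → X (pr (pr x y) c)) ∧
      (IsFun X → (∀ w m, X (pr w m) → Arrow w m ((k : M) + 1)) → IsCol (k : M) Y →
        ∃ H ∈ U, Packed H X ∧ SemiHom H Y))
    (by
      rintro X Y U U' hU ⟨a, b⟩
      refine ⟨fun h => ?_, fun h h' h'' => ?_⟩
      · obtain ⟨H, hH, c⟩ := a h
        exact ⟨H, hU hH, c⟩
      · obtain ⟨H, hH, c⟩ := b h h' h''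
        exact ⟨H, hU hH, c⟩)
    (by
      intro U hU X hX Y hY
      obtain ⟨U1, g1, s1, r1⟩ : ∃ U1, Nice U1 ∧ U ⊆ U1 ∧ (IsCol ((2 : ℕ) : M) X →
          ∃ H ∈ U1, (∀ u, ∃ x, u ≤ x ∧ H x) ∧
            ∃ c, ∀ x y, H x → H y → x < y → X (pr (pr x y) c)) := by
        by_cases h : IsCol ((2 : ℕ) : M) X
        · obtain ⟨U1, a, b, c⟩ := rt_step U hU X hX h
          exact ⟨U1, a, b, fun _ => c⟩
        · exact ⟨U, hU, le_rfl, fun h' => absurd h' h⟩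
      obtain ⟨U2, g2, s2, r2⟩ : ∃ U2, Nice U2 ∧ U1 ⊆ U2 ∧ (IsFun X →
          (∀ w m, X (pr w m) → Arrow w m ((k : M) + 1)) → IsCol (k : M) Y →
            ∃ H ∈ U2, Packed H X ∧ SemiHom H Y) := by
        by_cases h : IsFun X ∧ (∀ w m, X (pr w m) → Arrow w m ((k : M) + 1)) ∧ IsCol (k : M) Y
        · obtain ⟨U2, a, b, c⟩ := prt_step k U1 g1 X (s1 hX) Y (s1 hY) h.1 h.2.1 h.2.2
          exact ⟨U2, a, b, fun _ _ _ => c⟩
        · exact ⟨U1, g1, le_rfl, fun a b c => absurd ⟨a, b, c⟩ h⟩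
      refine ⟨U2, g2, s1.trans s2, fun h => ?_, r2⟩
      obtain ⟨H, hH, c⟩ := r1 h
      exact ⟨H, s2 hH, c⟩) T hT
  exact ⟨T', h1, h2, fun F hF => (h3 F hF F hF).1, fun Φ hΦ F hF => (h3 Φ hΦ F hF).2⟩

end Pool.Agent.Lib.MP_706ff3_lc.B
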