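import Pool.Agent.Lib.MP_706ff3_lc.B.Ext

/-!
A topped countable subfamily containing finitely many given sets.
-/

set_option autoImplicit false
set_option linter.unusedSectionVars false

namespace Pool.Agent.Lib.MP_706ff3_lc.B

open Classical

variable {M : Type} [PA M] [IM M]

/-- The four binary operations used to evaluate terms. -/
noncomputable def uop (i y z : M) : M :=
  if i = 0 then p1 y else if i = 1 then p2 y else if i = 2 then y + z else y * z

/-- One step of the satisfaction rules: tag `t`, argument `a`, input `x`. -/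
def URule (X : M → Prop) (t a x : M) : Prop :=
  (t = 0 ∧ p1 x < p2 x) ∨ (t = 1 ∧ ¬ p1 x < p2 x) ∨ (t = 2 ∧ p1 x = p2 x) ∨ (t = 3 ∧ a = p2 x) ∨
  (t = 4 ∧ (X (pr (p1 a) x) ∨ X (pr (p2 a) x))) ∨
  (t = 5 ∧ X (pr (p1 a) x) ∧ X (pr (p2 a) x)) ∨
  (t = 6 ∧ ∀ y < p2 x, X (pr a (pr (p1 x) y))) ∨
  (t = 7 ∧ ∃ y, X (pr (p1 a) (pr x y)) ∧ X (pr (p2 a) y)) ∨
  (t = 8 ∧ ∃ y, X (pr (p1 (p2 a)) (pr (p1 x) y)) ∧
    ∃ z, X (pr (p2 (p2 a)) (pr (p1 x) z)) ∧ uop (p1 a) y z = p2 x)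

omit [IM M] in
theorem URule.mono {X Y : M → Prop} (h : ∀ u, X u → Y u) {t a x : M} (hr : URule X t a x) :
    URule Y t a x := by
  unfold URule at hr ⊢
  refine hr.imp_right (Or.imp_right (Or.imp_right (Or.imp_right (Or.imp ?_ (Or.imp ?_
    (Or.imp ?_ (Or.imp ?_ ?_)))))))
  · exact And.imp_right (Or.imp (h _) (h _))
  · exact And.imp_right (And.imp (h _) (h _))
  · exact And.imp_right fun h1 y hy => h _ (h1 y hy)
  · exact And.imp_right fun ⟨y, h1, h2⟩ => ⟨y, h _ h1, h _ h2⟩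
  · exact And.imp_right fun ⟨y, h1, z, h2, h3⟩ => ⟨y, h _ h1, z, h _ h2, h3⟩

omit [IM M] in
theorem URule.cont {X : M → Prop} {t a x : M} (hr : URule X t a x) :
    ∃ b, URule (fun u => u < b ∧ X u) t a x := by
  have l : ∀ u v : M, u < max u v + 1 := fun u v => lt_succ_iff'.2 (le_max_left _ _)
  have r : ∀ u v : M, v < max u v + 1 := fun u v => lt_succ_iff'.2 (le_max_right _ _)
  unfold URule at hr ⊢
  rcases hr with h | h | h | h | ⟨h0, h⟩ | ⟨h0, h1, h2⟩ | ⟨h0, h⟩ | ⟨h0, y, h1, h2⟩ |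
    ⟨h0, y, h1, z, h2, h3⟩
  · exact ⟨0, Or.inl h⟩
  · exact ⟨0, Or.inr (Or.inl h)⟩
  · exact ⟨0, Or.inr (Or.inr (Or.inl h))⟩
  · exact ⟨0, Or.inr (Or.inr (Or.inr (Or.inl h)))⟩
  · exact ⟨_, Or.inr (Or.inr (Or.inr (Or.inr (Or.inl
      ⟨h0, h.imp (fun h1 => ⟨l _ _, h1⟩) (fun h1 => ⟨r _ _, h1⟩)⟩))))⟩
  · exact ⟨_, Or.inr (Or.inr (Or.inr (Or.inr (Or.inr (Or.inl
      ⟨h0, ⟨l _ _, h1⟩, ⟨r _ _, h2⟩⟩)))))⟩
  · exact ⟨pr a (pr (p1 x) (p2 x)), Or.inr (Or.inr (Or.inr (Or.inr (Or.inr (Or.inr (Or.inl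
      ⟨h0, fun y hy => ⟨pr_lt_pr' le_rfl (pr_lt_pr' le_rfl hy), h y hy⟩⟩))))))⟩
  · exact ⟨_, Or.inr (Or.inr (Or.inr (Or.inr (Or.inr (Or.inr (Or.inr (Or.inl
      ⟨h0, y, ⟨l _ _, h1⟩, ⟨r _ _, h2⟩⟩)))))))⟩
  · exact ⟨_, Or.inr (Or.inr (Or.inr (Or.inr (Or.inr (Or.inr (Or.inr (Or.inr
      ⟨h0, y, ⟨l _ _, h1⟩, z, ⟨r _ _, h2⟩, h3⟩)))))))⟩

/-- Every element of the coded set is justified by the rules from elements of the set. -/
def UClosed (w : M) : Prop :=
  ∀ u, mem u w → URule (fun v => mem v w) (p1 (p1 u)) (p2 (p1 u)) (p2 u)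

/-- The universal existential predicate. -/
def USat (u : M) : Prop := ∃ w, UClosed w ∧ mem u w

section URec

variable {S : Set (M → Prop)} [Pre S] {α : Type} [Cd M α]

omit [IM M] in
theorem rec_bex_pr {a x E : α → M} {Q : α → M → Prop} (ha : Rec S a) (hx : Rec S x)
    (hE : Rec S E) (hQ : Rec S (fun p : α × M => Q p.1 p.2)) :
    Rec S (fun p => ∃ y, mem (pr (a p) (pr (x p) y)) (E p) ∧ Q p y) :=
  Rec.of_iff (P := fun p => ∃ y < E p, mem (pr (a p) (pr (x p) y)) (E p) ∧ Q p y) (by fun_prop)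
    fun _ => ⟨fun ⟨y, _, h⟩ => ⟨y, h⟩, fun ⟨y, h⟩ =>
      ⟨y, ((le_pr_right _ _).trans (le_pr_right _ _)).trans_lt (mem_lt h.1), h⟩⟩

omit [IM M] in
theorem rec_uop {i y z : α → M} (hi : Rec S i) (hy : Rec S y) (hz : Rec S z) :
    Rec S (fun p => uop (i p) (y p) (z p)) := by
  unfold uop
  fun_prop

omit [IM M] in
theorem rec_urule {t a x w : α → M} (ht : Rec S t) (ha : Rec S a) (hx : Rec S x) (hw : Rec S w) :
    Rec S (fun p => URule (fun v => mem v (w p)) (t p) (a p) (x p)) := by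
  unfold URule
  refine Rec.or (by fun_prop) (Rec.or (by fun_prop) (Rec.or (by fun_prop) (Rec.or (by fun_prop)
    (Rec.or (by fun_prop) (Rec.or (by fun_prop) (Rec.or (by fun_prop) (Rec.or
    (Rec.and (by fun_prop) ?_) (Rec.and (by fun_prop) ?_))))))))
  · exact rec_bex_pr (by fun_prop) hx hw (by fun_prop)
  · refine rec_bex_pr (by fun_prop) (by fun_prop) hw ?_
    refine rec_bex_pr (by fun_prop) (by fun_prop) (by fun_prop) ?_
    exact Rec.eq (rec_uop (by fun_prop) (by fun_prop) (by fun_prop)) (by fun_prop)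

omit [IM M] in
theorem rec_uclosed : Rec S (fun w : M => UClosed w) := by
  unfold UClosed
  exact Rec.ball_mem (by fun_prop)
    (rec_urule (by fun_prop) (by fun_prop) (by fun_prop) (by fun_prop))

omit [IM M] in
theorem sig1_usat : Sig1 S (fun u : M => USat u) := by
  have h := rec_uclosed (S := S)
  exact Sig1.exists (Rec.sig1 (by fun_prop))

end URec

theorem usat_iff (u : M) : USat u ↔ URule USat (p1 (p1 u)) (p2 (p1 u)) (p2 u) := by
  constructor
  · rintro ⟨w, h1, h2⟩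
    exact (h1 u h2).mono fun v hv => ⟨w, h1, hv⟩
  · intro h
    obtain ⟨S, hS⟩ := IM.ex (M := M)
    have hC := rec_uclosed (S := S)
    obtain ⟨B, hB⟩ := h.cont
    obtain ⟨c, hc⟩ := (sig1_usat (S := S)).reg B
    obtain ⟨b, hb⟩ := Rec.coll (S := S) (R := fun x w => mem x c → UClosed w ∧ mem x w) (a := B)
      (by fun_prop) (by
        intro x _
        by_cases hx : mem x c
        · obtain ⟨w, hw⟩ := ((hc x).1 hx).2
          exact ⟨w, fun _ => hw⟩
        · exact ⟨0, fun h1 => absurd h1 hx⟩)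
    obtain ⟨w, hw⟩ := Rec.coded_of_bdd (S := S)
      (Y := fun v => v = u ∨ ∃ w' < b, UClosed w' ∧ mem v w') (by fun_prop) (t := u + b + 1) (by
        rintro v (rfl | ⟨w', h1, -, h2⟩)
        · exact lt_succ_iff'.2 le_self_add
        · exact ((mem_lt h2).trans h1).trans (lt_succ_iff'.2 le_add_self))
    refine ⟨w, fun v hv => ?_, (hw u).2 (Or.inl rfl)⟩
    rcases (hw v).1 hv with rfl | ⟨w', h1, h2, h3⟩
    · refine hB.mono fun x hx => ?_
      obtain ⟨w', h1, h2⟩ := hb x hx.1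
      exact (hw x).2 (Or.inr ⟨w', h1, h2 ((hc x).2 hx)⟩)
    · exact (h2 v h3).mono fun x hx => (hw x).2 (Or.inr ⟨w', h1, h2, hx⟩)

theorem usat_pr (t a x : M) : USat (pr (pr t a) x) ↔ URule USat t a x := by
  rw [usat_iff]; simp only [p1_pr, p2_pr]

/-- The sets enumerated by the universal predicate. -/
def USg (Y : M → Prop) : Prop := ∃ e, ∀ x, Y x ↔ USat (pr e x)

omit [IM M] in
theorem USg.of_iff {P Q : M → Prop} (h : USg P) (e : ∀ a, P a ↔ Q a) : USg Q := by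
  have : P = Q := funext fun a => propext (e a)
  exact this ▸ h

theorem usg_lt : USg (fun x : M => p1 x < p2 x) :=
  ⟨pr 0 0, fun x => by rw [usat_pr]; simp [URule]⟩

theorem usg_nlt : USg (fun x : M => ¬ p1 x < p2 x) :=
  ⟨pr 1 0, fun x => by rw [usat_pr]; simp [URule]⟩

theorem usg_id : USg (fun x : M => p1 x = p2 x) :=
  ⟨pr 2 0, fun x => by rw [usat_pr]; simp [URule]⟩

theorem usg_const (c : M) : USg (fun x : M => c = p2 x) :=
  ⟨pr 3 c, fun x => by rw [usat_pr]; simp [URule]⟩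

theorem USg.or {P Q : M → Prop} (h : USg P) (h' : USg Q) : USg (fun x => P x ∨ Q x) := by
  obtain ⟨e, he⟩ := h
  obtain ⟨e', he'⟩ := h'
  exact ⟨pr 4 (pr e e'), fun x => by rw [usat_pr]; simp [URule, he, he']⟩

theorem USg.and {P Q : M → Prop} (h : USg P) (h' : USg Q) : USg (fun x => P x ∧ Q x) := by
  obtain ⟨e, he⟩ := h
  obtain ⟨e', he'⟩ := h'
  exact ⟨pr 5 (pr e e'), fun x => by rw [usat_pr]; simp [URule, he, he']⟩

theorem USg.ball {P : M → Prop} (h : USg P) : USg (fun x => ∀ y < p2 x, P (pr (p1 x) y)) := by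
  obtain ⟨e, he⟩ := h
  exact ⟨pr 6 e, fun x => by rw [usat_pr]; simp [URule, he]⟩

theorem USg.pre {P Q : M → Prop} (h : USg P) (h' : USg Q) :
    USg (fun x => ∃ y, P (pr x y) ∧ Q y) := by
  obtain ⟨e, he⟩ := h
  obtain ⟨e', he'⟩ := h'
  exact ⟨pr 7 (pr e e'), fun x => by rw [usat_pr]; simp [URule, he, he']⟩

theorem usg_op (i : M) {f g : M → M} (h : USg (fun x => f (p1 x) = p2 x))
    (h' : USg (fun x => g (p1 x) = p2 x)) :
    USg (fun x => uop i (f (p1 x)) (g (p1 x)) = p2 x) := by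
  obtain ⟨e, he⟩ := h
  obtain ⟨e', he'⟩ := h'
  exact ⟨pr 8 (pr i (pr e e')), fun x => by rw [usat_pr]; simp [URule, ← he, ← he']⟩

theorem USg.exists {P : M → Prop} (h : USg P) : USg (fun x => ∃ y, P (pr x y)) :=
  (h.pre (usg_lt.or usg_nlt)).of_iff fun _ => exists_congr fun _ => and_iff_left (Classical.em _)

theorem usg_graph {f : M → M} (hf : Basic f) : USg (fun x => f (p1 x) = p2 x) := by
  induction hf with
  | id => exact usg_id
  | const c => exact usg_const c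
  | p1 _ ih => exact (usg_op 0 ih ih).of_iff (by simp [uop])
  | p2 _ ih => exact (usg_op 1 ih ih).of_iff (by simp [uop])
  | add _ _ ih1 ih2 => exact (usg_op 2 ih1 ih2).of_iff (by simp [uop])
  | mul _ _ ih1 ih2 => exact (usg_op 3 ih1 ih2).of_iff (by simp [uop])

theorem USg.basic {f : M → M} (hf : Basic f) {Q : M → Prop} (h : USg Q) :
    USg (fun x => Q (f x)) :=
  ((usg_graph hf).pre h).of_iff (by simp)

omit [IM M] in
theorem USg.sig1 {S : Set (M → Prop)} [Pre S] {P : M → Prop} (h : USg P) : Sig1 S P := by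
  obtain ⟨e, he⟩ := h
  exact ((sig1_usat (S := S)).comp (g := fun x => pr e x) (by fun_prop)).of_iff
    fun x => (he x).symm

/-- The recursive sets of the structure. -/
def UBase (M : Type) [PA M] : Set (M → Prop) := {Y | USg Y ∧ USg (fun x => ¬ Y x)}

theorem pre_ubase : Pre (UBase M) where
  basic := fun hf _ hQ => ⟨hQ.1.basic hf, hQ.2.basic hf⟩
  lt := ⟨usg_lt, usg_nlt⟩
  nand := fun hP hQ => ⟨(hP.2.or hQ.2).of_iff (by intro a; tauto),
    (hP.1.and hQ.1).of_iff (by intro a; tauto)⟩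
  ball := by
    intro Q hQ
    refine ⟨hQ.1.ball, ?_⟩
    have b1 : Basic (fun u : M => p1 u) := Basic.p1 Basic.id
    have b2 : Basic (fun u : M => p2 u) := Basic.p2 Basic.id
    exact ((usg_lt.basic (b2.pr b1.p2)).and (hQ.2.basic (b1.p1.pr b2))).exists.of_iff (by simp)
  delta := by
    intro P Q hP hQ h
    exact ⟨hP.1.exists, hQ.2.exists.of_iff (by intro x; dsimp only; rw [h]; simp)⟩

omit [IM M] in
theorem ubase_subset (S : Set (M → Prop)) [Pre S] : UBase M ⊆ S := fun _ h =>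
  rec_iff_mem.1 (Rec.delta h.1.sig1 ((Pi1.not h.2.sig1).of_iff (by simp)))

theorem top_ubase : Top (UBase M) := by
  have := pre_ubase (M := M)
  have hC := rec_uclosed (S := UBase M)
  refine ⟨fun p => UClosed p.2.2 ∧ mem (pr p.1 p.2.1) p.2.2, by fun_prop, ?_⟩
  rintro P ⟨Q, hQ, e⟩
  have h1 : Rec (UBase M) (fun u : M => Q (p1 u, p2 u)) := by fun_prop
  obtain ⟨n, hn⟩ := (rec_iff_mem.1 h1).1.exists
  exact ⟨n, fun x => (e x).trans (by simpa [USat] using hn x)⟩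

omit [IM M] in
theorem countable_ubase [Countable M] : (UBase M).Countable := by
  refine (Set.countable_range (fun e : M => fun x : M => USat (pr e x))).mono ?_
  rintro Y ⟨⟨e, he⟩, -⟩
  exact ⟨e, funext fun x => propext (he x).symm⟩

theorem exists_nice_base [Countable M] (S : Set (M → Prop)) [G2 S] (ρ : ℕ → M → Prop)
    (hρ : ∀ j, ρ j ∈ S) (n : ℕ) : ∃ T, Nice T ∧ T ⊆ S ∧ ∀ j < n, ρ j ∈ T := by
  induction n with
  | zero =>
    have := pre_ubase (M := M)
    exact ⟨UBase M, ⟨g2_of_subset (ubase_subset S), top_ubase, countable_ubase⟩, ubase_subset S,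
      fun j hj => absurd hj (Nat.not_lt_zero j)⟩
  | succ n ih =>
    obtain ⟨T, ⟨h1, h2, h3⟩, h4, h5⟩ := ih
    have hG : Rec S (ρ n) := rec_iff_mem.2 (hρ n)
    have hE : StarExt T (ρ n) := starExt_of_mem h4 hG
    have := hE.star
    refine ⟨ext T (ρ n), ⟨g2_of_subset (ext_subset h4 hG), h2.ext hE, countable_ext h3⟩,
      ext_subset h4 hG, fun j hj => ?_⟩
    rcases Nat.lt_succ_iff_lt_or_eq.1 hj with h | rfl
    · exact subset_ext (h5 j h)
    · exact self_mem_ext hE.reg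

end Pool.Agent.Lib.MP_706ff3_lc.B
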