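import Pool.Agent.Lib.MP_706ff3_lc.Bridge
import Pool.Agent.Lib.MP_706ff3_lc.B.DefsRT
import Pool.Agent.Lib.MP_706ff3_lc.B.Inst
import Pool.Agent.Lib.MP_706ff3_lc.B.Universal
import Pool.Agent.Lib.MP_706ff3_lc.B.Hirst
import Pool.Agent.Lib.MP_706ff3_lc.DefsEq

/-!
The conservation theorem.
-/

set_option autoImplicit false
set_option linter.unusedSectionVars false

namespace Pool.Agent.Lib.MP_706ff3_lc.B

open Classical

/-- The semantic content of the base theory. -/
structure Ax1 (A : Str) : Prop where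
  ne : A.S.Nonempty
  a1 : ∀ x, A.add x A.one ≠ A.zero
  a2 : ∀ x y, A.add x A.one = A.add y A.one → x = y
  a3 : ∀ x, A.add x A.zero = x
  a4 : ∀ x y, A.add x (A.add y A.one) = A.add (A.add x y) A.one
  a5 : ∀ x, A.mul x A.zero = A.zero
  a6 : ∀ x y, A.mul x (A.add y A.one) = A.add (A.mul x y) x
  a7 : ∀ x, ¬ A.lt x A.zero
  a8 : ∀ x y, A.lt x (A.add y A.one) ↔ A.lt x y ∨ x = y
  ind1 : ∀ {P}, SD A P → ∀ v, (∃ y, P (cons y (cons A.zero v))) →
    (∀ x, (∃ y, P (cons y (cons x v))) → ∃ y, P (cons y (cons (A.add x A.one) v))) →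
    ∀ x, ∃ y, P (cons y (cons x v))
  ca : ∀ P Q, SD A P → SD A Q → ∀ v,
    (∀ x, (∃ y, P (cons y (cons x v))) ↔ ∀ y, Q (cons y (cons x v))) →
      ∃ X ∈ A.S, ∀ x, x ∈ X ↔ ∃ y, P (cons y (cons x v))

theorem ax1_of_valid {A : Str} (hS : A.S.Nonempty) (h : ∀ ψ ∈ RCA0, A.Valid ψ) : Ax1 A := by
  have hb : ∀ ψ ∈ RCA0, ∀ x y : A.M, ψ.eval A (cons x fun _ => y) fun _ => hS.some :=
    fun ψ hψ x y => h ψ hψ _ _ fun _ => hS.some_mem
  refine ⟨hS, fun x => ?_, fun x y => ?_, fun x => ?_, fun x y => ?_, fun x => ?_, fun x y => ?_,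
    fun x => ?_, fun x y => ?_, ?_, ?_⟩
  · exact hb (Fm.eq (.add (.var 0) .one) .zero).neg (by simp [RCA0]) x x
  · exact hb ((Fm.eq (.add (.var 0) .one) (.add (.var 1) .one)).imp (.eq (.var 0) (.var 1)))
      (by simp [RCA0]) x y
  · exact hb (.eq (.add (.var 0) .zero) (.var 0)) (by simp [RCA0]) x x
  · exact hb (.eq (.add (.var 0) (.add (.var 1) .one)) (.add (.add (.var 0) (.var 1)) .one))
      (by simp [RCA0]) x y
  · exact hb (.eq (.mul (.var 0) .zero) .zero) (by simp [RCA0]) x x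
  · exact hb (.eq (.mul (.var 0) (.add (.var 1) .one)) (.add (.mul (.var 0) (.var 1)) (.var 0)))
      (by simp [RCA0]) x y
  · exact hb (Fm.lt (.var 0) .zero).neg (by simp [RCA0]) x x
  · have := hb ((Fm.lt (.var 0) (.add (.var 1) .one)).iff
      ((Fm.lt (.var 0) (.var 1)).or (.eq (.var 0) (.var 1)))) (by simp [RCA0]) x y
    rw [Fm.eval_iff, Fm.eval_or] at this
    exact this
  · rintro P ⟨φ, ρ, h1, h2, h3⟩ v
    have := h (indAx φ.exN) (Or.inl (Or.inr ⟨φ, h1, rfl⟩)) v ρ h2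
    simpa only [eval_indAx, Fm.eval_exN, Fm.eval, ← h3] using this
  · intro P Q hP hQ v
    obtain ⟨φ, ψ, ρ, h1, h2, h3, h4, h5⟩ := hP.merge hQ
    have := h (caAx φ.exN ψ.allN) (Or.inr ⟨φ, ψ, h1, h2, rfl⟩) v ρ h3
    simpa only [eval_caAx, Fm.eval_exN, Fm.eval, ← h4, ← h5] using this

namespace Ax1

variable {A : Str} (h : Ax1 A)
include h

theorem ind0 {P : (ℕ → A.M) → Prop} (hP : SD A P) (v : ℕ → A.M) (h0 : P (cons A.zero v))
    (hs : ∀ x, P (cons x v) → P (cons (A.add x A.one) v)) : ∀ x, P (cons x v) := by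
  have : Nonempty A.M := ⟨A.zero⟩
  have := h.ind1 hP.shift v
  simp only [cons_succ, exists_const] at this
  exact this h0 hs

theorem ca0 {P : (ℕ → A.M) → Prop} (hP : SD A P) (v : ℕ → A.M) :
    ∃ X ∈ A.S, ∀ x, x ∈ X ↔ P (cons x v) := by
  have : Nonempty A.M := ⟨A.zero⟩
  have := h.ca _ _ hP.shift hP.shift v
  simp only [cons_succ, exists_const, forall_const] at this
  exact this

theorem zero_add (x : A.M) : A.add A.zero x = x :=
  h.ind0 (SD.eq h.ne (.add .zero (.var 0)) (.var 0)) (fun _ => x) (h.a3 _)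
    (fun y (hy : A.add A.zero y = y) => show A.add A.zero (A.add y A.one) = A.add y A.one by
      rw [h.a4, hy]) x

theorem succ_add (a x : A.M) : A.add (A.add a A.one) x = A.add (A.add a x) A.one :=
  h.ind0 (SD.eq h.ne (.add (.add (.var 1) .one) (.var 0)) (.add (.add (.var 1) (.var 0)) .one))
    (fun _ => a) (show A.add (A.add a A.one) A.zero = A.add (A.add a A.zero) A.one by
      rw [h.a3, h.a3])
    (fun y (hy : A.add (A.add a A.one) y = A.add (A.add a y) A.one) =>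
      show A.add (A.add a A.one) (A.add y A.one) = A.add (A.add a (A.add y A.one)) A.one by
        rw [h.a4, hy, h.a4]) x

theorem add_comm (a x : A.M) : A.add a x = A.add x a :=
  h.ind0 (SD.eq h.ne (.add (.var 1) (.var 0)) (.add (.var 0) (.var 1)))
    (fun _ => a) (show A.add a A.zero = A.add A.zero a by rw [h.a3, h.zero_add])
    (fun y (hy : A.add a y = A.add y a) =>
      show A.add a (A.add y A.one) = A.add (A.add y A.one) a by rw [h.a4, hy, h.succ_add]) x

theorem add_assoc (a b x : A.M) : A.add (A.add a b) x = A.add a (A.add b x) :=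
  h.ind0 (SD.eq h.ne (.add (.add (.var 1) (.var 2)) (.var 0))
    (.add (.var 1) (.add (.var 2) (.var 0))))
    (cons a fun _ => b) (show A.add (A.add a b) A.zero = A.add a (A.add b A.zero) by
      rw [h.a3, h.a3])
    (fun y (hy : A.add (A.add a b) y = A.add a (A.add b y)) =>
      show A.add (A.add a b) (A.add y A.one) = A.add a (A.add b (A.add y A.one)) by
        rw [h.a4, hy, h.a4, h.a4]) x

theorem zero_mul (x : A.M) : A.mul A.zero x = A.zero :=
  h.ind0 (SD.eq h.ne (.mul .zero (.var 0)) .zero) (fun _ => x) (h.a5 _)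
    (fun y (hy : A.mul A.zero y = A.zero) => show A.mul A.zero (A.add y A.one) = A.zero by
      rw [h.a6, hy, h.a3]) x

theorem succ_mul (a x : A.M) : A.mul (A.add a A.one) x = A.add (A.mul a x) x :=
  h.ind0 (SD.eq h.ne (.mul (.add (.var 1) .one) (.var 0)) (.add (.mul (.var 1) (.var 0)) (.var 0)))
    (fun _ => a) (show A.mul (A.add a A.one) A.zero = A.add (A.mul a A.zero) A.zero by
      rw [h.a5, h.a5, h.a3])
    (fun y (hy : A.mul (A.add a A.one) y = A.add (A.mul a y) y) =>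
      show A.mul (A.add a A.one) (A.add y A.one) = A.add (A.mul a (A.add y A.one)) (A.add y A.one) by
        rw [h.a6, hy, h.a6, h.a4, h.a4, h.add_assoc (A.mul a y) y a, h.add_comm y a,
          ← h.add_assoc]) x

theorem mul_comm (a x : A.M) : A.mul a x = A.mul x a :=
  h.ind0 (SD.eq h.ne (.mul (.var 1) (.var 0)) (.mul (.var 0) (.var 1)))
    (fun _ => a) (show A.mul a A.zero = A.mul A.zero a by rw [h.a5, h.zero_mul])
    (fun y (hy : A.mul a y = A.mul y a) =>
      show A.mul a (A.add y A.one) = A.mul (A.add y A.one) a by rw [h.a6, hy, h.succ_mul]) x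

theorem mul_add (a b x : A.M) : A.mul a (A.add b x) = A.add (A.mul a b) (A.mul a x) :=
  h.ind0 (SD.eq h.ne (.mul (.var 1) (.add (.var 2) (.var 0)))
    (.add (.mul (.var 1) (.var 2)) (.mul (.var 1) (.var 0))))
    (cons a fun _ => b) (show A.mul a (A.add b A.zero) = A.add (A.mul a b) (A.mul a A.zero) by
      rw [h.a3, h.a5, h.a3])
    (fun y (hy : A.mul a (A.add b y) = A.add (A.mul a b) (A.mul a y)) =>
      show A.mul a (A.add b (A.add y A.one)) = A.add (A.mul a b) (A.mul a (A.add y A.one)) by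
        rw [h.a4, h.a6, hy, h.a6, h.add_assoc]) x

theorem mul_assoc (a b x : A.M) : A.mul (A.mul a b) x = A.mul a (A.mul b x) :=
  h.ind0 (SD.eq h.ne (.mul (.mul (.var 1) (.var 2)) (.var 0))
    (.mul (.var 1) (.mul (.var 2) (.var 0))))
    (cons a fun _ => b) (show A.mul (A.mul a b) A.zero = A.mul a (A.mul b A.zero) by
      rw [h.a5, h.a5, h.a5])
    (fun y (hy : A.mul (A.mul a b) y = A.mul a (A.mul b y)) =>
      show A.mul (A.mul a b) (A.add y A.one) = A.mul a (A.mul b (A.add y A.one)) by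
        rw [h.a6, hy, h.a6, h.mul_add]) x

theorem mul_one (x : A.M) : A.mul x A.one = x := by
  have := h.a6 x A.zero
  rwa [h.zero_add, h.a5, h.zero_add] at this

theorem add_cancel (a b x : A.M) : A.add a x = A.add b x → a = b :=
  h.ind0 ((SD.eq h.ne (.add (.var 1) (.var 0)) (.add (.var 2) (.var 0))).imp
    (SD.eq h.ne (.var 1) (.var 2)))
    (cons a fun _ => b) (show A.add a A.zero = A.add b A.zero → a = b by
      rw [h.a3, h.a3]; exact id)
    (fun y (hy : A.add a y = A.add b y → a = b) =>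
      show A.add a (A.add y A.one) = A.add b (A.add y A.one) → a = b by
        rw [h.a4, h.a4]; exact fun e => hy (h.a2 _ _ e)) x

theorem zero_or_succ (x : A.M) : x = A.zero ∨ ∃ y, x = A.add y A.one := by
  have := h.ind1 ((SD.eq h.ne (.var 1) .zero).or (SD.eq h.ne (.var 1) (.add (.var 0) .one)))
    (fun _ => x) ⟨x, Or.inl rfl⟩ (fun y _ => ⟨y, Or.inr rfl⟩) x
  obtain ⟨y, hy | hy⟩ := this
  · exact Or.inl hy
  · exact Or.inr ⟨y, hy⟩

theorem lt_iff (a x : A.M) : A.lt a x ↔ ∃ z, x = A.add (A.add a z) A.one := by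
  constructor
  · intro h0
    have := h.ind1 ((SD.lt h.ne (.var 2) (.var 1)).imp
      (SD.eq h.ne (.var 1) (.add (.add (.var 2) (.var 0)) .one))) (fun _ => a)
      ⟨a, fun h1 => absurd h1 (h.a7 _)⟩ (by
        rintro y ⟨z, hz⟩
        by_cases h1 : A.lt a y
        · have h2 : y = A.add (A.add a z) A.one := hz h1
          exact ⟨A.add z A.one, fun _ => show A.add y A.one = A.add (A.add a (A.add z A.one)) A.one by
            rw [h.a4, ← h2]⟩
        · exact ⟨A.zero, fun (h2 : A.lt a (A.add y A.one)) =>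
            show A.add y A.one = A.add (A.add a A.zero) A.one by
              rw [h.a3, ((h.a8 _ _).1 h2).resolve_left h1]⟩) x
    obtain ⟨z, hz⟩ := this
    exact ⟨z, hz h0⟩
  · rintro ⟨z, rfl⟩
    exact h.ind0 (SD.lt h.ne (.var 1) (.add (.add (.var 1) (.var 0)) .one)) (fun _ => a)
      (show A.lt a (A.add (A.add a A.zero) A.one) by rw [h.a3]; exact (h.a8 _ _).2 (Or.inr rfl))
      (fun y (hy : A.lt a (A.add (A.add a y) A.one)) =>
        show A.lt a (A.add (A.add a (A.add y A.one)) A.one) by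
          rw [h.a4]; exact (h.a8 _ _).2 (Or.inl hy)) z

theorem le_iff (a x : A.M) : (A.lt a x ∨ a = x) ↔ ∃ z, x = A.add a z := by
  rw [h.lt_iff]
  constructor
  · rintro (⟨z, rfl⟩ | rfl)
    · exact ⟨A.add z A.one, (h.a4 _ _).symm⟩
    · exact ⟨A.zero, (h.a3 _).symm⟩
  · rintro ⟨z, rfl⟩
    rcases h.zero_or_succ z with rfl | ⟨y, rfl⟩
    · exact Or.inr (h.a3 _).symm
    · exact Or.inl ⟨y, h.a4 _ _⟩

theorem lt_irrefl (a : A.M) : ¬ A.lt a a := by
  rw [h.lt_iff]
  rintro ⟨z, hz⟩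
  refine h.a1 z (h.add_cancel _ _ a ?_)
  rw [h.zero_add, h.add_comm, h.a4]; exact hz.symm

theorem total (a x : A.M) : (A.lt a x ∨ a = x) ∨ A.lt x a := by
  refine h.ind0 (((SD.lt h.ne (.var 1) (.var 0)).or (SD.eq h.ne (.var 1) (.var 0))).or
    (SD.lt h.ne (.var 0) (.var 1))) (fun _ => a) ?_ ?_ x
  · show (A.lt a A.zero ∨ a = A.zero) ∨ A.lt A.zero a
    rcases (h.le_iff A.zero a).2 ⟨a, (h.zero_add a).symm⟩ with h1 | h1
    · exact Or.inr h1
    · exact Or.inl (Or.inr h1.symm)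
  · intro y (hy : (A.lt a y ∨ a = y) ∨ A.lt y a)
    show (A.lt a (A.add y A.one) ∨ a = A.add y A.one) ∨ A.lt (A.add y A.one) a
    rcases hy with hy | hy
    · exact Or.inl (Or.inl ((h.a8 _ _).2 hy))
    · obtain ⟨z, hz⟩ := (h.lt_iff _ _).1 hy
      rcases (h.le_iff (A.add y A.one) a).2 ⟨z, by rw [h.succ_add]; exact hz⟩ with h1 | h1
      · exact Or.inr h1
      · exact Or.inl (Or.inr h1.symm)

/-- The semiring structure. -/
@[reducible] def semiring : CommSemiring A.M where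
  zero := A.zero
  one := A.one
  add := A.add
  mul := A.mul
  add_assoc := h.add_assoc
  zero_add := h.zero_add
  add_zero := h.a3
  add_comm := h.add_comm
  left_distrib := h.mul_add
  right_distrib := fun a b c => by
    show A.mul (A.add a b) c = A.add (A.mul a c) (A.mul b c)
    rw [h.mul_comm, h.mul_add, h.mul_comm c, h.mul_comm c]
  zero_mul := h.zero_mul
  mul_zero := h.a5
  mul_assoc := h.mul_assoc
  one_mul := fun a => (h.mul_comm _ _).trans (h.mul_one a)
  mul_one := h.mul_one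
  mul_comm := h.mul_comm
  nsmul := @nsmulRec _ ⟨A.zero⟩ ⟨A.add⟩

theorem lt_of_lt_of_le {a b c : A.M} (h1 : A.lt a b) (h2 : A.lt b c ∨ b = c) : A.lt a c := by
  obtain ⟨z, rfl⟩ := (h.lt_iff _ _).1 h1
  obtain ⟨w, rfl⟩ := (h.le_iff _ _).1 h2
  exact (h.lt_iff _ _).2 ⟨A.add z w, by rw [h.succ_add, h.add_assoc a z w]⟩

/-- The order. -/
@[reducible] noncomputable def order : LinearOrder A.M where
  lt := A.lt
  le := fun a b => A.lt a b ∨ a = b
  le_refl := fun _ => Or.inr rfl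
  le_trans := by
    rintro a b c (h1 | rfl) h2
    · exact Or.inl (h.lt_of_lt_of_le h1 h2)
    · exact h2
  lt_iff_le_not_ge := by
    intro a b
    constructor
    · intro h1
      exact ⟨Or.inl h1, fun h2 => h.lt_irrefl _ (h.lt_of_lt_of_le h1 h2)⟩
    · rintro ⟨h1 | rfl, h2⟩
      · exact h1
      · exact absurd (Or.inr rfl) h2
  le_antisymm := by
    rintro a b (h1 | rfl) h2
    · exact absurd (h.lt_of_lt_of_le h1 h2) (h.lt_irrefl _)
    · rfl
  le_total := fun a b => (h.total a b).imp_right Or.inl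
  toDecidableLE := Classical.decRel _

/-- The model as a discretely ordered semiring. -/
@[reducible] noncomputable def pa : PA A.M :=
  letI := h.semiring
  letI := h.order
  have co : CanonicallyOrderedAdd A.M :=
    { exists_add_of_le := fun {a b} h1 => (h.le_iff a b).1 h1
      le_self_add := fun a b => (h.le_iff _ _).2 ⟨b, rfl⟩
      le_add_self := fun a b => (h.le_iff _ _).2 ⟨b, h.add_comm _ _⟩ }
  have cm : IsOrderedCancelAddMonoid A.M :=
    { add_le_add_left := fun a b h1 c => by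
        obtain ⟨z, rfl⟩ := exists_add_of_le h1
        exact (h.le_iff _ _).2 ⟨z, by change a + z + c = a + c + z; ring⟩
      le_of_add_le_add_left := fun a b c h1 => by
        obtain ⟨z, hz⟩ := exists_add_of_le h1
        refine (h.le_iff _ _).2 ⟨z, h.add_cancel _ _ a ?_⟩
        change c + a = b + z + a
        rw [_root_.add_comm c a, hz]; ring }
  have pos : ∀ a c b : A.M, a < b → 0 < c → c * a < c * b := by
    intro a c b h1 h2
    obtain ⟨z, rfl⟩ := (h.lt_iff _ _).1 h1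
    obtain ⟨w, rfl⟩ := (h.lt_iff _ _).1 h2
    refine (h.lt_iff _ _).2 ⟨(w + 1) * z + w, ?_⟩
    change (0 + w + 1) * (a + z + 1) = (0 + w + 1) * a + ((w + 1) * z + w) + 1
    ring
  { h.semiring, h.order with
    co := co
    so :=
      { cm with
        zero_le_one := zero_le
        exists_pair_ne := ⟨1, 0, by have := h.a1 A.zero; rwa [h.zero_add] at this⟩
        mul_lt_mul_of_pos_left := fun {c} hc {a b} h1 => pos a c b h1 hc
        mul_lt_mul_of_pos_right := fun {c} hc {a b} h1 => by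
          have := pos a c b h1 hc
          rwa [_root_.mul_comm c, _root_.mul_comm c] at this }
    lt_succ := h.a8 }

end Ax1

/-- The structure given by a discretely ordered semiring and a family of subsets. -/
@[reducible] def strOf (M : Type) [PA M] (S : Set (M → Prop)) : Str :=
  ⟨M, 0, 1, fun a b => a + b, fun a b => a * b, fun a b => a < b, S⟩

/-- The pairing term. -/
def prT (s t : Tm) : Tm := .add (.mul (.add s t) (.add s t)) s

variable {M : Type} [PA M] {S : Set (M → Prop)}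

theorem mem_of_sd (h : Ax1 (strOf M S)) {P : (ℕ → M) → Prop} (hP : SD (strOf M S) P) (v : ℕ → M) :
    (fun x => P (cons x v)) ∈ S := by
  obtain ⟨X, hX, e⟩ := h.ca0 hP v
  exact mem_congr hX e

theorem graph_op (h : Ax1 (strOf M S)) {f g : M → M} {op : M → M → M}
    (hR : SD (strOf M S) fun v => op (v 1) (v 0) = v 2)
    (hf : ∃ Γ ∈ S, ∀ a b, Γ (pr a b) ↔ f a = b) (hg : ∃ Γ ∈ S, ∀ a b, Γ (pr a b) ↔ g a = b) :
    ∃ Γ ∈ S, ∀ a b, Γ (pr a b) ↔ op (f a) (g a) = b := by
  obtain ⟨Γ, hΓ, e⟩ := hf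
  obtain ⟨Γ', hΓ', e'⟩ := hg
  have h1 := SD.mem (A := strOf M S) (prT (.var 3) (.var 1)) hΓ
  have h2 := SD.mem (A := strOf M S) (prT (.var 3) (.var 0)) hΓ'
  have h3 := SD.eq h.ne (.var 3) (prT (.var 1) (.var 0))
  have key : ∀ u : M, (∃ w : M, ∃ x < u + 1, ∃ y < u + 1, u = pr x y ∧ ∃ a < w, ∃ b < w,
      Γ (pr x a) ∧ Γ' (pr x b) ∧ op a b = y) ↔ ∃ x y, u = pr x y ∧ op (f x) (g x) = y := by
    intro u
    simp only [e, e']
    constructor
    · rintro ⟨w, x, -, y, -, h4, a, -, b, -, rfl, rfl, h5⟩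
      exact ⟨x, y, h4, h5⟩
    · rintro ⟨x, y, rfl, h5⟩
      exact ⟨f x + g x + 1, x, lt_succ_iff'.2 (le_pr_left _ _), y, lt_succ_iff'.2 (le_pr_right _ _),
        rfl, f x, lt_succ_iff'.2 le_self_add, g x, lt_succ_iff'.2 le_add_self, rfl, rfl, h5⟩
  obtain ⟨X, hX, e2⟩ := h.ca _ _
    (SD.bex (.add (.var 1) .one) (SD.bex (.add (.var 2) .one) (h3.and
      (SD.bex (.var 2) (SD.bex (.var 3) (h1.and (h2.and hR)))))))
    (SD.bex (.add (.var 1) .one) (SD.bex (.add (.var 2) .one) (h3.and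
      (SD.ball (.var 2) (SD.ball (.var 3) (h1.imp (h2.imp hR))))))) (fun _ => 0) (by
      intro u
      refine (key u).trans ?_
      change _ ↔ ∀ w : M, ∃ x < u + 1, ∃ y < u + 1, u = pr x y ∧ ∀ a < w, ∀ b < w,
        Γ (pr x a) → Γ' (pr x b) → op a b = y
      simp only [e, e']
      constructor
      · rintro ⟨x, y, rfl, h5⟩ w
        exact ⟨x, lt_succ_iff'.2 (le_pr_left _ _), y, lt_succ_iff'.2 (le_pr_right _ _), rfl,
          by rintro a - b - rfl rfl; exact h5⟩
      · intro h4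
        obtain ⟨x, -, y, -, rfl, -⟩ := h4 0
        obtain ⟨x', -, y', -, h5, h6⟩ := h4 (f x + g x + 1)
        obtain ⟨rfl, rfl⟩ := pr_inj h5
        exact ⟨x, y, rfl, h6 _ (lt_succ_iff'.2 le_self_add) _ (lt_succ_iff'.2 le_add_self) rfl rfl⟩)
  refine ⟨X, hX, fun a b => ((e2 (pr a b)).trans (key (pr a b))).trans ?_⟩
  constructor
  · rintro ⟨x, y, h4, h5⟩
    obtain ⟨rfl, rfl⟩ := pr_inj h4
    exact h5
  · intro h4
    exact ⟨a, b, rfl, h4⟩

theorem sd_nonpair (h : Ax1 (strOf M S)) :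
    SD (strOf M S) fun v => ¬ ∃ a b : M, v 1 = pr a b := by
  refine (SD.bex (.add (.var 1) .one) (SD.bex (.add (.var 2) .one)
    (SD.eq h.ne (.var 3) (prT (.var 1) (.var 0))))).not.of_iff fun v => not_congr ?_
  change (∃ a < v 1 + 1, ∃ b < v 1 + 1, v 1 = pr a b) ↔ _
  constructor
  · rintro ⟨a, -, b, -, h⟩; exact ⟨a, b, h⟩
  · rintro ⟨a, b, h⟩
    exact ⟨a, lt_succ_iff'.2 (h ▸ le_pr_left _ _), b, lt_succ_iff'.2 (h ▸ le_pr_right _ _), h⟩

theorem graph_basic (h : Ax1 (strOf M S)) {f : M → M} (hf : Basic f) :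
    ∃ Γ ∈ S, ∀ a b, Γ (pr a b) ↔ f a = b := by
  induction hf with
  | id =>
    refine ⟨_, mem_of_sd h (SD.bex (.add (.var 0) .one)
      (SD.eq h.ne (.var 1) (prT (.var 0) (.var 0)))) (fun _ => 0), fun a b => ?_⟩
    change (∃ x < pr a b + 1, pr a b = pr x x) ↔ _
    constructor
    · rintro ⟨x, -, h⟩; obtain ⟨rfl, rfl⟩ := pr_inj h; rfl
    · rintro rfl; exact ⟨a, lt_succ_iff'.2 (le_pr_left _ _), rfl⟩
  | const c =>
    refine ⟨_, mem_of_sd h (SD.bex (.add (.var 0) .one)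
      (SD.eq h.ne (.var 1) (prT (.var 0) (.var 2)))) (fun _ => c), fun a b => ?_⟩
    change (∃ x < pr a b + 1, pr a b = pr x c) ↔ _
    constructor
    · rintro ⟨x, -, h⟩; exact (pr_inj h).2.symm
    · rintro rfl; exact ⟨a, lt_succ_iff'.2 (le_pr_left _ _), rfl⟩
  | p1 _ ih =>
    refine graph_op h (op := fun a _ => p1 a) (((SD.bex (.add (.var 1) .one)
      (SD.eq h.ne (.var 2) (prT (.var 3) (.var 0)))).or
      ((SD.eq h.ne (.var 2) .zero).and (sd_nonpair h))).of_iff fun v => ?_) ih ih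
    rw [p1_eq_iff]
    refine or_congr ?_ Iff.rfl
    change (∃ z < v 1 + 1, v 1 = pr (v 2) z) ↔ _
    exact ⟨fun ⟨z, _, h⟩ => ⟨z, h⟩, fun ⟨z, h⟩ => ⟨z, lt_succ_iff'.2 (h ▸ le_pr_right _ _), h⟩⟩
  | p2 _ ih =>
    refine graph_op h (op := fun a _ => p2 a) (((SD.bex (.add (.var 1) .one)
      (SD.eq h.ne (.var 2) (prT (.var 0) (.var 3)))).or
      ((SD.eq h.ne (.var 2) .zero).and (sd_nonpair h))).of_iff fun v => ?_) ih ih
    rw [p2_eq_iff]
    refine or_congr ?_ Iff.rfl
    change (∃ z < v 1 + 1, v 1 = pr z (v 2)) ↔ _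
    exact ⟨fun ⟨z, _, h⟩ => ⟨z, h⟩, fun ⟨z, h⟩ => ⟨z, lt_succ_iff'.2 (h ▸ le_pr_left _ _), h⟩⟩
  | add _ _ ih1 ih2 =>
    exact graph_op h (op := fun a b => a + b) (SD.eq h.ne (.add (.var 1) (.var 0)) (.var 2)) ih1 ih2
  | mul _ _ ih1 ih2 =>
    exact graph_op h (op := fun a b => a * b) (SD.eq h.ne (.mul (.var 1) (.var 0)) (.var 2)) ih1 ih2

theorem pre_of_ax (h : Ax1 (strOf M S)) : Pre S where
  basic := by
    intro f hf Q hQ
    obtain ⟨Γ, hΓ, e⟩ := graph_basic h hf
    have h1 := SD.mem (A := strOf M S) (prT (.var 1) (.var 0)) hΓ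
    have h2 := SD.mem (A := strOf M S) (.var 0) hQ
    obtain ⟨X, hX, e2⟩ := h.ca _ _ (h1.and h2) (h1.imp h2) (fun _ => 0) (by
      intro x
      change (∃ y, Γ (pr x y) ∧ Q y) ↔ ∀ y, Γ (pr x y) → Q y
      simp [e])
    refine mem_congr hX fun x => (e2 x).trans ?_
    change (∃ y, Γ (pr x y) ∧ Q y) ↔ _
    simp [e]
  lt := by
    refine mem_congr (mem_of_sd h (SD.bex (.add (.var 0) .one) (SD.bex (.add (.var 1) .one)
      ((SD.eq h.ne (.var 2) (prT (.var 1) (.var 0))).and (SD.lt h.ne (.var 1) (.var 0)))))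
      (fun _ => 0)) fun u => ?_
    change (∃ a < u + 1, ∃ b < u + 1, u = pr a b ∧ a < b) ↔ _
    constructor
    · rintro ⟨a, -, b, -, rfl, h⟩; simpa using h
    · intro h1
      by_cases h2 : ∃ a b, u = pr a b
      · obtain ⟨a, b, rfl⟩ := h2
        exact ⟨a, lt_succ_iff'.2 (le_pr_left _ _), b, lt_succ_iff'.2 (le_pr_right _ _), rfl,
          by simpa using h1⟩
      · rw [(p2_eq_iff u 0).2 (Or.inr ⟨rfl, h2⟩)] at h1
        simp at h1
  nand := fun hP hQ => mem_of_sd h ((SD.mem (A := strOf M S) (.var 0) hP).and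
    (SD.mem (A := strOf M S) (.var 0) hQ)).not (fun _ => 0)
  ball := by
    intro Q hQ
    refine mem_congr (mem_of_sd h (SD.ball (.add (.var 0) .one) (SD.ball (.add (.var 1) .one)
      ((SD.eq h.ne (.var 2) (prT (.var 1) (.var 0))).imp (SD.ball (.var 0)
        (SD.mem (A := strOf M S) (prT (.var 2) (.var 0)) hQ))))) (fun _ => 0)) fun u => ?_
    change (∀ a < u + 1, ∀ b < u + 1, u = pr a b → ∀ x < b, Q (pr a x)) ↔ _
    by_cases h2 : ∃ a b, u = pr a b
    · obtain ⟨a, b, rfl⟩ := h2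
      simp only [p1_pr, p2_pr]
      constructor
      · intro h1
        exact h1 a (lt_succ_iff'.2 (le_pr_left _ _)) b (lt_succ_iff'.2 (le_pr_right _ _)) rfl
      · intro h1 a' _ b' _ h3
        obtain ⟨rfl, rfl⟩ := pr_inj h3
        exact h1
    · rw [(p2_eq_iff u 0).2 (Or.inr ⟨rfl, h2⟩)]
      exact iff_of_true (fun a _ b _ h3 => absurd ⟨a, b, h3⟩ h2) (by simp)
  delta := by
    intro P Q hP hQ e
    obtain ⟨X, hX, e2⟩ := h.ca _ _ (SD.mem (A := strOf M S) (prT (.var 1) (.var 0)) hP)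
      (SD.mem (A := strOf M S) (prT (.var 1) (.var 0)) hQ) (fun _ => 0) e
    exact mem_congr hX e2

theorem g1_of_ax (h : Ax1 (strOf M S)) : G1 S :=
  { pre_of_ax h with
    ind := fun hQ => h.ind1 (SD.mem (A := strOf M S) (prT (.var 1) (.var 0)) hQ) (fun _ => 0) }

theorem rec_tm [Pre S] {α : Type} [Cd M α] {v : ℕ → α → M} (hv : ∀ i, Rec S (v i)) (t : Tm) :
    Rec S (fun a => (t.eval (strOf M S) (fun i => v i a) : M)) := by
  induction t with
  | var i => exact hv i
  | zero => exact Rec.const (0 : M)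
  | one => exact Rec.const (1 : M)
  | add s t ih1 ih2 => exact ih1.add ih2
  | mul s t ih1 ih2 => exact ih1.mul ih2

theorem cons_env {α : Type} (v : ℕ → α → M) (a : α) (x : M) :
    cons x (fun i => v i a) =
      fun i => cons (fun p : α × M => p.2) (fun i (p : α × M) => v i p.1) i (a, x) := by
  funext i; cases i <;> rfl

theorem rec_cons [Pre S] {α : Type} [Cd M α] {v : ℕ → α → M} (hv : ∀ i, Rec S (v i)) :
    ∀ i, Rec S (cons (fun p : α × M => p.2) (fun i (p : α × M) => v i p.1) i) := by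
  intro i
  cases i with
  | zero => exact rec_snd
  | succ i => exact (hv i).comp rec_fst

theorem rec_d0 [Pre S] {φ : Fm} (hφ : D0 φ) {ρ : ℕ → Set M} (hρ : ∀ j, ρ j ∈ S) :
    ∀ {α : Type} [Cd M α] {v : ℕ → α → M}, (∀ i, Rec S (v i)) →
      Rec S (fun a => φ.eval (strOf M S) (fun i => v i a) ρ) := by
  induction hφ with
  | eq s t => intro α _ v hv; exact (rec_tm hv s).eq (rec_tm hv t)
  | lt s t => intro α _ v hv; exact (rec_tm hv s).lt (rec_tm hv t)
  | mem t j => intro α _ v hv; exact (rec_iff_mem.2 (hρ j)).comp (rec_tm hv t)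
  | bot => intro α _ v _; exact Rec.const False
  | imp _ _ ih1 ih2 => intro α _ v hv; exact (ih1 hv).imp (ih2 hv)
  | @ball t φ _ ih =>
    intro α _ v hv
    refine (Rec.ball (Q := fun a x => φ.eval (strOf M S) (cons x fun i => v i a) ρ) (rec_tm hv t)
      ((ih (rec_cons hv)).of_iff fun p => by rw [cons_env])).of_iff fun a => ?_
    have e := fun x => Tm.eval_up (strOf M S) x (fun i => v i a) t
    simp only [Fm.eval, Tm.eval, cons_zero]
    exact forall_congr' fun x => imp_congr_left (by rw [e x])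
  | @bex t φ _ ih =>
    intro α _ v hv
    refine (Rec.bex (Q := fun a x => φ.eval (strOf M S) (cons x fun i => v i a) ρ) (rec_tm hv t)
      ((ih (rec_cons hv)).of_iff fun p => by rw [cons_env])).of_iff fun a => ?_
    have e := fun x => Tm.eval_up (strOf M S) x (fun i => v i a) t
    simp only [Fm.eval_exN, Fm.eval_and, Fm.eval, Tm.eval, cons_zero]
    exact exists_congr fun x => and_congr_left' (by rw [e x])

theorem rec_d0_two [Pre S] {φ : Fm} (hφ : D0 φ) {ρ : ℕ → Set M} (hρ : ∀ j, ρ j ∈ S)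
    (v : ℕ → M) : Rec S (fun p : M × M => φ.eval (strOf M S) (cons p.2 (cons p.1 v)) ρ) := by
  refine (rec_d0 hφ hρ (α := M × M)
    (v := cons (fun p => p.2) (cons (fun p => p.1) fun i _ => v i)) ?_).of_iff fun p => ?_
  · rintro (_ | _ | i)
    · exact rec_snd
    · exact rec_fst
    · exact Rec.const _
  · refine iff_of_eq ?_
    congr 1
    funext i
    rcases i with _ | _ | i <;> rfl

theorem valid_of_g1 [G1 S] : ∀ ψ ∈ RCA0, (strOf M S).Valid ψ := by
  rintro ψ ((h | ⟨θ, h, rfl⟩) | ⟨θ, η, h, h', rfl⟩) v ρ hρ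
  · simp only [Set.mem_insert_iff, Set.mem_singleton_iff] at h
    rcases h with rfl | rfl | rfl | rfl | rfl | rfl | rfl | rfl
    · exact (lt_of_le_of_lt zero_le (lt_succ_self' (v 0))).ne'
    · exact fun h => add_right_cancel h
    · exact add_zero (v 0)
    · exact (add_assoc (v 0) (v 1) 1).symm
    · exact mul_zero (v 0)
    · exact mul_add_one (v 0) (v 1)
    · exact not_lt_zero
    · rw [Fm.eval_iff, Fm.eval_or]; exact lt_succ_iff_lt_or_eq
  · rw [eval_indAx]
    simp only [Fm.eval_exN]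
    exact Sig1.ind (S := S) (P := fun x => ∃ y, θ.eval (strOf M S) (cons y (cons x v)) ρ)
      (Sig1.exists (rec_d0_two h hρ v).sig1)
  · rw [eval_caAx]
    simp only [Fm.eval_exN, Fm.eval]
    intro e
    have h1 : Rec S (fun x => ∃ y, θ.eval (strOf M S) (cons y (cons x v)) ρ) :=
      Rec.delta (Sig1.exists (rec_d0_two h hρ v).sig1)
        ((Pi1.forall (Q := fun x y => η.eval (strOf M S) (cons y (cons x v)) ρ)
          (rec_d0_two h' hρ v).pi1).of_iff fun x => (e x).symm)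
    exact ⟨_, rec_iff_mem.1 h1, fun _ => Iff.rfl⟩

theorem eval_numeral (k d : ℕ) (v : ℕ → M) : (Numeral k d).eval (strOf M S) v = (k : M) := by
  induction k with
  | zero => exact Nat.cast_zero.symm
  | succ k ih => simp only [Numeral, Tm.eval, ih]; exact (Nat.cast_succ k).symm

/-- The meaning of the sentence `PRT k`. -/
theorem eval_PRT [IM M] (k : ℕ) (v : ℕ → M) (ρ : ℕ → Set M) :
    (PRT k).eval (strOf M S) v ρ ↔ PRTc k S := by
  simp only [PRT, Arr, Col, Card, FinElt, Leq, AllS, ExS, All, Ex, Imp, Conj, Disj, Eqv, Equ, Less,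
    Elt, Pair, Plus, Times, T1, Fm.eval, Fm.eval_exN, Fm.eval_exS, Fm.eval_and, Fm.eval_or,
    Fm.eval_iff, Tm.eval, eval_numeral, Nat.reduceAdd, Nat.reduceSub, cons_zero, cons_succ,
    ← le_iff_lt_or_eq]
  rfl

/-- The meaning of the sentence `RT22`. -/
theorem eval_RT22 (v : ℕ → M) (ρ : ℕ → Set M) :
    RT22.eval (strOf M S) v ρ ↔ RTc S := by
  simp only [RT22, Col, Leq, AllS, ExS, All, Ex, Imp, Conj, Disj, Equ, Less,
    Elt, Pair, Plus, Times, T1, Fm.eval, Fm.eval_exN, Fm.eval_exS, Fm.eval_and, Fm.eval_or,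
    Tm.eval, eval_numeral, Nat.reduceAdd, Nat.reduceSub, cons_zero, cons_succ,
    ← le_iff_lt_or_eq]
  rfl

theorem arith_eval_iff {φ : Fm} (h : Arith φ) (S S' : Set (M → Prop)) :
    ∀ (v : ℕ → M) (ρ : ℕ → Set M), φ.eval (strOf M S) v ρ ↔ φ.eval (strOf M S') v ρ := by
  have tm : ∀ (t : Tm) (v : ℕ → M), t.eval (strOf M S) v = t.eval (strOf M S') v := by
    intro t v
    induction t <;> simp [Tm.eval, *]
  induction h with
  | eq s t => intro v ρ; simp only [Fm.eval, tm]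
  | lt s t => intro v ρ; simp only [Fm.eval, tm]
  | mem t j => intro v ρ; simp only [Fm.eval, tm]
  | bot => intro v ρ; rfl
  | imp _ _ ih1 ih2 => intro v ρ; simp only [Fm.eval, ih1, ih2]
  | allN _ ih => intro v ρ; simp only [Fm.eval, ih]

/-- Satisfaction depends only on the values of the free set variables. -/
theorem eval_congrS (A : Str) (φ : Fm) : ∀ (v : ℕ → A.M) (ρ ρ' : ℕ → Set A.M),
    (∀ j < φ.bdS, ρ j = ρ' j) → (φ.eval A v ρ ↔ φ.eval A v ρ') := by
  induction φ with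
  | eq s t => intro v ρ ρ' _; rfl
  | lt s t => intro v ρ ρ' _; rfl
  | mem t j => intro v ρ ρ' h; simp only [Fm.eval, h j (Nat.lt_succ_self j)]
  | bot => intro v ρ ρ' _; rfl
  | imp φ ψ ih1 ih2 =>
    intro v ρ ρ' h
    exact imp_congr (ih1 v ρ ρ' fun j hj => h j (lt_max_of_lt_left hj))
      (ih2 v ρ ρ' fun j hj => h j (lt_max_of_lt_right hj))
  | allN φ ih => intro v ρ ρ' h; exact forall_congr' fun x => ih _ ρ ρ' h
  | allS φ ih =>
    intro v ρ ρ' h
    refine forall_congr' fun X => imp_congr_right fun _ => ih v _ _ ?_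
    rintro (_ | j) hj
    · rfl
    · exact h j (by change j < φ.bdS - 1; omega)

/-- The failure of a universal formula is witnessed by finitely many sets. -/
theorem pi11_fail {φ : Fm} (h : Pi11 φ) (v : ℕ → M) : ∀ ρ : ℕ → Set M,
    ¬ φ.eval (strOf M S) v ρ → ∀ X0 ∈ S, ∃ (L : ℕ → M → Prop) (n : ℕ), (∀ j, L j ∈ S) ∧
      ∀ T : Set (M → Prop), (∀ j < n, L j ∈ T) → ¬ φ.eval (strOf M T) v ρ := by
  induction h with
  | arith h =>
    intro ρ hn X0 hX0
    exact ⟨fun _ => X0, 0, fun _ => hX0, fun T _ h1 => hn ((arith_eval_iff h S T v ρ).2 h1)⟩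
  | @allS φ _ ih =>
    intro ρ hn X0 hX0
    have h1 : ∃ X ∈ S, ¬ φ.eval (strOf M S) v (cons X ρ) := by
      by_contra h2
      exact hn fun X hX => by_contra fun h3 => h2 ⟨X, hX, h3⟩
    obtain ⟨X, hX, h2⟩ := h1
    obtain ⟨L, n, hL, h3⟩ := ih _ h2 X0 hX0
    refine ⟨cons X L, n + 1, ?_, fun T hT h4 => ?_⟩
    · rintro (_ | j)
      · exact hX
      · exact hL j
    · exact h3 T (fun j hj => hT (j + 1) (by omega)) (h4 X (hT 0 (by omega)))

theorem conservation (k : ℕ) (θ : Fm) (hθ : Pi11 θ)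
    (h : Prf (RCA0 ∪ {RT22} ∪ {PRT k}) [] θ) : Prf (RCA0 ∪ {RT22}) [] θ := by
  by_contra hn
  obtain ⟨A, hc, -, hne, hA, hθ'⟩ := exists_countermodel hn
  have hax := ax1_of_valid hne fun ψ hψ => hA ψ (Or.inl hψ)
  let _ := hax.pa
  have hg : G1 (M := A.M) A.S := g1_of_ax (M := A.M) (S := A.S) hax
  have := IM.of_good (M := A.M) A.S
  have h0 : ∃ v ρ, (∀ j, ρ j ∈ A.S) ∧ ¬ θ.eval A v ρ := by
    by_contra h1
    exact hθ' fun v ρ hρ => by_contra fun h2 => h1 ⟨v, ρ, hρ, h2⟩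
  obtain ⟨v, ρ, hρ, hf⟩ := h0
  have hrt : RTc (M := A.M) A.S :=
    (eval_RT22 (M := A.M) (S := A.S) v ρ).1 (hA RT22 (Or.inr rfl) v ρ hρ)
  have hg2 : G2 (M := A.M) A.S := g2_of_rt (M := A.M) A.S hrt
  obtain ⟨L, n, hL, hfail⟩ := pi11_fail (M := A.M) (S := A.S) hθ v ρ hf _ (hρ 0)
  obtain ⟨T0, hT0, -, hin⟩ := exists_nice_base (M := A.M) A.S
    (fun j => if j < n then L j else ρ (j - n))
    (fun j => by
      by_cases h1 : j < n
      · rw [if_pos h1]; exact hL j
      · rw [if_neg h1]; exact hρ _) (n + θ.bdS + 1)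
  obtain ⟨T, hT, hsub, hR, hP⟩ := exists_rt_prt_ext (M := A.M) k T0 hT0
  have hρT : ∀ j ≤ θ.bdS, ρ j ∈ T := by
    intro j hj
    have h1 := hin (n + j) (by omega)
    rw [if_neg (by omega), Nat.add_sub_cancel_left] at h1
    exact hsub h1
  have hv := (prf_iff _ _).1 h (strOf A.M T) (by
    rintro ψ ((hψ | rfl) | rfl)
    · exact valid_of_g1 ψ hψ
    · exact fun v ρ _ => (eval_RT22 v ρ).2 hR
    · exact fun v ρ _ => (eval_PRT k v ρ).2 hP)
  refine hfail T (fun j hj => ?_) ?_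
  · have h1 := hin j (by omega)
    rw [if_pos hj] at h1
    exact hsub h1
  · exact (eval_congrS (strOf A.M T) θ v (fun j => ρ (min j θ.bdS)) ρ
      (fun j hj => by rw [min_eq_left hj.le])).1
      (hv v _ fun j => hρT _ (min_le_right _ _))

end Pool.Agent.Lib.MP_706ff3_lc.B
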