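import Pool.Agent.Lib.MP_706ff3_lc.B.WKL

/-!
A low system of partitions and a set choosing one part of each partition.
-/

set_option autoImplicit false
set_option linter.unusedSectionVars false

namespace Pool.Agent.Lib.MP_706ff3_lc.B

open Classical

variable {M : Type} [PA M] [IM M]

/-- The intersection of the parts listed in the finite set `ρ`. -/
def RR (X : M → Prop) (ρ y : M) : Prop := ∀ w, mem w ρ → X (pr w y)

/-- No witness below `l` lives inside `R` and one part of `κ`. -/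
def GoodUp (K : M) (Wit : M × M × M → Prop) (El : M × M × M × M → Prop) (R : M → Prop)
    (κ : M → M → Prop) (q l : M) : Prop :=
  ∀ s < K, ∀ t < l, Wit (q, s, t) → ¬ ∀ y ≤ t, El (q, s, t, y) → R y ∧ κ s y

def Cov (K : M) (κ : M → M → Prop) (l : M) : Prop := ∀ y < l, ∃ s < K, κ s y

def ColOK (K : M) (Wit : M × M × M → Prop) (El : M × M × M × M → Prop) (X : M → Prop)
    (a l : M) : Prop :=
  Cov K (fun s y => X (pr (pr a s) y)) l ∧
    ((∃ κ < bnd (pr K l), Cov K (fun s y => mem (pr s y) κ) l ∧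
      GoodUp K Wit El (RR X (p1 a)) (fun s y => mem (pr s y) κ) (p2 a) l) →
    GoodUp K Wit El (RR X (p1 a)) (fun s y => X (pr (pr a s) y)) (p2 a) l)

variable {K : M} {Wit : M × M × M → Prop} {El : M × M × M × M → Prop}

theorem GoodUp.mono {R R' : M → Prop} {κ κ' : M → M → Prop} {q l l' : M}
    (h : GoodUp K Wit El R κ q l) (hl : l' ≤ l) (hR : ∀ y < l', R' y → R y)
    (hκ : ∀ s < K, ∀ y < l', κ' s y → κ s y) : GoodUp K Wit El R' κ' q l' :=
  fun s hs t ht hw h1 => h s hs t (ht.trans_le hl) hw fun y hy he =>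
    ⟨hR y (hy.trans_lt ht) (h1 y hy he).1, hκ s hs y (hy.trans_lt ht) (h1 y hy he).2⟩

theorem Cov.mono {κ κ' : M → M → Prop} {l l' : M} (h : Cov K κ l) (hl : l' ≤ l)
    (hκ : ∀ s < K, ∀ y < l', κ s y → κ' s y) : Cov K κ' l' := fun y hy =>
  (h y (hy.trans_le hl)).imp fun s hs => ⟨hs.1, hκ s hs.1 y hy hs.2⟩

theorem RR.congr {X X' : M → Prop} {a y : M} (e : ∀ w < a, X (pr w y) → X' (pr w y))
    (h : RR X (p1 a) y) : RR X' (p1 a) y :=
  fun w hw => e w ((mem_lt hw).trans_le (p1_le a)) (h w hw)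

theorem ColOK.congr {X X' : M → Prop} {a l : M} (h : ColOK K Wit El X a l)
    (e : ∀ w y, p1 w ≤ a → w ≤ pr a K → y < l → (X (pr w y) ↔ X' (pr w y))) :
    ColOK K Wit El X' a l := by
  have e1 : ∀ w < a, ∀ y < l, (X (pr w y) ↔ X' (pr w y)) := fun w hw y hy =>
    e w y ((p1_le w).trans hw.le) (hw.le.trans (le_pr_left _ _)) hy
  have e2 : ∀ s < K, ∀ y < l, (X (pr (pr a s) y) ↔ X' (pr (pr a s) y)) := fun s hs y hy =>
    e _ y (by simp) (pr_le_pr le_rfl hs.le) hy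
  refine ⟨h.1.mono le_rfl fun s hs y hy => (e2 s hs y hy).1, ?_⟩
  rintro ⟨κ, h1, h2, h3⟩
  exact (h.2 ⟨κ, h1, h2, h3.mono le_rfl (fun y hy => RR.congr fun w hw => (e1 w hw y hy).1)
    fun _ _ _ _ h => h⟩).mono le_rfl (fun y hy => RR.congr fun w hw => (e1 w hw y hy).2)
    fun s hs y hy => (e2 s hs y hy).2

variable {S : Set (M → Prop)} [Star S]

theorem col_step (hK : 0 < K) (hW : Rec S Wit) (hE : Rec S El) (w a c : M) :
    ∃ X : M → Prop, Rec S X ∧ (∀ v, p1 (p1 v) ≠ a → (X v ↔ mem v c)) ∧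
      ∀ l ≤ w, ColOK K Wit El X a l := by
  obtain ⟨l0, ⟨hl0, κ, -, h1, h2⟩, h3⟩ := Rec.greatest (S := S) (P := fun l => l ≤ w ∧
    ∃ κ < bnd (pr K l), Cov K (fun s y => mem (pr s y) κ) l ∧
      GoodUp K Wit El (RR (fun x => mem x c) (p1 a)) (fun s y => mem (pr s y) κ) (p2 a) l)
    (by unfold GoodUp Cov RR; fun_prop) (x := 0) (b := w)
    ⟨zero_le, by
      obtain ⟨c', h, -⟩ := bnd_spec (pr K 0) 0
      exact ⟨c', h, fun y hy => absurd hy not_lt_zero, fun s _ t ht => absurd ht not_lt_zero⟩⟩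
    fun y hy => hy.1
  have e : ∀ v < a, ∀ y, p1 (p1 (pr v y)) ≠ a := fun v hv y => by
    rw [p1_pr]; exact ((p1_le v).trans_lt hv).ne
  refine ⟨fun v => (p1 (p1 v) = a → p2 v < l0 → mem (pr (p2 (p1 v)) (p2 v)) κ) ∧
    (p1 (p1 v) ≠ a → mem v c), by fun_prop, fun v hv => by simp [hv], fun l hl => ⟨?_, ?_⟩⟩
  · intro y _
    by_cases hy : y < l0
    · obtain ⟨s, hs, h4⟩ := h1 y hy
      exact ⟨s, hs, by simpa using fun _ => h4⟩
    · exact ⟨0, hK, by simp [hy]⟩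
  · rintro ⟨κ', h4, h5, h6⟩
    have h7 : l ≤ l0 := h3 l ⟨hl, κ', h4, h5, h6.mono le_rfl
      (fun y _ => RR.congr fun v hv h => ⟨fun h' => absurd h' (e v hv y), fun _ => h⟩)
      fun _ _ _ _ h => h⟩
    exact h2.mono h7 (fun y _ => RR.congr fun v hv h => h.2 (e v hv y))
      fun s _ y hy h => by simpa using h.1 (by simp) (by simpa using hy.trans_le h7)

theorem part_tree (hK : 0 < K) (hW : Rec S Wit) (hE : Rec S El) :
    InfT (fun z c => ∀ a ≤ z, ∀ l ≤ z, pr (pr a K) l ≤ z →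
      ColOK K Wit El (fun x => mem x c) a l) := by
  intro w
  have key := Rec.ind (S := S) (P := fun a0 => ∃ c < bnd w, ∀ a < a0, ∀ l ≤ w, pr (pr a K) l ≤ w →
    ColOK K Wit El (fun x => mem x c) a l) (by unfold ColOK GoodUp Cov RR; fun_prop) (by
      obtain ⟨c', h, -⟩ := bnd_spec w 0
      exact ⟨c', h, fun a ha => absurd ha not_lt_zero⟩) (by
      rintro a0 ⟨c, -, hc⟩
      obtain ⟨X, hX, h1, h2⟩ := col_step hK hW hE w a0 c
      refine ⟨res X w, hX.reg.res_lt_bnd w, fun a ha l hl hal => ?_⟩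
      have h3 : ∀ v y, v ≤ pr a K → y < l → pr v y < w := fun v y hv hy =>
        (pr_lt_pr' hv hy).trans_le hal
      rcases lt_succ_iff_lt_or_eq.1 ha with h4 | rfl
      · refine ColOK.congr (hc a h4 l hl hal) fun v y h5 h6 h7 => ?_
        rw [hX.reg.mem_res, h1 _ (by rw [p1_pr]; exact (h5.trans_lt h4).ne)]
        simp [h3 v y h6 h7]
      · refine ColOK.congr (h2 l hl) fun v y _ h6 h7 => ?_
        rw [hX.reg.mem_res]
        simp [h3 v y h6 h7]) (w + 1)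
  obtain ⟨c, -, hc⟩ := key
  refine ⟨c, fun z hz a ha l hl hal => ColOK.congr
    (hc a (lt_succ_iff'.2 (ha.trans hz)) l (hl.trans hz) (hal.trans hz)) fun v y _ h6 h7 => ?_⟩
  rw [mem_res_mem]
  simp [(pr_lt_pr' h6 h7).trans_le hal]

theorem exists_part [Countable M] (hS : Nice S) (hK : 0 < K) (hW : Rec S Wit) (hE : Rec S El) :
    ∃ C W, StarExt S C ∧ Star W ∧ W.Countable ∧ Below (ext S C) W ∧
      (∀ a y, ∃ s < K, C (pr (pr a s) y)) ∧
      ∀ a (δ : M → M → Prop), Reg (fun v => δ (p1 v) (p2 v)) → (∀ y, ∃ s < K, δ s y) →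
        (∀ l, GoodUp K Wit El (RR C (p1 a)) δ (p2 a) l) →
        ∀ l, GoodUp K Wit El (RR C (p1 a)) (fun s y => C (pr (pr a s) y)) (p2 a) l := by
  obtain ⟨C, W, h1, h2, h3, h4, h5⟩ := low_basis hS (Q0 := fun z c => ∀ a ≤ z, ∀ l ≤ z,
    pr (pr a K) l ≤ z → ColOK K Wit El (fun x => mem x c) a l)
    (by unfold ColOK GoodUp Cov RR; fun_prop) (part_tree hK hW hE)
  have h6 : ∀ a l, ColOK K Wit El C a l := fun a l =>
    ColOK.congr (h5 (pr (pr a K) l) a ((le_pr_left _ _).trans (le_pr_left _ _)) l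
      (le_pr_right _ _) le_rfl) fun v y _ h6 h7 => by
        rw [h1.reg.mem_res]; simp [pr_lt_pr' h6 h7]
  refine ⟨C, W, h1, h2, h3, h4, fun a y => (h6 a (y + 1)).1 y (lt_succ_self' y),
    fun a δ hδ h7 h8 l => (h6 a l).2 ⟨_, hδ.res_lt_bnd _, fun y hy => ?_, (h8 l).mono le_rfl
      (fun _ _ h => h) fun s _ y _ h => by simpa using (hδ.mem_res.1 h).2⟩⟩
  obtain ⟨s, hs, h9⟩ := h7 y
  exact ⟨s, hs, hδ.mem_res.2 ⟨pr_lt_pr hs hy.le, by simpa using h9⟩⟩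

theorem exists_ultra [Countable M] {W : Set (M → Prop)} [Star W] (hW : W.Countable)
    (hSW : Below S W) {C : M → Prop} (hC : Rec S C) (hcov : ∀ a y, ∃ s < K, C (pr (pr a s) y))
    {Blk : M → M → Prop} (hB : Rec S (fun p : M × M => Blk p.1 p.2))
    (hm : ∀ n n' B, n' ≤ n → Blk n B → Blk n' B) (hne : ∀ n B, Blk n B → ∃ x, mem x (p1 B))
    (big : ∀ lab : M → M, Rec W lab → ∀ p, (∀ y, lab y < p) →
      ∀ n, ∃ B, Blk n B ∧ ∃ j, ∀ y, mem y (p1 B) → lab y = j) :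
    ∃ P, StarExt W P ∧ (∀ a, ∃ s < K, P (pr a s)) ∧
      ∀ z, ∃ B, Blk z B ∧ ∀ y, mem y (p1 B) → RR C (res P z) y := by
  have h1 : Rec W (fun p : M × M => ∃ B, (fun p : M × M => Blk p.1 p.2) (p.1, B) ∧
      ∀ y, mem y (p1 B) → RR C p.2 y) :=
    hSW.sig1 (Sig1.exists (Rec.sig1 (by unfold RR; fun_prop)))
  have hC' := hC.mono hSW.subset
  obtain ⟨P, hP, h2⟩ := exists_path_ext hW (Q0 := fun z c =>
    (∀ a ≤ z, pr a K ≤ z → ∃ s < K, mem (pr a s) c) ∧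
      ∃ B, Blk z B ∧ ∀ y, mem y (p1 B) → RR C c y) (Rec.and (by fun_prop) h1) (by
    intro w
    have hr : ∀ y, Reg (fun v => C (pr v y)) := fun y =>
      Rec.reg (S := W) (by fun_prop)
    obtain ⟨B, h2, j, h3⟩ := big (fun y => res (fun v => C (pr v y)) w) (by fun_prop) (bnd w)
      (fun y => (hr y).res_lt_bnd w) w
    obtain ⟨y0, hy0⟩ := hne _ _ h2
    refine ⟨j, fun z hz => ⟨fun a _ ha => ?_, B, hm _ _ _ hz h2, fun y hy v hv => ?_⟩⟩
    · obtain ⟨s, hs, h4⟩ := hcov a y0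
      have h5 := (pr_lt_pr' le_rfl hs).trans_le ha
      exact ⟨s, hs, mem_res_mem.2 ⟨h5, h3 y0 hy0 ▸ (hr y0).mem_res.2 ⟨h5.trans_le hz, h4⟩⟩⟩
    · have h4 := (mem_res_mem.1 hv).2
      rw [← h3 y hy] at h4
      exact ((hr y).mem_res.1 h4).2)
  refine ⟨P, hP, fun a => ?_, fun z => (h2 z).2⟩
  obtain ⟨s, hs, h3⟩ := (h2 (pr a K)).1 a (le_pr_left _ _) le_rfl
  exact ⟨s, hs, (hP.reg.mem_res.1 h3).2⟩

end Pool.Agent.Lib.MP_706ff3_lc.B
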