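import Mathlib

/-!
Semantic layer: discretely ordered semirings, pairing, Turing-ideal-like families `S` of
subsets and the property `Rec S f` (the graph of `f` belongs to `S`).
-/

set_option autoImplicit false
set_option linter.unusedSectionVars false

namespace Pool.Agent.Lib.MP_706ff3_lc.B

open Classical

/-- Discretely ordered commutative semirings (models of the basic theory of `PA` minus induction). -/
class PA (M : Type) extends CommSemiring M, LinearOrder M where
  so : IsStrictOrderedRing M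
  co : CanonicallyOrderedAdd M
  lt_succ : ∀ x y : M, x < y + 1 ↔ x ≤ y

attribute [instance] PA.so PA.co

variable {M : Type} [PA M]

theorem lt_succ_iff' {x y : M} : x < y + 1 ↔ x ≤ y := PA.lt_succ x y

theorem succ_le_iff' {x y : M} : x + 1 ≤ y ↔ x < y := by
  rw [← not_lt, lt_succ_iff', not_le]

theorem lt_succ_self' (x : M) : x < x + 1 := lt_succ_iff'.2 le_rfl

theorem lt_succ_iff_lt_or_eq {x y : M} : x < y + 1 ↔ x < y ∨ x = y := by
  rw [lt_succ_iff', le_iff_lt_or_eq]

theorem zero_or_succ (x : M) : x = 0 ∨ ∃ y, x = y + 1 := by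
  rcases eq_or_ne x 0 with h | h
  · exact Or.inl h
  · right
    have h1 : (0 : M) + 1 ≤ x := succ_le_iff'.2 (pos_iff_ne_zero.2 h)
    obtain ⟨c, hc⟩ := exists_add_of_le h1
    exact ⟨c, by rw [hc]; ring⟩

theorem one_le_of_ne_zero {x : M} (h : x ≠ 0) : 1 ≤ x := by
  have h1 : (0 : M) + 1 ≤ x := succ_le_iff'.2 (pos_iff_ne_zero.2 h)
  simpa using h1

/-- The pairing function `(x + y)^2 + x`. -/
def pr (x y : M) : M := (x + y) * (x + y) + x

theorem pr_lt_of_sum_lt {x y x' y' : M} (h : x + y < x' + y') : pr x y < pr x' y' := by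
  have h1 : x + y + 1 ≤ x' + y' := succ_le_iff'.2 h
  have h2 : (x + y + 1) * (x + y + 1) ≤ (x' + y') * (x' + y') := mul_le_mul' h1 h1
  have h3 : pr x y < (x + y + 1) * (x + y + 1) := by
    have : (x + y + 1) * (x + y + 1) = pr x y + (x + y + y) + 1 := by unfold pr; ring
    rw [this, lt_succ_iff']
    exact le_self_add
  exact lt_of_lt_of_le h3 (h2.trans le_self_add)

theorem pr_inj {x y x' y' : M} (h : pr x y = pr x' y') : x = x' ∧ y = y' := by
  have hs : x + y = x' + y' := by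
    rcases lt_trichotomy (x + y) (x' + y') with h1 | h1 | h1
    · exact absurd h (pr_lt_of_sum_lt h1).ne
    · exact h1
    · exact absurd h (pr_lt_of_sum_lt h1).ne'
  unfold pr at h
  rw [hs] at h
  have hx : x = x' := add_left_cancel h
  subst hx
  exact ⟨rfl, add_left_cancel hs⟩

@[simp] theorem pr_eq_iff {x y x' y' : M} : pr x y = pr x' y' ↔ x = x' ∧ y = y' :=
  ⟨pr_inj, by rintro ⟨rfl, rfl⟩; rfl⟩

theorem le_mul_self' (x : M) : x ≤ x * x := by
  rcases eq_or_ne x 0 with h | h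
  · simp [h]
  · exact le_mul_of_one_le_left (zero_le) (one_le_of_ne_zero h)

theorem le_pr_left (x y : M) : x ≤ pr x y := le_add_self

theorem le_pr_right (x y : M) : y ≤ pr x y :=
  (le_add_self.trans (le_mul_self' (x + y))).trans le_self_add

theorem pr_le_pr {x y x' y' : M} (h1 : x ≤ x') (h2 : y ≤ y') : pr x y ≤ pr x' y' := by
  unfold pr; gcongr

theorem pr_lt_pr {x y x' y' : M} (h1 : x < x') (h2 : y ≤ y') : pr x y < pr x' y' :=
  pr_lt_of_sum_lt (add_lt_add_of_lt_of_le h1 h2)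

theorem pr_lt_pr' {x y x' y' : M} (h1 : x ≤ x') (h2 : y < y') : pr x y < pr x' y' :=
  pr_lt_of_sum_lt (add_lt_add_of_le_of_lt h1 h2)

/-- First projection (zero on non-pairs). -/
noncomputable def p1 (u : M) : M := if h : ∃ p : M × M, u = pr p.1 p.2 then h.choose.1 else 0

/-- Second projection (zero on non-pairs). -/
noncomputable def p2 (u : M) : M := if h : ∃ p : M × M, u = pr p.1 p.2 then h.choose.2 else 0

@[simp] theorem p1_pr (x y : M) : p1 (pr x y) = x := by
  have h : ∃ p : M × M, pr x y = pr p.1 p.2 := ⟨(x, y), rfl⟩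
  unfold p1; rw [dif_pos h]; exact (pr_inj h.choose_spec).1.symm

@[simp] theorem p2_pr (x y : M) : p2 (pr x y) = y := by
  have h : ∃ p : M × M, pr x y = pr p.1 p.2 := ⟨(x, y), rfl⟩
  unfold p2; rw [dif_pos h]; exact (pr_inj h.choose_spec).2.symm

theorem p1_le (u : M) : p1 u ≤ u := by
  unfold p1; split_ifs with h
  · conv_rhs => rw [h.choose_spec]
    exact le_pr_left _ _
  · exact zero_le

theorem p2_le (u : M) : p2 u ≤ u := by
  unfold p2; split_ifs with h
  · conv_rhs => rw [h.choose_spec]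
    exact le_pr_right _ _
  · exact zero_le

theorem p1_eq_iff (u y : M) :
    p1 u = y ↔ (∃ z, u = pr y z) ∨ (y = 0 ∧ ¬ ∃ a b, u = pr a b) := by
  by_cases h : ∃ a b, u = pr a b
  · obtain ⟨a, b, rfl⟩ := h
    simp
  · have h' : ¬ ∃ p : M × M, u = pr p.1 p.2 := fun ⟨p, hp⟩ => h ⟨_, _, hp⟩
    unfold p1; rw [dif_neg h']
    constructor
    · intro h0; exact Or.inr ⟨h0.symm, h⟩
    · rintro (⟨z, hz⟩ | ⟨h0, -⟩)
      · exact absurd ⟨_, _, hz⟩ h
      · exact h0.symm

theorem p2_eq_iff (u y : M) :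
    p2 u = y ↔ (∃ z, u = pr z y) ∨ (y = 0 ∧ ¬ ∃ a b, u = pr a b) := by
  by_cases h : ∃ a b, u = pr a b
  · obtain ⟨a, b, rfl⟩ := h
    simp
  · have h' : ¬ ∃ p : M × M, u = pr p.1 p.2 := fun ⟨p, hp⟩ => h ⟨_, _, hp⟩
    unfold p2; rw [dif_neg h']
    constructor
    · intro h0; exact Or.inr ⟨h0.symm, h⟩
    · rintro (⟨z, hz⟩ | ⟨h0, -⟩)
      · exact absurd ⟨_, _, hz⟩ h
      · exact h0.symm

/-- The basic functions. -/
inductive Basic : (M → M) → Prop
  | id : Basic (fun u => u)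
  | const (c : M) : Basic (fun _ => c)
  | p1 {f : M → M} : Basic f → Basic (fun u => p1 (f u))
  | p2 {f : M → M} : Basic f → Basic (fun u => p2 (f u))
  | add {f g : M → M} : Basic f → Basic g → Basic (fun u => f u + g u)
  | mul {f g : M → M} : Basic f → Basic g → Basic (fun u => f u * g u)

theorem Basic.pr {f g : M → M} (hf : Basic f) (hg : Basic g) : Basic (fun u => pr (f u) (g u)) :=
  ((hf.add hg).mul (hf.add hg)).add hf

/-- Families of subsets closed under recursive comprehension. -/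
class Pre (S : Set (M → Prop)) : Prop where
  basic : ∀ {f : M → M}, Basic f → ∀ {Q : M → Prop}, Q ∈ S → (fun u => Q (f u)) ∈ S
  lt : (fun u : M => p1 u < p2 u) ∈ S
  nand : ∀ {P Q : M → Prop}, P ∈ S → Q ∈ S → (fun u => ¬ (P u ∧ Q u)) ∈ S
  ball : ∀ {Q : M → Prop}, Q ∈ S → (fun u => ∀ x < p2 u, Q (pr (p1 u) x)) ∈ S
  delta : ∀ {P Q : M → Prop}, P ∈ S → Q ∈ S →
    (∀ x, (∃ y, P (pr x y)) ↔ ∀ y, Q (pr x y)) → (fun x => ∃ y, P (pr x y)) ∈ S

section PreLemmas

variable {S : Set (M → Prop)}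

theorem mem_congr {P Q : M → Prop} (h : P ∈ S) (e : ∀ u, P u ↔ Q u) : Q ∈ S := by
  have : P = Q := funext fun u => propext (e u)
  exact this ▸ h

variable [Pre S]

theorem Pre.not {P : M → Prop} (h : P ∈ S) : (fun u => ¬ P u) ∈ S :=
  mem_congr (Pre.nand h h) (by simp)

theorem Pre.and {P Q : M → Prop} (h : P ∈ S) (h' : Q ∈ S) : (fun u => P u ∧ Q u) ∈ S :=
  mem_congr (Pre.not (Pre.nand h h')) (by simp)

theorem Pre.or {P Q : M → Prop} (h : P ∈ S) (h' : Q ∈ S) : (fun u => P u ∨ Q u) ∈ S :=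
  mem_congr (Pre.nand (Pre.not h) (Pre.not h')) (by intro u; tauto)

theorem Pre.imp {P Q : M → Prop} (h : P ∈ S) (h' : Q ∈ S) : (fun u => P u → Q u) ∈ S :=
  mem_congr (Pre.nand h (Pre.not h')) (by intro u; tauto)

theorem Pre.ltB {f g : M → M} (hf : Basic f) (hg : Basic g) : (fun u => f u < g u) ∈ S :=
  mem_congr (Pre.basic (hf.pr hg) Pre.lt) (by simp)

theorem Pre.eqB {f g : M → M} (hf : Basic f) (hg : Basic g) : (fun u => f u = g u) ∈ S :=
  mem_congr (Pre.and (Pre.not (Pre.ltB hf hg)) (Pre.not (Pre.ltB hg hf)))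
    (by intro u; simp only [not_lt]; exact ⟨fun h => le_antisymm h.2 h.1, fun h => by simp [h]⟩)

theorem Pre.preimage {g : M → M} (hg : (fun u => g (p1 u) = p2 u) ∈ S) {Q : M → Prop}
    (hQ : Q ∈ S) : (fun u => Q (g u)) ∈ S := by
  have h2 : (fun u : M => Q (p2 u)) ∈ S := Pre.basic (Basic.p2 Basic.id) hQ
  exact mem_congr (Pre.delta (Pre.and hg h2) (Pre.imp hg h2) (by simp)) (by simp)

end PreLemmas

/-- Types coded by elements of `M`. -/
class Cd (M : Type) [PA M] (α : Type) where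
  enc : α → M
  dec : M → α
  dec_enc : ∀ a, dec (enc a) = a
  norm : ∀ (S : Set (M → Prop)) [Pre S], (fun u => enc (dec (p1 u)) = p2 u) ∈ S

attribute [simp] Cd.dec_enc

instance : Cd M M where
  enc := fun u => u
  dec := fun u => u
  dec_enc := fun _ => rfl
  norm := fun _ _ => Pre.eqB (Basic.p1 Basic.id) (Basic.p2 Basic.id)

noncomputable instance : Cd M Prop where
  enc := fun p => if p then 1 else 0
  dec := fun u => u = 1
  dec_enc := fun p => by by_cases h : p <;> simp [h]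
  norm := fun S _ => by
    have h1 : (fun u : M => p1 u = 1) ∈ S := Pre.eqB (Basic.p1 Basic.id) (Basic.const 1)
    have h2 : (fun u : M => 1 = p2 u) ∈ S := Pre.eqB (Basic.const 1) (Basic.p2 Basic.id)
    have h3 : (fun u : M => 0 = p2 u) ∈ S := Pre.eqB (Basic.const 0) (Basic.p2 Basic.id)
    refine mem_congr (Pre.or (Pre.and h1 h2) (Pre.and (Pre.not h1) h3)) ?_
    intro u
    by_cases h : p1 u = 1 <;> simp [h]

theorem graph_pair {S : Set (M → Prop)} [Pre S] {F G : M → M}
    (hF : (fun u => F (p1 u) = p2 u) ∈ S) (hG : (fun u => G (p1 u) = p2 u) ∈ S) :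
    (fun u => pr (F (p1 u)) (G (p1 u)) = p2 u) ∈ S := by
  have b1 : Basic (fun u : M => p1 u) := Basic.p1 Basic.id
  have b2 : Basic (fun u : M => p2 u) := Basic.p2 Basic.id
  have h1 := Pre.basic (b1.pr b2.p1) hF
  have h2 := Pre.basic (b1.pr b2.p2) hG
  have h3 : (fun u : M => p2 u = pr (p1 (p2 u)) (p2 (p2 u))) ∈ S := Pre.eqB b2 (b2.p1.pr b2.p2)
  refine mem_congr (Pre.and h1 (Pre.and h2 h3)) ?_
  intro u
  simp only [p1_pr, p2_pr]
  constructor
  · rintro ⟨a, b, c⟩; rw [a, b]; exact c.symm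
  · intro h; rw [← h]; simp

theorem graph_comp {S : Set (M → Prop)} [Pre S] {F G : M → M}
    (hF : (fun u => F (p1 u) = p2 u) ∈ S) (hG : (fun u => G (p1 u) = p2 u) ∈ S) :
    (fun u => F (G (p1 u)) = p2 u) ∈ S := by
  have b1 : Basic (fun u : M => p1 u) := Basic.p1 Basic.id
  have b2 : Basic (fun u : M => p2 u) := Basic.p2 Basic.id
  have hG' : (fun u => (fun v => G (p1 v)) (p1 u) = p2 u) ∈ S :=
    mem_congr (Pre.basic (b1.p1.pr b2) hG) (by simp)
  have h2 : (fun u => (fun v : M => p2 v) (p1 u) = p2 u) ∈ S := Pre.eqB b1.p2 b2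
  have h3 := graph_pair (F := fun v => G (p1 v)) (G := fun v : M => p2 v) hG' h2
  exact mem_congr (Pre.preimage (g := fun v => pr (G (p1 v)) (p2 v)) h3 hF) (by simp)

noncomputable instance {α β : Type} [Cd M α] [Cd M β] : Cd M (α × β) where
  enc := fun p => pr (Cd.enc p.1) (Cd.enc p.2)
  dec := fun u => (Cd.dec (p1 u), Cd.dec (p2 u))
  dec_enc := fun p => by simp
  norm := fun S _ => by
    have b1 : Basic (fun u : M => p1 u) := Basic.p1 Basic.id
    have b2 : Basic (fun u : M => p2 u) := Basic.p2 Basic.id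
    have h1 : (fun u : M => (fun v : M => (Cd.enc (Cd.dec (p1 v) : α) : M)) (p1 u) = p2 u) ∈ S :=
      mem_congr (Pre.basic (b1.p1.pr b2) (Cd.norm (α := α) S)) (by simp)
    have h2 : (fun u : M => (fun v : M => (Cd.enc (Cd.dec (p2 v) : β) : M)) (p1 u) = p2 u) ∈ S :=
      mem_congr (Pre.basic (b1.p2.pr b2) (Cd.norm (α := β) S)) (by simp)
    exact graph_pair (F := fun v : M => (Cd.enc (Cd.dec (p1 v) : α) : M))
      (G := fun v : M => (Cd.enc (Cd.dec (p2 v) : β) : M)) h1 h2

/-- The graph of `f` (through the codings) belongs to `S`. -/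
@[fun_prop]
def Rec (S : Set (M → Prop)) {α β : Type} [Cd M α] [Cd M β] (f : α → β) : Prop :=
  (fun u : M => (Cd.enc (f (Cd.dec (p1 u))) : M) = p2 u) ∈ S

section RecLemmas

variable {S : Set (M → Prop)} {α β γ : Type} [Cd M α] [Cd M β] [Cd M γ]

theorem Rec.congr {f g : α → β} (h : Rec S f) (e : ∀ a, f a = g a) : Rec S g := by
  have : f = g := funext e
  exact this ▸ h

theorem Rec.of_iff {P Q : α → Prop} (h : Rec S P) (e : ∀ a, P a ↔ Q a) : Rec S Q :=
  h.congr fun a => propext (e a)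

theorem Rec.mono {S' : Set (M → Prop)} (hS : S ⊆ S') {f : α → β} (h : Rec S f) : Rec S' f :=
  hS h

variable [Pre S]

theorem rec_iff {P : α → Prop} : Rec S P ↔ (fun u : M => P (Cd.dec u)) ∈ S := by
  constructor
  · intro h
    refine mem_congr (Pre.basic (Basic.id.pr (Basic.const 1)) h) ?_
    intro u
    by_cases hp : P (Cd.dec u) <;> simp [Cd.enc, hp]
  · intro h
    have h1 := Pre.basic (Basic.p1 Basic.id) h
    have h2 : (fun u : M => 1 = p2 u) ∈ S := Pre.eqB (Basic.const 1) (Basic.p2 Basic.id)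
    have h3 : (fun u : M => 0 = p2 u) ∈ S := Pre.eqB (Basic.const 0) (Basic.p2 Basic.id)
    refine mem_congr (Pre.or (Pre.and h1 h2) (Pre.and (Pre.not h1) h3)) ?_
    intro u
    by_cases hp : P (Cd.dec (p1 u)) <;> simp [Cd.enc, hp]

theorem rec_iff_mem {X : M → Prop} : Rec S X ↔ X ∈ S := rec_iff

@[fun_prop] protected theorem Rec.id : Rec S (fun a : α => a) := Cd.norm S

@[fun_prop] protected theorem Rec.const (c : β) : Rec S (fun _ : α => c) :=
  Pre.eqB (Basic.const _) (Basic.p2 Basic.id)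

@[fun_prop] protected theorem Rec.comp {f : β → γ} {g : α → β} (hf : Rec S f) (hg : Rec S g) :
    Rec S (fun a => f (g a)) :=
  mem_congr (graph_comp (F := fun v => Cd.enc (f (Cd.dec v)))
    (G := fun v => Cd.enc (g (Cd.dec v))) hf hg) (by simp)

@[fun_prop] protected theorem Rec.prodMk {f : α → β} {g : α → γ} (hf : Rec S f) (hg : Rec S g) :
    Rec S (fun a => (f a, g a)) :=
  graph_pair (F := fun v => Cd.enc (f (Cd.dec v))) (G := fun v => Cd.enc (g (Cd.dec v))) hf hg

theorem rec_fst : Rec S (fun p : α × β => p.1) :=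
  mem_congr (Pre.basic ((Basic.p1 (Basic.p1 Basic.id)).pr (Basic.p2 Basic.id))
    (Cd.norm (α := α) S)) (by simp [Cd.dec])

theorem rec_snd : Rec S (fun p : α × β => p.2) :=
  mem_congr (Pre.basic ((Basic.p2 (Basic.p1 Basic.id)).pr (Basic.p2 Basic.id))
    (Cd.norm (α := β) S)) (by simp [Cd.dec])

@[fun_prop] protected theorem Rec.fst {f : α → β × γ} (hf : Rec S f) : Rec S (fun a => (f a).1) :=
  rec_fst.comp hf

@[fun_prop] protected theorem Rec.snd {f : α → β × γ} (hf : Rec S f) : Rec S (fun a => (f a).2) :=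
  rec_snd.comp hf

theorem rec_enc : Rec S (fun a : α => (Cd.enc a : M)) := Cd.norm S

theorem rec_dec : Rec S (fun u : M => (Cd.dec u : α)) := Cd.norm S

theorem rec_basic {f : M → M} (hf : Basic f) : Rec S f :=
  mem_congr (Pre.basic ((Basic.p1 Basic.id).pr (Basic.p2 Basic.id))
    (Q := fun u => f (p1 u) = p2 u) (by
      have h : ∀ {g : M → M}, Basic g → Basic (fun u => f (g u)) := by
        intro g hg
        induction hf with
        | id => exact hg
        | const c => exact Basic.const c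
        | p1 _ ih => exact ih.p1
        | p2 _ ih => exact ih.p2
        | add _ _ ih1 ih2 => exact ih1.add ih2
        | mul _ _ ih1 ih2 => exact ih1.mul ih2
      exact Pre.eqB (h (Basic.p1 Basic.id)) (Basic.p2 Basic.id))) (by simp [Cd.enc, Cd.dec])

@[fun_prop] protected theorem Rec.p1 {f : α → M} (hf : Rec S f) : Rec S (fun a => p1 (f a)) :=
  (rec_basic (Basic.p1 Basic.id)).comp hf

@[fun_prop] protected theorem Rec.p2 {f : α → M} (hf : Rec S f) : Rec S (fun a => p2 (f a)) :=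
  (rec_basic (Basic.p2 Basic.id)).comp hf

@[fun_prop] protected theorem Rec.add {f g : α → M} (hf : Rec S f) (hg : Rec S g) :
    Rec S (fun a => f a + g a) :=
  ((rec_basic ((Basic.p1 Basic.id).add (Basic.p2 Basic.id))).comp
    (rec_enc.comp (hf.prodMk hg))).congr (by simp [Cd.enc])

@[fun_prop] protected theorem Rec.mul {f g : α → M} (hf : Rec S f) (hg : Rec S g) :
    Rec S (fun a => f a * g a) :=
  ((rec_basic ((Basic.p1 Basic.id).mul (Basic.p2 Basic.id))).comp
    (rec_enc.comp (hf.prodMk hg))).congr (by simp [Cd.enc])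

@[fun_prop] protected theorem Rec.pr {f g : α → M} (hf : Rec S f) (hg : Rec S g) :
    Rec S (fun a => pr (f a) (g a)) :=
  ((hf.add hg).mul (hf.add hg)).add hf

@[fun_prop] protected theorem Rec.lt {f g : α → M} (hf : Rec S f) (hg : Rec S g) :
    Rec S (fun a => f a < g a) :=
  ((rec_iff_mem.2 Pre.lt).comp (hf.pr hg)).of_iff (by simp)

@[fun_prop] protected theorem Rec.not {P : α → Prop} (hP : Rec S P) : Rec S (fun a => ¬ P a) :=
  rec_iff.2 (Pre.not (rec_iff.1 hP))

@[fun_prop] protected theorem Rec.and {P Q : α → Prop} (hP : Rec S P) (hQ : Rec S Q) :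
    Rec S (fun a => P a ∧ Q a) :=
  rec_iff.2 (Pre.and (rec_iff.1 hP) (rec_iff.1 hQ))

@[fun_prop] protected theorem Rec.or {P Q : α → Prop} (hP : Rec S P) (hQ : Rec S Q) :
    Rec S (fun a => P a ∨ Q a) :=
  rec_iff.2 (Pre.or (rec_iff.1 hP) (rec_iff.1 hQ))

@[fun_prop] protected theorem Rec.iff {P Q : α → Prop} (hP : Rec S P) (hQ : Rec S Q) :
    Rec S (fun a => P a ↔ Q a) :=
  ((hP.and hQ).or (hP.not.and hQ.not)).of_iff (by intro a; tauto)

@[fun_prop] protected theorem Rec.le {f g : α → M} (hf : Rec S f) (hg : Rec S g) :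
    Rec S (fun a => f a ≤ g a) :=
  (hg.lt hf).not.of_iff (by simp)

@[fun_prop] protected theorem Rec.eq {f g : α → M} (hf : Rec S f) (hg : Rec S g) :
    Rec S (fun a => f a = g a) :=
  ((hf.le hg).and (hg.le hf)).of_iff (by intro a; exact le_antisymm_iff.symm)

@[fun_prop] protected theorem Rec.ne {f g : α → M} (hf : Rec S f) (hg : Rec S g) :
    Rec S (fun a => f a ≠ g a) :=
  (hf.eq hg).not

@[fun_prop] protected theorem Rec.ball {t : α → M} {Q : α → M → Prop} (ht : Rec S t)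
    (hQ : Rec S (fun p : α × M => Q p.1 p.2)) : Rec S (fun a => ∀ x, x < t a → Q a x) := by
  have h1 := rec_iff_mem.2 (Pre.ball (rec_iff.1 hQ))
  exact (h1.comp (rec_enc.pr ht)).of_iff (by simp [Cd.dec])

@[fun_prop] protected theorem Rec.ball_le {t : α → M} {Q : α → M → Prop} (ht : Rec S t)
    (hQ : Rec S (fun p : α × M => Q p.1 p.2)) : Rec S (fun a => ∀ x, x ≤ t a → Q a x) :=
  (Rec.ball (ht.add (Rec.const 1)) hQ).of_iff (by simp [lt_succ_iff'])

@[fun_prop] protected theorem Rec.bex {t : α → M} {Q : α → M → Prop} (ht : Rec S t)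
    (hQ : Rec S (fun p : α × M => Q p.1 p.2)) : Rec S (fun a => ∃ x, x < t a ∧ Q a x) :=
  (Rec.ball (Q := fun a x => ¬ Q a x) ht hQ.not).not.of_iff (by simp)

@[fun_prop] protected theorem Rec.bex_le {t : α → M} {Q : α → M → Prop} (ht : Rec S t)
    (hQ : Rec S (fun p : α × M => Q p.1 p.2)) : Rec S (fun a => ∃ x, x ≤ t a ∧ Q a x) :=
  (Rec.bex (ht.add (Rec.const 1)) hQ).of_iff (by simp [lt_succ_iff'])

@[fun_prop] protected theorem Rec.imp {P Q : α → Prop} (hP : Rec S P) (hQ : Rec S Q) :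
    Rec S (fun a => P a → Q a) :=
  rec_iff.2 (Pre.imp (rec_iff.1 hP) (rec_iff.1 hQ))

theorem Rec.of_graph {f : α → M} (h : Rec S (fun p : α × M => f p.1 = p.2)) : Rec S f :=
  mem_congr (rec_iff.1 h) (by simp [Cd.dec, Cd.enc])

@[fun_prop] protected theorem Rec.ite {P : α → Prop} {f g : α → M} [∀ a, Decidable (P a)] (hP : Rec S P)
    (hf : Rec S f) (hg : Rec S g) : Rec S (fun a => if P a then f a else g a) := by
  refine Rec.of_graph (Rec.of_iff (P := fun p : α × M => (P p.1 ∧ f p.1 = p.2) ∨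
    (¬ P p.1 ∧ g p.1 = p.2)) (by fun_prop) ?_)
  intro p
  by_cases h : P p.1 <;> simp [h]

@[fun_prop] protected theorem Rec.max {f g : α → M} (hf : Rec S f) (hg : Rec S g) :
    Rec S (fun a => max (f a) (g a)) :=
  (Rec.ite (hf.le hg) hg hf).congr (by intro a; rw [max_def])

example (X : M → Prop) (hX : Rec S X) (c : M) :
    Rec S (fun p : M × M => ∀ x < p.1 + c, X x → ∃ y ≤ x * p.2, ∀ z ≤ y, (X (pr z p.1) ↔ z = y)) := by
  fun_prop

example (Q : α × M → Prop) (hQ : Rec S Q) (R : M → M → Prop)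
    (hR : Rec S (fun p : M × M => R p.1 p.2)) (c : M) :
    Rec S (fun p : α × M => ∀ x < p.2 + c, Q (p.1, x) → R x p.2) := by
  fun_prop

end RecLemmas

end Pool.Agent.Lib.MP_706ff3_lc.B
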