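import Pool.Agent.Lib.MP_706ff3_lc.B.Ext

/-!
The semantic content of the combinatorial statements.
-/

set_option autoImplicit false
set_option linter.unusedSectionVars false

namespace Pool.Agent.Lib.MP_706ff3_lc.B

open Classical

variable {M : Type} [PA M]

def IsFun (Φ : M → Prop) : Prop := ∀ w, ∃ m, Φ (pr w m) ∧ ∀ m', Φ (pr w m') → m' = m

def IsCol (k : M) (F : M → Prop) : Prop :=
  ∀ x y, x < y → ∃ j, 1 ≤ j ∧ j ≤ k ∧ F (pr (pr x y) j) ∧ ∀ j', F (pr (pr x y) j') → j' = j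

def CardW (X w b : M) : Prop :=
  (∀ i, i < w → ∃ x, mem x X ∧ mem (pr i x) b) ∧ (∀ x, mem x X → ∃ i, i < w ∧ mem (pr i x) b) ∧
    ∀ i i' x x', mem (pr i x) b → mem (pr i' x') b → (i = i' ↔ x = x')

def CardEq (X w : M) : Prop := ∃ b, CardW X w b

def Arrow (w m k : M) : Prop :=
  ∀ X g, CardEq X w → (∀ x y, mem x X → mem y X → x < y → ∃ j, 1 ≤ j ∧ j ≤ k ∧
      mem (pr (pr x y) j) g ∧ ∀ j', mem (pr (pr x y) j') g → j' = j) →
    ∃ H, (∀ x, mem x H → mem x X) ∧ CardEq H m ∧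
      ∃ j, ∀ x y, mem x H → mem y H → x < y → mem (pr (pr x y) j) g

def Packed (H Φ : M → Prop) : Prop :=
  ∀ u, ∃ w, u ≤ w ∧ ∃ m, Φ (pr w m) ∧ ∃ E, (∀ x, mem x E → H x ∧ 1 ≤ x ∧ x ≤ w) ∧ CardEq E m

def SemiHom (H F : M → Prop) : Prop :=
  ∃ c d, ∀ x y, H x → H y → x < y → F (pr (pr x y) c) ∨ F (pr (pr x y) d)

/-- Ramsey's theorem for pairs and two colours holds in `S`. -/
def RTc (S : Set (M → Prop)) : Prop :=
  ∀ F ∈ S, IsCol ((2 : ℕ) : M) F → ∃ H ∈ S, (∀ u, ∃ x, u ≤ x ∧ H x) ∧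
    ∃ c, ∀ x y, H x → H y → x < y → F (pr (pr x y) c)

theorem le_natCast {k : ℕ} {y : M} (h : y ≤ (k : M)) : ∃ i ≤ k, y = (i : M) := by
  induction k with
  | zero => exact ⟨0, le_rfl, by simpa using h⟩
  | succ k ih =>
    rcases h.lt_or_eq with h1 | h1
    · rw [Nat.cast_succ, lt_succ_iff'] at h1
      obtain ⟨i, hi, h2⟩ := ih h1
      exact ⟨i, by omega, h2⟩
    · exact ⟨k + 1, le_rfl, h1⟩

theorem exists_common_bound {k : ℕ} {P : ℕ → M → Prop} (hm : ∀ i t t', t ≤ t' → P i t → P i t')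
    (h : ∀ i < k, ∃ t, P i t) : ∃ t, ∀ i < k, P i t := by
  induction k with
  | zero => exact ⟨0, by simp⟩
  | succ k ih =>
    obtain ⟨t, ht⟩ := ih fun i hi => h i (by omega)
    obtain ⟨t', ht'⟩ := h k (by omega)
    refine ⟨max t t', fun i hi => ?_⟩
    rcases Nat.lt_succ_iff_lt_or_eq.1 hi with h1 | rfl
    · exact hm _ _ _ (le_max_left _ _) (ht i h1)
    · exact hm _ _ _ (le_max_right _ _) ht'

end Pool.Agent.Lib.MP_706ff3_lc.B
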