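import Pool.Agent.Lib.MP_706ff3_lc.B.Ext

/-!
Tree forcing, bounded course of values recursion, and the low basis theorem.
-/

set_option autoImplicit false
set_option linter.unusedSectionVars false

namespace Pool.Agent.Lib.MP_706ff3_lc.B

open Classical

variable {M : Type} [PA M] [IM M]

/-- The tree described by `Q` has nodes at all levels. -/
def InfT (Q : M → M → Prop) : Prop :=
  ∀ w, ∃ c, ∀ z ≤ w, Q z (res (fun x => mem x c) z)

theorem upto_iff {Q : M → M → Prop} {w : M} :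
    (∃ c, ∀ z ≤ w, Q z (res (fun x => mem x c) z)) ↔
      ∃ c < bnd w, ∀ z ≤ w, Q z (res (fun x => mem x c) z) := by
  constructor
  · rintro ⟨c, hc⟩
    obtain ⟨c', h1, h2⟩ := bnd_spec w c
    refine ⟨c', h1, fun z hz => ?_⟩
    have : res (fun x => mem x c') z = res (fun x => mem x c) z :=
      res_congr fun x hx => by rw [h2]; exact ⟨fun h => h.2, fun h => ⟨hx.trans_le hz, h⟩⟩
    rw [this]; exact hc z hz
  · rintro ⟨c, -, hc⟩; exact ⟨c, hc⟩

theorem InfT.mono {Q Q' : M → M → Prop} (h : InfT Q) (e : ∀ z c, Q z c → Q' z c) : InfT Q' :=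
  fun w => (h w).imp fun _ hc z hz => e _ _ (hc z hz)

theorem infT_of_path {Q : M → M → Prop} {G : M → Prop} (hG : Reg G) (h : ∀ z, Q z (res G z)) :
    InfT Q := fun w => ⟨res G w, fun z hz => by rw [hG.res_res hz]; exact h z⟩

theorem pi1_infT {S : Set (M → Prop)} [Star S] {α : Type} [Cd M α] {Q : α → M → M → Prop}
    (hQ : Rec S (fun p : α × M × M => Q p.1 p.2.1 p.2.2)) : Pi1 S (fun a => InfT (Q a)) := by
  have h1 : Rec S (fun p : α × M => ∃ c < bnd p.2, ∀ z ≤ p.2,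
      (fun q : α × M × M => Q q.1 q.2.1 q.2.2) (p.1, z, res (fun x => mem x c) z)) := by
    fun_prop
  exact (Pi1.forall h1.pi1).of_iff fun a => forall_congr' fun w => upto_iff.symm

theorem infT_node {S : Set (M → Prop)} [Star S] {Q : M → M → Prop}
    (hQ : Rec S (fun p : M × M => Q p.1 p.2)) (h : InfT Q)
    (l : M) : ∃ σ, InfT (fun z c => Q z c ∧ ∀ x < l, x < z → (mem x c ↔ mem x σ)) := by
  by_contra hn
  push Not at hn
  obtain ⟨b, hb⟩ := Rec.coll (S := S) (a := bnd l) (R := fun σ w => ¬ ∃ c < bnd w, ∀ z ≤ w,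
      (fun p : M × M => Q p.1 p.2) (z, res (fun x => mem x c) z) ∧
        ∀ x < l, x < z → (mem x (res (fun x => mem x c) z) ↔ mem x σ)) (by fun_prop) (by
    intro σ _
    have := hn σ
    unfold InfT at this
    obtain ⟨w, hw⟩ := not_forall.1 this
    exact ⟨w, fun h1 => hw ((upto_iff
      (Q := fun z c => Q z c ∧ ∀ x < l, x < z → (mem x c ↔ mem x σ))).2 h1)⟩)
  obtain ⟨c, hc⟩ := h b
  obtain ⟨σ, h1, h2⟩ := bnd_spec l c
  obtain ⟨w, hw, h3⟩ := hb σ h1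
  refine h3 ((upto_iff (Q := fun z c => Q z c ∧ ∀ x < l, x < z → (mem x c ↔ mem x σ))).1
    ⟨c, fun z hz => ⟨hc z (hz.trans hw.le), fun x hx hx' => ?_⟩⟩)
  rw [mem_res_mem, h2]; tauto

theorem exists_path_ext [Countable M] {W : Set (M → Prop)} [Star W] (hW : W.Countable)
    {Q0 : M → M → Prop} (hQ0 : Rec W (fun p : M × M => Q0 p.1 p.2)) (h0 : InfT Q0) :
    ∃ G, StarExt W G ∧ ∀ z, Q0 z (res G z) := by
  have : Countable {R : M × M × M → Prop | Rec W R} := (countable_rec hW).to_subtype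
  obtain ⟨s, hs0, hs1, hs2⟩ := exists_generic
    (P := {Q : M → M → Prop // Rec W (fun p : M × M => Q p.1 p.2) ∧ InfT Q})
    (ι := M ⊕ ({R : M × M × M → Prop | Rec W R} × M))
    (fun Q' Q => ∀ z c, Q'.1 z c → Q.1 z c) (fun _ _ _ h => h)
    (fun _ _ _ h h' z c h1 => h' z c (h z c h1))
    (fun i Q => match i with
      | Sum.inl l => ∃ σ, ∀ z c, Q.1 z c → ∀ x < l, x < z → (mem x c ↔ mem x σ)
      | Sum.inr R => (∃ x < R.2, ∀ z c, Q.1 z c → ¬ R.1.1 (x, z, c)) ∨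
          ∃ b, ∀ x < R.2, ∃ w < b, ¬ ∃ c, ∀ z ≤ w, Q.1 z (res (fun x => mem x c) z) ∧
            ¬ R.1.1 (x, z, res (fun x => mem x c) z))
    (by
      rintro (l | ⟨⟨R, hR⟩, a⟩) ⟨Q, hQ, hI⟩
      · obtain ⟨σ, hσ⟩ := infT_node hQ hI l
        exact ⟨⟨_, by fun_prop, hσ⟩, fun z c h => h.1, σ, fun z c h => h.2⟩
      · have hR' : Rec W R := hR
        by_cases h1 : ∃ x < a, InfT (fun z c => Q z c ∧ ¬ R (x, z, c))
        · obtain ⟨x, hx, hy⟩ := h1
          exact ⟨⟨_, by fun_prop, hy⟩, fun z c h => h.1, Or.inl ⟨x, hx, fun z c h => h.2⟩⟩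
        · obtain ⟨b, hb⟩ := Rec.coll (S := W) (a := a) (R := fun x w => ¬ ∃ c < bnd w, ∀ z ≤ w,
              (fun p : M × M => Q p.1 p.2) (z, res (fun x => mem x c) z) ∧
                ¬ R (x, z, res (fun x => mem x c) z)) (by fun_prop) (by
            intro x hx
            have h2 : ¬ InfT (fun z c => Q z c ∧ ¬ R (x, z, c)) := fun h => h1 ⟨x, hx, h⟩
            unfold InfT at h2
            obtain ⟨w, hw⟩ := not_forall.1 h2
            exact ⟨w, fun h3 => hw ((upto_iff (Q := fun z c => Q z c ∧ ¬ R (x, z, c))).2 h3)⟩)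
          refine ⟨⟨Q, hQ, hI⟩, fun _ _ h => h, Or.inr ⟨b, fun x hx => ?_⟩⟩
          obtain ⟨w, hw, h3⟩ := hb x hx
          exact ⟨w, hw, fun h4 => h3 ((upto_iff (Q := fun z c => Q z c ∧ ¬ R (x, z, c))).1 h4)⟩)
    ⟨Q0, hQ0, h0⟩
  set G : M → Prop := fun x => ∃ n, ∀ z c, (s n).1 z c → x < z → mem x c with hG
  have hnode : ∀ l, ∃ n σ, (∀ z c, (s n).1 z c → ∀ x < l, x < z → (mem x c ↔ mem x σ)) ∧
      ∀ x < l, G x ↔ mem x σ := by
    intro l
    obtain ⟨n, σ, hσ⟩ := hs2 (Sum.inl l)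
    refine ⟨n, σ, hσ, fun x hx => ⟨?_, fun h => ⟨n, fun z c h1 h2 => (hσ z c h1 x hx h2).2 h⟩⟩⟩
    rintro ⟨n', hn'⟩
    obtain ⟨c, hc⟩ := (s (max n n')).2.2 (x + 1)
    have h1 := hc (x + 1) le_rfl
    exact (hσ _ _ (hs1 _ _ (le_max_left _ _) _ _ h1) x hx (lt_succ_self' x)).1
      (hn' _ _ (hs1 _ _ (le_max_right _ _) _ _ h1) (lt_succ_self' x))
  have hreg : Reg G := by
    intro l
    obtain ⟨n, σ, -, h⟩ := hnode l
    exact ⟨res (fun x => mem x σ) l, fun x => by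
      rw [mem_res_mem]; exact and_congr_right fun hx => (h x hx).symm⟩
  have hpath : ∀ n z, (s n).1 z (res G z) := by
    intro n z
    obtain ⟨n', σ, h1, h2⟩ := hnode z
    obtain ⟨c, hc⟩ := (s (max n n')).2.2 z
    have h3 := hc z le_rfl
    have h4 : res (fun x => mem x c) z = res G z := res_congr fun x hx => by
      rw [h2 x hx, ← h1 _ _ (hs1 _ _ (le_max_right _ _) _ _ h3) x hx hx, mem_res_mem]
      tauto
    rw [← h4]
    exact hs1 _ _ (le_max_left _ _) _ _ h3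
  refine ⟨G, ⟨hreg, ?_⟩, fun z => by have := hpath 0 z; rwa [hs0] at this⟩
  intro R hR a tot
  obtain ⟨n, hn⟩ := hs2 (Sum.inr (⟨R, hR⟩, a))
  rcases hn with ⟨x, hx, hn⟩ | ⟨b, hb⟩
  · obtain ⟨z, hz⟩ := tot x hx
    exact absurd hz (hn z _ (hpath n z))
  · refine ⟨b, fun x hx => ?_⟩
    obtain ⟨w, hw, h1⟩ := hb x hx
    by_contra h2
    refine h1 ⟨res G w, fun z hz => ?_⟩
    rw [hreg.res_res hz]
    exact ⟨hpath n z, fun h3 => h2 ⟨z, hz.trans_lt hw, h3⟩⟩

theorem exists_cv {W : Set (M → Prop)} [Star W] {Ψ : M → M → Prop}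
    (hΨ : Rec W (fun p : M × M => Ψ p.1 p.2)) : ∃ O, Rec W O ∧ ∀ x, O x ↔ Ψ x (res O x) := by
  obtain ⟨Φ, hΦ, eΦ⟩ : ∃ Φ : M × M → Prop, Rec W Φ ∧ ∀ x c, Ψ x c ↔ Φ (x, c) :=
    ⟨_, hΨ, fun _ _ => Iff.rfl⟩
  simp only [eΦ]
  have ex : ∀ x, ∃ c < bnd x, ∀ y < x, (mem y c ↔ Φ (y, res (fun u => mem u c) y)) := by
    refine Rec.ind (S := W) (by fun_prop) ?_ ?_
    · obtain ⟨c, hc, -⟩ := bnd_spec (0 : M) 0
      exact ⟨c, hc, fun y hy => absurd hy (by simp)⟩
    · rintro x ⟨c, -, hc⟩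
      have hY : Rec W (fun y => (y < x ∧ mem y c) ∨
          (y = x ∧ Φ (x, res (fun u => mem u c) x))) := by fun_prop
      have hreg := hY.reg
      refine ⟨_, hreg.res_lt_bnd (x + 1), fun y hy => ?_⟩
      have h1 : res (fun u => mem u (res (fun y => (y < x ∧ mem y c) ∨
          (y = x ∧ Φ (x, res (fun u => mem u c) x))) (x + 1))) y = res (fun u => mem u c) y := by
        refine res_congr fun u hu => ?_
        have hu' : u < x := hu.trans_le (lt_succ_iff'.1 hy)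
        rw [hreg.mem_res]
        constructor
        · rintro ⟨-, h | h⟩
          · exact h.2
          · exact absurd h.1 hu'.ne
        · exact fun h => ⟨hu.trans hy, Or.inl ⟨hu', h⟩⟩
      rw [h1, hreg.mem_res]
      rcases lt_succ_iff_lt_or_eq.1 hy with h2 | h2
      · rw [← hc y h2]
        constructor
        · rintro ⟨-, h | h⟩
          · exact h.2
          · exact absurd h.1 h2.ne
        · exact fun h => ⟨hy, Or.inl ⟨h2, h⟩⟩
      · subst h2
        constructor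
        · rintro ⟨-, h | h⟩
          · exact absurd h.1 (lt_irrefl _)
          · exact h.2
        · exact fun h => ⟨hy, Or.inr ⟨rfl, h⟩⟩
  have uniq : ∀ x c x' c', (∀ y < x, (mem y c ↔ Φ (y, res (fun u => mem u c) y))) →
      (∀ y < x', (mem y c' ↔ Φ (y, res (fun u => mem u c') y))) →
      ∀ y, y < x → y < x' → (mem y c ↔ mem y c') := by
    intro x c x' c' h h'
    refine Rec.strong_ind (S := W) (by fun_prop) ?_
    intro y ih hy hy'
    have h1 : res (fun u => mem u c) y = res (fun u => mem u c') y :=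
      res_congr fun u hu => ih u hu (hu.trans hy) (hu.trans hy')
    rw [h y hy, h' y hy', h1]
  have key : ∀ x c, (∀ y < x, (mem y c ↔ Φ (y, res (fun u => mem u c) y))) → ∀ y < x,
      ((∃ d < bnd (y + 1), (∀ v < y + 1, (mem v d ↔ Φ (v, res (fun u => mem u d) v))) ∧ mem y d) ↔
        mem y c) := by
    intro x c hc y hy
    constructor
    · rintro ⟨d, -, h1, h2⟩
      exact (uniq _ _ _ _ h1 hc y (lt_succ_self' y) hy).1 h2
    · intro h
      obtain ⟨d, h1, h2⟩ := ex (y + 1)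
      exact ⟨d, h1, h2, (uniq _ _ _ _ h2 hc y (lt_succ_self' y) hy).2 h⟩
  refine ⟨fun y => ∃ d < bnd (y + 1),
    (∀ v < y + 1, (mem v d ↔ Φ (v, res (fun u => mem u d) v))) ∧ mem y d, by fun_prop, fun x => ?_⟩
  obtain ⟨c, -, hc⟩ := ex (x + 1)
  rw [res_congr (G' := fun u => mem u c) fun u hu => key _ _ hc u (hu.trans (lt_succ_self' x))]
  exact (key _ _ hc x (lt_succ_self' x)).trans (hc x (lt_succ_self' x))

theorem low_basis [Countable M] {S : Set (M → Prop)} [Star S] (hS : Nice S) {Q0 : M → M → Prop}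
    (hQ0 : Rec S (fun p : M × M => Q0 p.1 p.2)) (h0 : InfT Q0) :
    ∃ C W, StarExt S C ∧ Star W ∧ W.Countable ∧ Below (ext S C) W ∧ ∀ z, Q0 z (res C z) := by
  obtain ⟨U, hU⟩ := hS.2.1.univ
  obtain ⟨Q, hQ, eQ⟩ : ∃ Q : M × M → Prop, Rec S Q ∧ ∀ x c, Q0 x c ↔ Q (x, c) :=
    ⟨_, hQ0, fun _ _ => Iff.rfl⟩
  replace h0 : InfT (fun z c => Q (z, c)) := h0.mono fun z c h => (eQ z c).1 h
  simp only [eQ]
  have hU1 := hU.1
  have hst : Star (dl2 S) := @star_dl2 _ _ _ S hS.1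
  have hbel : Below S (dl2 S) := @below_dl2 _ _ _ S hS.1
  have hsub : S ⊆ dl2 S := hbel.subset
  have hΨ : Rec (dl2 S) (fun p : M × M => InfT (fun z c =>
      (Q (z, c) ∧ ∀ m, mem m p.2 → ¬ U (m, z, c)) ∧ ¬ U (p.1, z, c))) :=
    hbel.pi1 (pi1_infT (Q := fun (p : M × M) z c =>
      (Q (z, c) ∧ ∀ m, mem m p.2 → ¬ U (m, z, c)) ∧ ¬ U (p.1, z, c)) (by fun_prop))
  obtain ⟨Neg, hNeg, eNeg⟩ := exists_cv (W := dl2 S) (Ψ := fun n A => InfT (fun z c =>
      (Q (z, c) ∧ ∀ m, mem m A → ¬ U (m, z, c)) ∧ ¬ U (n, z, c))) hΨ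
  have hreg := hNeg.reg
  have hT : Rec (dl2 S) (fun A : M => InfT (fun z c =>
      Q (z, c) ∧ ∀ m, mem m A → ¬ U (m, z, c))) :=
    hbel.pi1 (pi1_infT (Q := fun (A : M) z c =>
      Q (z, c) ∧ ∀ m, mem m A → ¬ U (m, z, c)) (by fun_prop))
  have hall : ∀ n, InfT (fun z c => Q (z, c) ∧ ∀ m, mem m (res Neg n) → ¬ U (m, z, c)) := by
    refine Rec.ind (S := dl2 S) (hT.comp (g := fun n => res Neg n) (by fun_prop)) ?_ ?_
    · exact h0.mono fun z c h => ⟨h, fun m hm => absurd (hreg.mem_res.1 hm).1 (by simp)⟩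
    · intro n ih
      by_cases hn : Neg n
      · refine ((eNeg n).1 hn).mono fun z c h => ⟨h.1.1, fun m hm => ?_⟩
        obtain ⟨h1, h2⟩ := hreg.mem_res.1 hm
        rcases lt_succ_iff_lt_or_eq.1 h1 with h3 | h3
        · exact h.1.2 m (hreg.mem_res.2 ⟨h3, h2⟩)
        · exact h3 ▸ h.2
      · refine ih.mono fun z c h => ⟨h.1, fun m hm => ?_⟩
        obtain ⟨h1, h2⟩ := hreg.mem_res.1 hm
        rcases lt_succ_iff_lt_or_eq.1 h1 with h3 | h3
        · exact h.2 m (hreg.mem_res.2 ⟨h3, h2⟩)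
        · exact absurd (h3 ▸ h2) hn
  have hQ' := hQ.mono hsub
  have hU' := hU1.mono hsub
  obtain ⟨C, hC, hpath⟩ := exists_path_ext (W := dl2 S) (countable_dl2 hS.2.2)
    (Q0 := fun z c => Q (z, c) ∧ ∀ n < z, Neg n → ∀ y ≤ z, ¬ U (n, y, res (fun x => mem x c) y))
    (by fun_prop) (by
      intro w
      obtain ⟨c, hc⟩ := hall w w
      refine ⟨c, fun z hz => ⟨(hc z hz).1, fun n hn h1 y hy => ?_⟩⟩
      rw [(reg_mem c).res_res hy]
      exact (hc y (hy.trans hz)).2 n (hreg.mem_res.2 ⟨hn.trans_le hz, h1⟩))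
  have hW : Star (ext (dl2 S) C) := hC.star
  have hsub2 : dl2 S ⊆ ext (dl2 S) C := subset_ext
  have hsub3 : S ⊆ ext (dl2 S) C := hsub.trans hsub2
  have hneg : ∀ n z, Neg n → ¬ U (n, z, res C z) := by
    intro n z hn
    have h1 := (hpath (max (n + 1) z)).2 n ((lt_succ_self' n).trans_le (le_max_left _ _)) hn z
      (le_max_right _ _)
    rwa [hC.reg.res_res (le_max_right _ _)] at h1
  refine ⟨C, ext (dl2 S) C, starExt_of_mem hsub3 hC.rec_self, hW,
    countable_ext (countable_dl2 hS.2.2), hU.below hsub3 hC.rec_self ?_, fun z => (hpath z).1⟩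
  refine (hNeg.mono hsub2).not.of_iff fun n => ⟨fun hn => ?_, fun ⟨z, hz⟩ hn => hneg n z hn hz⟩
  by_contra h1
  refine hn ((eNeg n).2 (infT_of_path hC.reg fun z =>
    ⟨⟨(hpath z).1, fun m hm => hneg m z (hreg.mem_res.1 hm).2⟩, fun h2 => h1 ⟨z, h2⟩⟩))

end Pool.Agent.Lib.MP_706ff3_lc.B
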